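import Pool.Agent.Helper891_XR.Xf
import Pool.Agent.Y682.XF.ValC

/-!
# The `L`-functions over `F` and `K`
-/

set_option autoImplicit false

open Finset NumberField IsCyclotomicExtension.Rat H300.HW

namespace Pool.Agent.Helper891_XS

open scoped Classical

open Pool.Agent.W97.MT (ap E14 II)

open Pool.Agent.Y700 (WM)

open Pool.Agent.Y682.XT Pool.Agent.Y682.XD Pool.Agent.Y682.XF Pool.Agent.R431.T

open Pool.Agent.Helper891_XR

section

variable {q : ℕ} [NeZero q] {L : Type} [Field L] [NumberField L] [IsCyclotomicExtension {q} ℚ L]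
  {K F : IntermediateField ℚ L}

lemma HH_le (hFK : F ≤ K) : HH q L K ≤ HH q L F := by
  intro u hu
  rw [mem_HH] at hu ⊢
  exact IntermediateField.fixingSubgroup_antitone hFK hu

/-- the characters of the smaller field -/
lemma mem_cf (ψ : GG q L K →* ℂˣ) :
    cf q L K ψ ∈ YY q L F ↔ ∀ u ∈ HH q L F, ψ (mkG q L K u) = 1 := by
  rw [mem_YY]
  constructor
  · intro h u hu
    rw [mem_HH] at hu
    have h1 := h ((galEquivZMod q L).symm u) hu
    rw [MulEquiv.apply_symm_apply, cf_apply] at h1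
    exact Units.ext h1
  · intro h σ hσ
    rw [cf_apply, h _ (by rw [mem_HH, MulEquiv.symm_apply_apply]; exact hσ), Units.val_one]

lemma YY_le (hFK : F ≤ K) {χ : DirichletCharacter ℂ q} (hχ : χ ∈ YY q L F) : χ ∈ YY q L K := by
  rw [mem_YY] at hχ ⊢
  intro σ hσ
  exact hχ σ (IntermediateField.fixingSubgroup_antitone hFK hσ)

/-- the product over the characters of `F` -/
lemma prod_F (hFK : F ≤ K) [Fintype (GG q L K →* ℂˣ)] (f : DirichletCharacter ℂ q → ℂ) :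
    ∏ᶠ χ : YY q L F, f χ = ∏ ψ : {ψ : GG q L K →* ℂˣ // cf q L K ψ ∈ YY q L F},
      f (cf q L K ψ) := by
  have hfY : Fintype (YY q L F) := Fintype.ofFinite _
  rw [finprod_eq_prod_of_fintype]
  symm
  refine prod_bij (fun ψ _ => (⟨cf q L K ψ.1, ψ.2⟩ : YY q L F)) ?_ ?_ ?_ ?_
  · intro ψ _; exact mem_univ _
  · intro ψ _ ψ' _ h
    exact Subtype.ext (cf_inj (congrArg Subtype.val h))
  · rintro ⟨χ, hχ⟩ _
    obtain ⟨ψ, hψ⟩ := cf_surj (YY_le hFK hχ)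
    exact ⟨⟨ψ, by rw [hψ]; exact hχ⟩, mem_univ _, Subtype.ext hψ⟩
  · intro ψ _; rfl

lemma prod_K [Fintype (GG q L K →* ℂˣ)] (f : DirichletCharacter ℂ q → ℂ) :
    ∏ᶠ χ : YY q L K, f χ = ∏ ψ : (GG q L K →* ℂˣ), f (cf q L K ψ) := by
  have hfY : Fintype (YY q L K) := Fintype.ofFinite _
  rw [finprod_eq_prod_of_fintype]
  symm
  refine prod_bij (fun ψ _ => (⟨cf q L K ψ, cf_mem ψ⟩ : YY q L K)) ?_ ?_ ?_ ?_
  · intro ψ _; exact mem_univ _
  · intro ψ _ ψ' _ h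
    exact cf_inj (congrArg Subtype.val h)
  · rintro ⟨χ, hχ⟩ _
    obtain ⟨ψ, hψ⟩ := cf_surj hχ
    exact ⟨ψ, mem_univ _, Subtype.ext hψ⟩
  · intro ψ _; rfl

lemma card_chars [Fintype (GG q L K →* ℂˣ)] :
    Fintype.card (GG q L K →* ℂˣ) = Module.finrank ℚ K := by
  rw [← card_GG (q := q), ← Nat.card_eq_fintype_card,
    CommGroup.card_monoidHom_of_hasEnoughRootsOfUnity]

lemma card_F (hFK : F ≤ K) [Fintype (GG q L K →* ℂˣ)] :
    Fintype.card {ψ : GG q L K →* ℂˣ // cf q L K ψ ∈ YY q L F} = Module.finrank ℚ F := by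
  have : Finite (GG q L F →* ℂˣ) := Finite.of_injective (cf q L F) cf_inj
  have hfC : Fintype (GG q L F →* ℂˣ) := Fintype.ofFinite _
  rw [← card_chars (q := q) (K := F)]
  have h1 : ∀ ψ : {ψ : GG q L K →* ℂˣ // cf q L K ψ ∈ YY q L F}, ∃ ψ' : GG q L F →* ℂˣ,
      cf q L F ψ' = cf q L K ψ.1 := fun ψ => cf_surj ψ.2
  choose f hf using h1
  refine Fintype.card_of_bijective (f := f) ⟨fun ψ ψ' h => ?_, fun ψ' => ?_⟩
  · apply Subtype.ext
    apply cf_inj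
    rw [← hf, ← hf, h]
  · obtain ⟨ψ, hψ⟩ := cf_surj (YY_le hFK (cf_mem ψ'))
    refine ⟨⟨ψ, by rw [hψ]; exact cf_mem ψ'⟩, ?_⟩
    apply cf_inj
    rw [hf, hψ]

lemma card_new (hFK : F ≤ K) [Fintype (GG q L K →* ℂˣ)] :
    Fintype.card {ψ : GG q L K →* ℂˣ // ¬ cf q L K ψ ∈ YY q L F} =
      Module.finrank ℚ K - Module.finrank ℚ F := by
  rw [Fintype.card_subtype_compl, card_chars, card_F hFK]

/-- the powers -/
lemma pow_perm [Fintype (GG q L K)] [Fintype (GG q L K →* ℂˣ)] (a : ℕ)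
    (ha : a.Coprime (Fintype.card (GG q L K))) :
    ∃ π : Equiv.Perm {ψ : GG q L K →* ℂˣ // ¬ cf q L K ψ ∈ YY q L F},
      ∀ i, ((π i).1 : GG q L K →* ℂˣ) = i.1 ^ a := by
  obtain ⟨u, v, huv⟩ := Nat.isCoprime_iff_coprime.2 ha
  have h1 : ∀ (ψ : GG q L K →* ℂˣ) (g : GG q L K), ψ g = ((ψ ^ a) g) ^ u := by
    intro ψ g
    have h2 : (ψ g) ^ (Fintype.card (GG q L K)) = 1 := by
      rw [← map_pow, pow_card_eq_one, map_one]
    rw [MonoidHom.pow_apply, ← zpow_natCast, ← zpow_mul]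
    calc ψ g = ψ g ^ (u * a + v * (Fintype.card (GG q L K) : ℕ) : ℤ) := by rw [huv, zpow_one]
      _ = _ := by
        rw [zpow_add, mul_comm v, zpow_mul (ψ g) ((Fintype.card (GG q L K) : ℕ) : ℤ),
          zpow_natCast, h2, one_zpow, mul_one, mul_comm u]
  let f : {ψ : GG q L K →* ℂˣ // ¬ cf q L K ψ ∈ YY q L F} →
      {ψ : GG q L K →* ℂˣ // ¬ cf q L K ψ ∈ YY q L F} := fun ψ => ⟨ψ.1 ^ a, fun h => ψ.2 (by
    rw [mem_cf] at h ⊢
    intro g hg
    rw [h1, h g hg, one_zpow])⟩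
  have hf : Function.Injective f := by
    intro ψ ψ' h
    apply Subtype.ext
    ext g
    have h2 : ψ.1 ^ a = ψ'.1 ^ a := congrArg Subtype.val h
    rw [h1 ψ.1 g, h1 ψ'.1 g, h2]
  exact ⟨Equiv.ofBijective f (Finite.injective_iff_bijective.1 hf), fun i => rfl⟩

end

section

variable {q d : ℕ} [NeZero q] [NeZero d] [NeZero (q * d)] {L : Type} [Field L] [NumberField L]
  [IsCyclotomicExtension {q} ℚ L] {K F : IntermediateField ℚ L}

/-- **the `L`-functions over `F` and `K`** -/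
theorem ana_rel (hlk : S_LK) (hNZ : S_NZ) (hLKD : S_LKD) (hKD : S_KD)
    (hH : S_HECKE) (hPR : S_PRIM) {s t : ℚ → ℤ} {Op Om : ℝ} (hSy : Sy s t Op Om)
    (hK : HypK s (fun l => ap E14 l) q L K) (hqp : IsPrimePow q) {D : ℤ}
    (hDsq : Squarefree D) (hD4 : D % 4 = 1) (hD : D.natAbs = d) (hFK : F ≤ K)
    (hd : ∀ p : ℕ, p.Prime → p ∣ d → ¬ p ∣ 14 * q ∧ ∀ t : (ZMod q)ˣ, (t : ZMod q) = (p : ZMod q) →
      ∀ u ∈ HH q L F, mkG q L K u ∈ Subgroup.zpowers (mkG q L K t)) :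
    ∃ G₀ P : ℂ → ℂ, Differentiable ℂ G₀ ∧ Differentiable ℂ P ∧ analyticOrderAt G₀ 1 ≠ ⊤ ∧
      (∀ z : ℂ, 3 / 2 < z.re → HasProd (factor (K := F) (WM D) z) (G₀ z)) ∧
      (∀ z : ℂ, 3 / 2 < z.re → HasProd (factor (K := K) (WM D) z) (G₀ z * P z)) ∧
      ∃ ρ : ℚ, ρ ≠ 0 ∧ padicValRat 2 ρ = 0 ∧ P 1 =
        (ρ : ℂ) * (((2 * (if 0 < D then Op else Om) / √|(D : ℝ)|) ^
          (Module.finrank ℚ K - Module.finrank ℚ F) : ℝ) : ℂ) := by
  have hd0 : d ≠ 0 := NeZero.ne d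
  have hdsq : Squarefree d := by rw [← hD]; exact Int.squarefree_natAbs.2 hDsq
  have hqd : q.Coprime d := by
    refine Nat.coprime_of_dvd ?_
    intro p hp hpq hpd
    exact (hd p hp hpd).1 (dvd_mul_of_dvd_right hpq _)
  have hd14 : d.Coprime 14 := by
    refine Nat.coprime_of_dvd ?_
    intro p hp hpd hp14
    exact (hd p hp hpd).1 (dvd_mul_of_dvd_left hp14 _)
  obtain ⟨δ, hδp, hδk, hδ1, hδj⟩ := hKD D hDsq hD4 d hD.symm
  have hδ : ∀ u : (ZMod d)ˣ, δ (u : ZMod d) = 1 ∨ δ (u : ZMod d) = -1 := by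
    intro u
    rw [hδj u]
    have hco : IsCoprime (((u : ZMod d).val : ℤ)) (d : ℤ) :=
      Nat.isCoprime_iff_coprime.2 (ZMod.val_coe_unit_coprime u)
    rcases jacobiSym.trichotomy ((u : ZMod d).val : ℤ) d with h | h | h
    · exfalso
      rw [jacobiSym.eq_zero_iff_not_coprime] at h
      exact h (Int.isCoprime_iff_gcd_eq_one.1 hco)
    · left; rw [h]; push_cast; rfl
    · right; rw [h]; push_cast; rfl
  have hco : (q * d).Coprime 14 := Nat.Coprime.mul_left hK.hco hd14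
  obtain ⟨G, hG⟩ := exists_GG hco
  have hfG : Fintype (GG q L K) := Fintype.ofFinite _
  have : Finite (GG q L K →* ℂˣ) := Finite.of_injective (cf q L K) cf_inj
  have hfC : Fintype (GG q L K →* ℂˣ) := Fintype.ofFinite _
  have hE := fun (F : IntermediateField ℚ L) {z : ℂ} (hz : 3 / 2 < z.re) =>
    euler_D (L := L) hLKD hPR hDsq hD4 (by rw [hD]; exact hd14) hD hK.hco hqd hδp hδk
      (fun χ s hs => (hG χ).2.1 s hs) F hz
  obtain ⟨ρ, hρ0, hρv, hρ⟩ := val_J hH hPR hSy hK hqp hD hdsq (fun p hp hpd => (hd p hp hpd).1)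
    hδp hδ1 hδ (fun χ => (hG χ).2.2)
    (fun i : {ψ : GG q L K →* ℂˣ // ¬ cf q L K ψ ∈ YY q L F} => i.1)
    (fun i hi => i.2 (by rw [mem_cf, hi]; intro u _; rfl))
    (fun i p hp hpd t ht h1 => by
      apply i.2
      rw [mem_cf]
      intro u hu
      obtain ⟨k, hk⟩ := Subgroup.mem_zpowers_iff.1 ((hd p hp hpd).2 t ht u hu)
      rw [← hk, map_zpow, h1, one_zpow]) (fun a ha => pow_perm a ha)
  rw [card_new hFK] at hρ
  refine ⟨fun z => ∏ ψ : {ψ : GG q L K →* ℂˣ // cf q L K ψ ∈ YY q L F},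
      G (XX δ (cf q L K ψ)) z,
    fun z => ∏ ψ : {ψ : GG q L K →* ℂˣ // ¬ cf q L K ψ ∈ YY q L F}, G (XX δ (cf q L K ψ)) z,
    Differentiable.fun_finsetProd fun ψ _ => (hG _).1,
    Differentiable.fun_finsetProd fun ψ _ => (hG _).1, ?_, ?_, ?_, ρ, hρ0, hρv, hρ⟩
  · -- finite order
    intro htop
    obtain ⟨z, hz, hne⟩ := nz_all hlk hNZ hco (fun χ s hs => (hG χ).2.1 s hs)
    have hdiff : Differentiable ℂ (fun z => ∏ ψ : {ψ : GG q L K →* ℂˣ // cf q L K ψ ∈ YY q L F},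
      G (XX δ (cf q L K ψ)) z) := Differentiable.fun_finsetProd fun ψ _ => (hG _).1
    rw [analyticOrderAt_eq_top] at htop
    have han : AnalyticOnNhd ℂ (fun z => ∏ ψ : {ψ : GG q L K →* ℂˣ // cf q L K ψ ∈ YY q L F},
      G (XX δ (cf q L K ψ)) z) Set.univ := fun z _ => hdiff.analyticAt z
    have h2 := han.eqOn_zero_of_preconnected_of_eventuallyEq_zero isPreconnected_univ
      (Set.mem_univ (1 : ℂ)) htop
    have h3 := h2 (Set.mem_univ z)
    exact prod_ne_zero_iff.2 (fun ψ _ => hne (XX δ (cf q L K ψ.1))) h3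
  · intro z hz
    have h1 := hE F hz
    rw [prod_F hFK (fun χ => G (XX δ χ) z)] at h1
    exact h1
  · intro z hz
    have h1 := hE K hz
    rw [prod_K (fun χ => G (XX δ χ) z),
      ← Fintype.prod_subtype_mul_prod_subtype (fun ψ : GG q L K →* ℂˣ => cf q L K ψ ∈ YY q L F)
        (fun ψ => G (XX δ (cf q L K ψ)) z)] at h1
    exact h1

end

end Pool.Agent.Helper891_XS
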