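import Mathlib

/-!
# The discriminants of the Galois fields of odd degree
-/

set_option autoImplicit false

open NumberField Module Matrix

namespace Pool.Agent.Helper891_XS

/-- signs in groups of odd order -/
lemma hom_sign {G : Type} [Group G] [Fintype G] (hodd : Odd (Fintype.card G)) (f : G →* ℤˣ)
    (x : G) : f x = 1 := by
  rcases Int.units_eq_one_or (f x) with h | h
  · exact h
  · exfalso
    have h1 : (f x) ^ Fintype.card G = 1 := by rw [← map_pow, pow_card_eq_one, map_one]
    rw [h, hodd.neg_one_pow] at h1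
    exact absurd h1 (by decide)

lemma disc_sq (K : Type) [Field K] [NumberField K] [IsGalois ℚ K]
    (hodd : Odd (finrank ℚ K)) : ∃ m : ℤ, discr K = m ^ 2 := by
  classical
  let ι := Free.ChooseBasisIndex ℤ (𝓞 K)
  let b : Basis ι ℚ K := integralBasis K
  have hcard : Fintype.card ι = Fintype.card (K ≃ₐ[ℚ] K) := by
    rw [← finrank_eq_card_basis b, ← Nat.card_eq_fintype_card, IsGalois.card_aut_eq_finrank]
  have e : ι ≃ (K ≃ₐ[ℚ] K) := Fintype.equivOfCardEq hcard
  let φ₀ : K →ₐ[ℚ] AlgebraicClosure ℚ := IsAlgClosed.lift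
  have hbij : Function.Bijective (fun i => φ₀.comp (e i : K →ₐ[ℚ] K)) := by
    rw [Fintype.bijective_iff_injective_and_card]
    constructor
    · intro i j h
      apply e.injective
      ext x
      apply φ₀.injective
      exact DFunLike.congr_fun h x
    · rw [AlgHom.card, ← finrank_eq_card_basis b]
  let e' : ι ≃ (K →ₐ[ℚ] AlgebraicClosure ℚ) := Equiv.ofBijective _ hbij
  let m : K := Matrix.det (Matrix.of fun i j : ι => e j (b i))
  have h1 := Algebra.discr_eq_det_embeddingsMatrixReindex_pow_two ℚ (AlgebraicClosure ℚ) b e'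
  have h2 : (Algebra.embeddingsMatrixReindex ℚ (AlgebraicClosure ℚ) b e') =
      φ₀.toRingHom.mapMatrix (Matrix.of fun i j : ι => e j (b i)) := by
    ext i j
    rfl
  rw [h2, ← RingHom.map_det] at h1
  have hfix : ∀ γ : K ≃ₐ[ℚ] K, γ m = m := by
    intro γ
    let π : Equiv.Perm ι := (e.trans (Equiv.mulLeft γ)).trans e.symm
    have h3 : γ m = Matrix.det ((Matrix.of fun i j : ι => e j (b i)).submatrix id π) := by
      show (γ : K →+* K) (Matrix.det _) = _
      rw [RingHom.map_det]
      congr 1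
      ext i j
      show γ (e j (b i)) = e (e.symm (γ * e j)) (b i)
      rw [Equiv.apply_symm_apply]
      rfl
    rw [h3, Matrix.det_permute']
    have h4 : Equiv.Perm.sign π = 1 := by
      have h5 : Equiv.Perm.sign π = Equiv.Perm.sign (Equiv.mulLeft γ) :=
        Equiv.Perm.sign_symm_trans_trans (Equiv.mulLeft γ) e.symm
      rw [h5]
      exact hom_sign (by rw [← hcard, ← finrank_eq_card_basis b]; exact hodd)
        ((Equiv.Perm.sign).comp (MulAction.toPermHom (K ≃ₐ[ℚ] K) (K ≃ₐ[ℚ] K))) γ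
    rw [h4]
    show ((1 : ℤˣ) : ℤ) * m = m
    simp
  obtain ⟨r, hr⟩ := (IsGalois.mem_range_algebraMap_iff_fixed m).2 hfix
  have h6 : (discr K : ℚ) = r ^ 2 := by
    rw [coe_discr]
    apply (algebraMap ℚ (AlgebraicClosure ℚ)).injective
    have h7 : algebraMap ℚ (AlgebraicClosure ℚ) (Algebra.discr ℚ b) = (φ₀ m) ^ 2 := h1
    rw [← hr] at h7
    rw [map_pow]
    have h8 : φ₀ (algebraMap ℚ K r) = algebraMap ℚ (AlgebraicClosure ℚ) r := φ₀.commutes r
    rw [h8] at h7
    exact h7
  obtain ⟨y, hy⟩ := IsIntegrallyClosed.exists_algebraMap_eq_of_isIntegral_pow (R := ℤ) (x := r)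
    two_pos (by rw [← h6]; exact isIntegral_algebraMap (x := discr K))
  refine ⟨y, ?_⟩
  have h9 : ((discr K : ℤ) : ℚ) = ((y ^ 2 : ℤ) : ℚ) := by
    rw [h6, ← hy]
    simp
  exact_mod_cast h9

lemma disc_odd {q : ℕ} [NeZero q] (hq : Odd q) {C : Type} [Field C] [NumberField C]
    [IsCyclotomicExtension {q} ℚ C] (K : IntermediateField ℚ C) : Odd (discr K) := by
  have h1 : discr K ∣ discr C := discr_dvd_discr K C
  have h2 : (discr C).natAbs ∣ q ^ q.totient := by
    rw [IsCyclotomicExtension.Rat.natAbs_discr q C]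
    exact Nat.div_dvd_of_dvd (Nat.prod_primeFactors_pow_totient_ediv_dvd (NeZero.pos _))
  have h3 : Odd (q ^ q.totient) := hq.pow
  have h4 : (discr K).natAbs ∣ q ^ q.totient := (Int.natAbs_dvd_natAbs.2 h1).trans h2
  have h5 : Odd (discr K).natAbs := Odd.of_dvd_nat h3 h4
  exact Int.natAbs_odd.1 h5

/-- **the square root of the discriminant** -/
theorem disc_form {q : ℕ} [NeZero q] (hq : Odd q) {C : Type} [Field C] [NumberField C]
    [IsCyclotomicExtension {q} ℚ C] (K : IntermediateField ℚ C) (hodd : Odd (finrank ℚ K)) :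
    ∃ m : ℕ, Odd m ∧ √|(discr K : ℝ)| = m := by
  have hGal : IsGalois ℚ K := by
    have h1 : IsAbelianGalois ℚ C := IsCyclotomicExtension.isAbelianGalois {q} ℚ C
    exact @IsAbelianGalois.toIsGalois ℚ K _ _ (IntermediateField.algebra' K) inferInstance
  obtain ⟨m, hm⟩ := disc_sq K hodd
  have h1 := disc_odd hq K
  rw [hm] at h1
  refine ⟨m.natAbs, Int.natAbs_odd.2 ((Int.odd_pow.1 h1).resolve_right (by norm_num)), ?_⟩
  rw [hm]
  push_cast
  rw [abs_pow, Real.sqrt_sq (abs_nonneg _), Nat.cast_natAbs, Int.cast_abs]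

end Pool.Agent.Helper891_XS
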