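import Mathlib

/-!
# The height relative to an extension of number fields
-/

set_option autoImplicit false

namespace Pool.Agent.Helper891_XS

open NumberField Height Finset

section emb

variable {F K : Type*} [Field F] [NumberField F] [Field K] [NumberField K] [Algebra F K]

lemma card_fiber (φ : F →+* ℂ) [Fintype {ψ : K →+* ℂ // ψ.comp (algebraMap F K) = φ}] :
    Fintype.card {ψ : K →+* ℂ // ψ.comp (algebraMap F K) = φ} = Module.finrank F K := by
  let _ : Algebra F ℂ := φ.toAlgebra
  let e : {ψ : K →+* ℂ // ψ.comp (algebraMap F K) = φ} ≃ (K →ₐ[F] ℂ) :=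
    { toFun := fun ψ => { ψ.1 with commutes' := fun x => DFunLike.congr_fun ψ.2 x }
      invFun := fun f => ⟨(f : K →+* ℂ), RingHom.ext fun x => f.commutes x⟩
      left_inv := fun ψ => by ext; rfl
      right_inv := fun f => by ext; rfl }
  have : FiniteDimensional F K := Module.Finite.of_restrictScalars_finite ℚ F K
  rw [Fintype.card_congr e, AlgHom.card]

lemma prod_emb (f : InfinitePlace K → ℝ) :
    ∏ φ : K →+* ℂ, f (InfinitePlace.mk φ) = ∏ w, f w ^ w.mult := by
  classical
  rw [← Finset.prod_fiberwise (s := univ) (g := fun φ : K →+* ℂ => InfinitePlace.mk φ)]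
  refine prod_congr rfl fun w _ => ?_
  rw [prod_congr rfl (g := fun _ => f w) (fun φ hφ => by rw [(mem_filter.1 hφ).2]), prod_const,
    InfinitePlace.card_filter_mk_eq]

lemma inf_part {ι : Type*} [Fintype ι] [Nonempty ι] (x : ι → F) :
    ∏ w : InfinitePlace K, (⨆ i, w (algebraMap F K (x i))) ^ w.mult =
      (∏ v : InfinitePlace F, (⨆ i, v (x i)) ^ v.mult) ^ Module.finrank F K := by
  classical
  rw [← prod_emb (K := K) (fun w => ⨆ i, w (algebraMap F K (x i))),
    ← prod_emb (K := F) (fun v => ⨆ i, v (x i)), ← Finset.prod_pow]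
  rw [← Finset.prod_fiberwise (s := univ)
    (g := fun ψ : K →+* ℂ => (ψ.comp (algebraMap F K) : F →+* ℂ))]
  refine prod_congr rfl fun φ _ => ?_
  rw [prod_congr rfl (g := fun _ => ⨆ i, (InfinitePlace.mk φ) (x i)) (fun ψ hψ => by
    have h := (mem_filter.1 hψ).2
    congr 1
    funext i
    rw [InfinitePlace.apply, InfinitePlace.apply, ← h]
    rfl), prod_const]
  congr 1
  rw [← card_fiber (K := K) φ, Fintype.card_subtype]

end emb

section fin

variable {F K : Type} [Field F] [NumberField F] [Field K] [NumberField K] [Algebra F K]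

lemma rank_ring : Module.finrank (𝓞 F) (𝓞 K) = Module.finrank F K :=
  (IsFractionRing.finrank_eq (𝓞 F) F (𝓞 K) K).symm

lemma fin_part {ι : Type*} [Fintype ι] [Nonempty ι] (x : ι → 𝓞 F) (hx : x ≠ 0) :
    ∏ᶠ w : FinitePlace K, ⨆ i, w (algebraMap F K (x i : F)) =
      (∏ᶠ v : FinitePlace F, ⨆ i, v ((x i : 𝓞 F) : F)) ^ Module.finrank F K := by
  have h1 := absNorm_mul_finprod_finitePlace_eq_one hx
  set y : ι → 𝓞 K := fun i => algebraMap (𝓞 F) (𝓞 K) (x i) with hy
  have hy0 : y ≠ 0 := by
    intro h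
    apply hx
    funext i
    have h2 := congrFun h i
    have h3 : algebraMap (𝓞 F) (𝓞 K) (x i) = 0 := h2
    exact (map_eq_zero_iff _ (FaithfulSMul.algebraMap_injective (𝓞 F) (𝓞 K))).1 h3
  have h2 := absNorm_mul_finprod_finitePlace_eq_one hy0
  have h3 : Ideal.span (Set.range y) = (Ideal.span (Set.range x)).map (algebraMap (𝓞 F) (𝓞 K)) := by
    rw [Ideal.map_span, ← Set.range_comp]
    rfl
  rw [h3, Ideal.absNorm_algebraMap, rank_ring] at h2
  have h4 : ∀ i, ((y i : 𝓞 K) : K) = algebraMap F K (x i : F) := fun i => rfl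
  simp_rw [h4] at h2
  have h5 : ((Ideal.absNorm (Ideal.span (Set.range x)) : ℕ) : ℝ) ≠ 0 := by
    intro h0
    rw [h0, zero_mul] at h1
    exact zero_ne_one h1
  push_cast at h2
  have h6 : ((Ideal.absNorm (Ideal.span (Set.range x)) : ℕ) : ℝ) ^ Module.finrank F K ≠ 0 :=
    pow_ne_zero _ h5
  apply mul_left_cancel₀ h6
  rw [h2, ← mul_pow, h1, one_pow]

theorem mulHeight_rel_int {ι : Type*} [Fintype ι] [Nonempty ι] (x : ι → 𝓞 F) (hx : x ≠ 0) :
    mulHeight (fun i => algebraMap F K (x i : F)) =
      mulHeight (fun i => (x i : F)) ^ Module.finrank F K := by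
  have hx1 : (fun i => (x i : F)) ≠ 0 := by
    intro h
    apply hx
    funext i
    have h2 := congrFun h i
    exact (RingOfIntegers.coe_eq_zero_iff).1 h2
  have hx2 : (fun i => algebraMap F K (x i : F)) ≠ 0 := by
    intro h
    apply hx1
    funext i
    have h2 := congrFun h i
    exact (map_eq_zero_iff _ (algebraMap F K).injective).1 h2
  rw [NumberField.mulHeight_eq hx1, NumberField.mulHeight_eq hx2, fin_part x hx,
    inf_part (fun i => (x i : F)), mul_pow]

/-- **the relative height** -/
theorem logHeight_rel {ι : Type*} [Fintype ι] [Nonempty ι] (x : ι → F) :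
    logHeight (fun i => algebraMap F K (x i)) = Module.finrank F K * logHeight x := by
  rcases eq_or_ne x 0 with rfl | hx
  · have h1 : (fun i : ι => algebraMap F K ((0 : ι → F) i)) = 0 := by
      funext i
      simp
    rw [h1, logHeight_zero, logHeight_zero, mul_zero]
  obtain ⟨b, hb⟩ := IsLocalization.exist_integer_multiples_of_finite (nonZeroDivisors (𝓞 F)) x
  choose y hy using hb
  have hb0 : ((b : 𝓞 F) : F) ≠ 0 := by
    have := nonZeroDivisors.ne_zero b.2
    exact_mod_cast this
  have hy' : ∀ i, ((y i : 𝓞 F) : F) = ((b : 𝓞 F) : F) * x i := fun i => by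
    have := hy i
    rw [Algebra.smul_def] at this
    exact this
  have hy0 : y ≠ 0 := by
    intro h
    apply hx
    funext i
    have h2 := hy' i
    rw [h] at h2
    have h3 : ((b : 𝓞 F) : F) * x i = 0 := by
      rw [← h2]
      simp
    exact (mul_eq_zero.1 h3).resolve_left hb0
  have e1 : mulHeight x = mulHeight (fun i => ((y i : 𝓞 F) : F)) := by
    rw [← mulHeight_smul_eq_mulHeight x hb0]
    congr 1
    funext i
    exact (hy' i).symm
  have hcK : algebraMap F K ((b : 𝓞 F) : F) ≠ 0 :=
    (map_ne_zero_iff _ (algebraMap F K).injective).2 hb0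
  have e2 : mulHeight (fun i => algebraMap F K (x i)) =
      mulHeight (fun i => algebraMap F K ((y i : 𝓞 F) : F)) := by
    rw [← mulHeight_smul_eq_mulHeight (fun i => algebraMap F K (x i)) hcK]
    congr 1
    funext i
    rw [Pi.smul_apply, smul_eq_mul, ← map_mul, ← hy' i]
  rw [logHeight_eq_log_mulHeight, logHeight_eq_log_mulHeight, e1, e2, mulHeight_rel_int y hy0,
    Real.log_pow]

end fin

end Pool.Agent.Helper891_XS
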