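import Pool.Agent.Y682.XF.Stm
import Pool.Agent.Y44.XF.Mind

/-!
# Minimality of the twists at the finite places, unramified primes
-/

set_option autoImplicit false

open NumberField IsDedekindDomain WithZero WeierstrassCurve

namespace Pool.Agent.Helper891_XS

open Pool.Agent.Y700 (WM)

open Pool.Agent.Y44.XF

/-- the valuation of a squarefree integer whose prime divisors are unramified -/
lemma val_sqf {K : Type} [Field K] [NumberField K] (v : HeightOneSpectrum (𝓞 K)) {D : ℤ}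
    (hD : Squarefree D)
    (hin : ∀ p : ℕ, p.Prime → (p : ℤ) ∣ D → ∀ v : HeightOneSpectrum (𝓞 K),
      ((p : ℕ) : 𝓞 K) ∈ v.asIdeal → v.valuation K ((p : ℕ) : K) = exp (-1 : ℤ))
    (h : (D : 𝓞 K) ∈ v.asIdeal) : v.valuation K (D : K) = exp (-1 : ℤ) := by
  have hn : ((D.natAbs : ℕ) : 𝓞 K) ∈ v.asIdeal := by
    rcases Int.natAbs_eq D with e | e
    · rw [e, Int.cast_natCast] at h
      exact h
    · rw [e, Int.cast_neg, Int.cast_natCast] at h
      exact (v.asIdeal.neg_mem_iff).1 h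
  obtain ⟨p, hp, hpD, hpv⟩ := exists_prime_mem v (Int.natAbs_ne_zero.2 hD.ne_zero) hn
  have hpD' : (p : ℤ) ∣ D := Int.natCast_dvd.2 hpD
  have hpi := Nat.prime_iff_prime_int.1 hp
  obtain ⟨t, ht⟩ := hpD'
  have hnt : ¬ (p : ℤ) ∣ t := by
    rintro ⟨u, hu⟩
    have h1 : (p : ℤ) * (p : ℤ) ∣ D := ⟨u, by rw [ht, hu]; ring⟩
    exact hpi.not_isUnit (hD _ h1)
  have hco : IsCoprime t (p : ℤ) :=
    ((Prime.irreducible hpi).coprime_iff_not_dvd.2 hnt).symm
  have hpv' : ((p : ℤ) : 𝓞 K) ∈ v.asIdeal := by exact_mod_cast hpv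
  have h2 := val_int_one v (notMem_of_coprime v hco hpv')
  have h3 := hin p hp (Int.natCast_dvd.2 hpD) v hpv
  rw [ht]
  push_cast
  rw [map_mul, h2, mul_one]
  exact h3

/-- **minimality** -/
theorem mind_gen {D : ℤ} (hsq : Squarefree D) (hD : D % 4 = 1) (hcop : (D.natAbs).Coprime 14)
    {K : Type} [Field K] [NumberField K]
    (hin : ∀ p : ℕ, p.Prime → (p : ℤ) ∣ D → ∀ v : HeightOneSpectrum (𝓞 K),
      ((p : ℕ) : 𝓞 K) ∈ v.asIdeal → v.valuation K ((p : ℕ) : K) = exp (-1 : ℤ))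
    (v : HeightOneSpectrum (𝓞 K)) : Pool.Agent.Y682.XF.MinimalAt (WM D) v := by
  intro C h1 h2 h3 h4 h6
  have h4' := c4_le _ _ h1 h2 h3 h4 h6
  have hΔ := disc_le _ _ h1 h2 h3 h4 h6
  have e4 : (Pool.Agent.Y682.XF.base (WM D) K).c₄ = ((-(215 * D ^ 2) : ℤ) : K) := by
    rw [WeierstrassCurve.map_c₄, WM_c4 hD]
    simp
  have eΔ : (Pool.Agent.Y682.XF.base (WM D) K).Δ = ((-(2 ^ 6 * 7 ^ 3 * D ^ 6) : ℤ) : K) := by
    rw [WeierstrassCurve.map_Δ, WM_disc hD]
    simp
  have hD14 : IsCoprime D (14 : ℤ) := Int.isCoprime_iff_gcd_eq_one.2 hcop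
  by_cases h : ((14 : ℤ) : 𝓞 K) ∈ v.asIdeal
  · have hu : v.valuation K (Pool.Agent.Y682.XF.base (WM D) K).c₄ = 1 := by
      rw [e4]
      apply val_int_one
      apply notMem_of_coprime v _ h
      have h215 : IsCoprime (215 : ℤ) 14 := by norm_num
      exact (h215.mul_left (hD14.pow_left)).neg_left
    rw [WeierstrassCurve.variableChange_c₄, map_mul, map_pow, hu, mul_one] at h4'
    rw [WeierstrassCurve.variableChange_Δ, map_mul, map_pow]
    have h5 : v.valuation K ((C.u⁻¹ : Kˣ) : K) ≤ 1 := by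
      by_contra hcon
      rw [not_le] at hcon
      exact absurd h4' (not_le.2 (one_lt_pow₀ hcon (by norm_num)))
    exact mul_le_of_le_one_left' (pow_le_one₀ zero_le h5)
  · have h2v : v.valuation K ((2 : ℤ) : K) = 1 := by
      apply val_int_one
      intro h2
      apply h
      rw [show ((14 : ℤ) : 𝓞 K) = 7 * ((2 : ℤ) : 𝓞 K) by push_cast; norm_num]
      exact v.asIdeal.mul_mem_left _ h2
    have h7v : v.valuation K ((7 : ℤ) : K) = 1 := by
      apply val_int_one
      intro h7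
      apply h
      rw [show ((14 : ℤ) : 𝓞 K) = 2 * ((7 : ℤ) : 𝓞 K) by push_cast; norm_num]
      exact v.asIdeal.mul_mem_left _ h7
    have eΔ' : v.valuation K (Pool.Agent.Y682.XF.base (WM D) K).Δ =
        v.valuation K (D : K) ^ 6 := by
      rw [eΔ, Int.cast_neg, Valuation.map_neg, Int.cast_mul, Int.cast_mul, Int.cast_pow,
        Int.cast_pow, Int.cast_pow, map_mul, map_mul, map_pow, map_pow, map_pow, h2v, h7v,
        one_pow, one_pow, one_mul, one_mul]
    by_cases hDv : (D : 𝓞 K) ∈ v.asIdeal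
    · have hv := val_sqf v hsq hin hDv
      rw [WeierstrassCurve.variableChange_Δ, map_mul, map_pow] at hΔ ⊢
      rw [eΔ', hv] at hΔ ⊢
      have h5 : v.valuation K ((C.u⁻¹ : Kˣ) : K) ≤ 1 := by
        by_contra hcon
        rw [not_le] at hcon
        have hne : v.valuation K ((C.u⁻¹ : Kˣ) : K) ≠ 0 := (zero_lt_one.trans hcon).ne'
        obtain ⟨n, hn⟩ : ∃ n : ℤ, v.valuation K ((C.u⁻¹ : Kˣ) : K) = exp n :=
          ⟨_, (WithZero.exp_log hne).symm⟩
        rw [hn] at hcon hΔ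
        rw [← exp_nsmul, ← exp_nsmul, ← exp_add, ← exp_zero, exp_le_exp] at hΔ
        rw [← exp_zero, exp_lt_exp] at hcon
        simp only [nsmul_eq_mul] at hΔ
        push_cast at hΔ
        omega
      exact mul_le_of_le_one_left' (pow_le_one₀ zero_le h5)
    · rw [eΔ', val_int_one v hDv, one_pow]
      exact hΔ

end Pool.Agent.Helper891_XS
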