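import Pool.Agent.Y813.XF.TamD
import Pool.Agent.Y44.XF.Mind

/-!
# The Tamagawa numbers of the twists of `X_0(14)`, unramified primes of odd degree
-/

set_option autoImplicit false

open NumberField IsDedekindDomain WithZero WeierstrassCurve

namespace Pool.Agent.Helper891_XS

open Pool.Agent.Y682.XF
open Pool.Agent.Y700 (WM)
open Pool.Agent.Y484.XT (plc plc_val eq_plc valued_cast valued_int valued_nat int_le_one val_one
  approx)
open Pool.Agent.Y813.XF

open scoped Classical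

section

variable {K : Type} [Field K] [NumberField K]

/-- `-7` is not a square in the residue field of a prime of odd degree, if it is not a square
modulo `p` -/
theorem no_sqrt' {p : ℕ} (hpp : p.Prime) (hp2 : p ≠ 2)
    (hp7 : p ≠ 7) (v : HeightOneSpectrum (𝓞 K)) (hv : ((p : ℕ) : 𝓞 K) ∈ v.asIdeal)
    {f : ℕ} (hodd : Odd f) (hf : Ideal.absNorm v.asIdeal = p ^ f) (hns : ¬ IsSquare (-7 : ZMod p))
    (b : 𝓞 K) : b ^ 2 + 7 ∉ v.asIdeal := by
  intro hb
  have : Fact p.Prime := ⟨hpp⟩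
  set P : Ideal (𝓞 K) := v.asIdeal with hP
  have hmax : P.IsMaximal := v.isMaximal
  let _ : Field (𝓞 K ⧸ P) := Ideal.Quotient.field P
  have hcard : Nat.card (𝓞 K ⧸ P) = p ^ f := by
    have h1 : Ideal.absNorm P = Nat.card (𝓞 K ⧸ P) := Submodule.cardQuot_apply P
    rw [← h1, hf]
  have hfin : Finite (𝓞 K ⧸ P) := by
    apply Nat.finite_of_card_ne_zero
    rw [hcard]
    exact pow_ne_zero _ hpp.ne_zero
  have := Fintype.ofFinite (𝓞 K ⧸ P)
  have hmk : ∀ m : ℤ, (p : ℤ) ∣ m → ((m : ℤ) : 𝓞 K ⧸ P) = 0 := by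
    rintro m ⟨t, rfl⟩
    have h1 : Ideal.Quotient.mk P ((p : ℕ) : 𝓞 K) = 0 :=
      Ideal.Quotient.eq_zero_iff_mem.2 hv
    rw [map_natCast] at h1
    push_cast
    rw [h1, zero_mul]
  have hmk' : ∀ m : ℤ, ¬ (p : ℤ) ∣ m → ((m : ℤ) : 𝓞 K ⧸ P) ≠ 0 := by
    intro m hm h0
    apply not_mem_of_not_dvd hpp v hv m hm
    rw [← hP, ← Ideal.Quotient.eq_zero_iff_mem, map_intCast]
    exact h0
  set y : 𝓞 K ⧸ P := Ideal.Quotient.mk P b with hy
  have hy1 : y ^ 2 = ((-7 : ℤ) : 𝓞 K ⧸ P) := by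
    have h1 : y ^ 2 + 7 = 0 := by
      have h2 : Ideal.Quotient.mk P (b ^ 2 + 7) = 0 := Ideal.Quotient.eq_zero_iff_mem.2 hb
      rw [map_add, map_pow, map_ofNat] at h2
      exact h2
    push_cast
    linear_combination h1
  have hodd' : p % 2 = 1 := (hpp.eq_two_or_odd).resolve_left hp2
  -- the power of `-7`
  have h7 : ((-7 : ℤ) : 𝓞 K ⧸ P) ^ (p / 2) = -1 := by
    have h70 : (-7 : ZMod p) ≠ 0 := by
      intro h0
      have h1 : (p : ℤ) ∣ -7 := by
        rw [← ZMod.intCast_zmod_eq_zero_iff_dvd]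
        push_cast
        exact h0
      have h2 : p ∣ 7 := by
        have := Int.natAbs_dvd_natAbs.2 h1
        simpa using this
      exact hp7 ((Nat.prime_dvd_prime_iff_eq hpp (by norm_num)).1 h2)
    have h1 : (-7 : ZMod p) ^ (p / 2) = -1 := by
      rcases ZMod.pow_div_two_eq_neg_one_or_one p h70 with h | h
      · exact absurd ((ZMod.euler_criterion p h70).2 h) hns
      · exact h
    have h2 : (p : ℤ) ∣ (-7) ^ (p / 2) + 1 := by
      rw [← ZMod.intCast_zmod_eq_zero_iff_dvd]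
      push_cast
      rw [h1]
      ring
    have h3 := hmk _ h2
    push_cast at h3 ⊢
    linear_combination h3
  have hfrob : y ^ p = -y := by
    have e : p = 2 * (p / 2) + 1 := by omega
    have h1 : y ^ p = (y ^ 2) ^ (p / 2) * y := by
      conv_lhs => rw [e]
      rw [pow_succ, pow_mul]
    rw [h1, hy1, h7]
    ring
  have hpow : ∀ k : ℕ, y ^ p ^ k = (-1) ^ k * y := by
    intro k
    induction k with
    | zero => simp
    | succ k ih =>
      rw [pow_succ, pow_mul, ih, mul_pow, hfrob, ← pow_mul, mul_comm k p, pow_mul,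
        (Nat.odd_iff.2 hodd').neg_one_pow, pow_succ]
      ring
  have hlast : y ^ p ^ f = y := by
    rw [← hcard, Nat.card_eq_fintype_card]
    exact FiniteField.pow_card y
  rw [hpow, hodd.neg_one_pow] at hlast
  have h2y : ((2 : ℤ) : 𝓞 K ⧸ P) * y = 0 := by
    push_cast
    linear_combination -hlast
  have h2 : ((2 : ℤ) : 𝓞 K ⧸ P) ≠ 0 := by
    apply hmk'
    intro h
    have := (Nat.prime_dvd_prime_iff_eq hpp Nat.prime_two).1 (by exact_mod_cast h)
    exact hp2 this
  have hy0 : y = 0 := (mul_eq_zero.1 h2y).resolve_left h2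
  rw [hy0] at hy1
  apply hmk' (-7) _ (by rw [← hy1]; ring)
  intro h1
  have h2 : p ∣ 7 := by
    have := Int.natAbs_dvd_natAbs.2 h1
    simpa using this
  exact hp7 ((Nat.prime_dvd_prime_iff_eq hpp (by norm_num)).1 h2)

variable {D : ℤ} (hsq : Squarefree D) (h4 : D % 4 = 1) (hcop : (D.natAbs).Coprime 14)

include h4 in
/-- the places of good reduction -/
lemma c_good (hG : S_TG) (v : HeightOneSpectrum (𝓞 K)) (n14 : ((14 : ℤ) : 𝓞 K) ∉ v.asIdeal)
    (nD : ((D : ℤ) : 𝓞 K) ∉ v.asIdeal) : c (WM D) v = 1 := by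
  have := charZero_of_injective_algebraMap (algebraMap K (v.adicCompletion K)).injective
  have e14 : Valued.v (14 : v.adicCompletion K) = 1 := by
    have := val_int_one v 14 n14
    exact_mod_cast this
  show (E0 (WM D) (v.adicCompletion K) Valued.v).index = 1
  rw [hG D h4 (v.adicCompletion K) Valued.v (fun n => by
    rw [valued_int]
    exact int_le_one v n) e14 (val_int_one v D nD)]
  exact AddSubgroup.index_top

include h4 in
/-- the place two -/
lemma c_two (h2 : S_T2) (v : HeightOneSpectrum (𝓞 K))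
    (hval : v.valuation K ((2 : ℕ) : K) = exp (-1 : ℤ)) :
    c (WM D) v ≠ 0 ∧ padicValNat 2 (c (WM D) v) = 1 := by
  have := charZero_of_injective_algebraMap (algebraMap K (v.adicCompletion K)).injective
  obtain ⟨ha, hb⟩ := h2 D h4 (v.adicCompletion K) Valued.v (fun n => by
    rw [valued_int]
    exact int_le_one v n) (by
    have h1 : Valued.v ((2 : ℕ) : v.adicCompletion K) = exp (-1 : ℤ) := by
      rw [valued_nat]; exact hval
    exact_mod_cast h1)
  change 2 ∣ c (WM D) v at ha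
  change c (WM D) v ∣ 6 at hb
  generalize c (WM D) v = n at ha hb
  have hn : n ≤ 6 := Nat.le_of_dvd (by norm_num) hb
  have h26 : n = 2 ∨ n = 6 := by
    interval_cases n <;> simp_all
  rcases h26 with rfl | rfl
  · exact ⟨by norm_num, by simp⟩
  · refine ⟨by norm_num, ?_⟩
    rw [show (6 : ℕ) = 2 * 3 by norm_num, padicValNat.mul (by norm_num) (by norm_num),
      padicValNat.eq_zero_of_not_dvd (by norm_num : ¬ 2 ∣ 3)]
    simp

include h4 in
/-- the place seven -/
lemma c_seven (h7 : S_T7) (v : HeightOneSpectrum (𝓞 K))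
    (hval : v.valuation K ((7 : ℕ) : K) = exp (-1 : ℤ)) (nD : ((D : ℤ) : 𝓞 K) ∉ v.asIdeal) :
    c (WM D) v ≠ 0 ∧ padicValNat 2 (c (WM D) v) = 0 := by
  have := charZero_of_injective_algebraMap (algebraMap K (v.adicCompletion K)).injective
  have hb := h7 D h4 (v.adicCompletion K) Valued.v (fun n => by
    rw [valued_int]
    exact int_le_one v n) (by
    have h1 : Valued.v ((7 : ℕ) : v.adicCompletion K) = exp (-1 : ℤ) := by
      rw [valued_nat]; exact hval
    exact_mod_cast h1) (val_int_one _ D nD)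
  change c (WM D) v ∣ 3 at hb
  rcases (Nat.dvd_prime Nat.prime_three).1 hb with h | h
  · rw [h]
    exact ⟨one_ne_zero, by simp⟩
  · rw [h]
    exact ⟨by norm_num, padicValNat.eq_zero_of_not_dvd (by norm_num)⟩

include h4 hsq in
/-- the places of the twist -/
lemma c_twist (hI : S_TI) (hS : S_TS) (v : HeightOneSpectrum (𝓞 K)) {p : ℕ} (hpp : p.Prime)
    (hp2' : p ≠ 2) (hp7' : p ≠ 7) (hpd : (p : ℤ) ∣ D)
    (hv : ((p : ℕ) : 𝓞 K) ∈ v.asIdeal)
    (hval : v.valuation K ((p : ℕ) : K) = exp (-1 : ℤ)) {f : ℕ} (hodd : Odd f)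
    (hf : Ideal.absNorm v.asIdeal = p ^ f) :
    c (WM D) v ≠ 0 ∧ padicValNat 2 (c (WM D) v) = (if IsSquare (-7 : ZMod p) then 2 else 1) := by
  have := charZero_of_injective_algebraMap (algebraMap K (v.adicCompletion K)).injective
  have hle : ∀ (n : ℤ), Valued.v ((n : ℤ) : v.adicCompletion K) ≤ 1 := fun n => by
    rw [valued_int]
    exact int_le_one v n
  have hndv : ∀ m : ℤ, ¬ (p : ℤ) ∣ m → (m : 𝓞 K) ∉ v.asIdeal := fun m hm =>
    not_mem_of_not_dvd hpp v hv m hm
  have n2 : ¬ (p : ℤ) ∣ 2 := by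
    intro h
    exact hp2' ((Nat.prime_dvd_prime_iff_eq hpp Nat.prime_two).1 (by exact_mod_cast h))
  have n7 : ¬ (p : ℤ) ∣ 7 := by
    intro h
    exact hp7' ((Nat.prime_dvd_prime_iff_eq hpp (by norm_num)).1 (by exact_mod_cast h))
  have n14 : ¬ (p : ℤ) ∣ 14 := by
    intro h
    rcases (Nat.prime_iff_prime_int.1 hpp).dvd_or_dvd
      (show (p : ℤ) ∣ 2 * 7 by exact_mod_cast h) with h | h
    · exact n2 h
    · exact n7 h
  have e14 : Valued.v (14 : v.adicCompletion K) = 1 := by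
    have := val_int_one _ 14 (hndv 14 n14)
    exact_mod_cast this
  have e2 : Valued.v (2 : v.adicCompletion K) = 1 := by
    have := val_int_one _ 2 (hndv 2 n2)
    exact_mod_cast this
  have eD : Valued.v ((D : ℤ) : v.adicCompletion K) = exp (-1 : ℤ) := by
    obtain ⟨t, ht⟩ := hpd
    have hnt : ¬ (p : ℤ) ∣ t := by
      rintro ⟨u, hu⟩
      have h1 : (p : ℤ) * (p : ℤ) ∣ D := ⟨u, by rw [ht, hu]; ring⟩
      have h2 := hsq _ h1
      exact (Nat.prime_iff_prime_int.1 hpp).not_isUnit h2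
    rw [ht]
    push_cast
    rw [map_mul, val_int_one _ t (hndv t hnt), mul_one, valued_nat]
    exact hval
  by_cases hsqr : IsSquare (-7 : ZMod p)
  · rw [if_pos hsqr]
    have h1 : IsSquare (-7 : v.adicCompletion K) := by
      obtain ⟨a, ha⟩ := hsqr
      obtain ⟨k, rfl⟩ := ZMod.intCast_surjective a
      have h2 : (p : ℤ) ∣ -7 - k * k := by
        rw [← ZMod.intCast_zmod_eq_zero_iff_dvd _ p]
        push_cast
        rw [ha]
        ring
      obtain ⟨t, ht⟩ := h2
      have h3 := sq_lift v e2 (m := -7) (y := (k : 𝓞 K)) (by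
        have e : ((-7 : ℤ) : 𝓞 K) - (k : 𝓞 K) * (k : 𝓞 K) = (p : 𝓞 K) * (t : 𝓞 K) := by
          have := congrArg (fun z : ℤ => (z : 𝓞 K)) ht
          push_cast at this ⊢
          exact this
        rw [e]
        exact Ideal.mul_mem_right _ _ hv) (val_int_one _ _ (hndv (-7) (by
          rw [dvd_neg]
          exact n7)))
      push_cast at h3
      exact h3
    have h4' : c (WM D) v = 4 := hS D h4 (v.adicCompletion K) Valued.v hle e14 eD h1
    rw [h4']
    refine ⟨by norm_num, ?_⟩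
    rw [show (4 : ℕ) = 2 ^ 2 by norm_num, padicValNat.prime_pow]
  · rw [if_neg hsqr]
    have h1 : ∀ x : v.adicCompletion K, Valued.v x ≤ 1 → Valued.v (x ^ 2 + 7) = 1 := by
      intro x hx
      obtain ⟨b, hb⟩ := approx v x hx
      set β := algebraMap K (v.adicCompletion K) (algebraMap (𝓞 K) K b) with hβ
      have hb1 : Valued.v β ≤ 1 := by
        rw [hβ, valued_cast]
        exact v.valuation_le_one b
      have h1 : Valued.v (β ^ 2 + 7) = 1 := by
        have e : β ^ 2 + 7 = algebraMap K (v.adicCompletion K)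
            (algebraMap (𝓞 K) K (b ^ 2 + 7)) := by
          rw [hβ]
          simp only [map_add, map_pow, map_ofNat]
        rw [e, valued_cast]
        apply val_one
        exact no_sqrt' hpp hp2' hp7' v hv hodd hf hsqr b
      have e : x ^ 2 + 7 = (β ^ 2 + 7) + (x - β) * (x + β) := by ring
      rw [e]
      have h2 : Valued.v ((x - β) * (x + β)) < 1 := by
        rw [map_mul]
        have h3 : Valued.v (x + β) ≤ 1 := (Valuation.map_add _ _ _).trans (max_le hx hb1)
        calc Valued.v (x - β) * Valued.v (x + β) ≤ Valued.v (x - β) * 1 :=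
              mul_le_mul_right h3 _
          _ < 1 := by rw [mul_one]; exact hb
      rw [Valuation.map_add_eq_of_lt_left _ (by rw [h1]; exact h2), h1]
    have h4' : c (WM D) v = 2 := hI D h4 (v.adicCompletion K) Valued.v hle e14 eD h1
    rw [h4']
    exact ⟨by norm_num, by simp⟩

lemma fin_above (p : ℕ) (hp : p ≠ 0) :
    {v : HeightOneSpectrum (𝓞 K) | ((p : ℕ) : 𝓞 K) ∈ v.asIdeal}.Finite := by
  have h1 : (Ideal.span {((p : ℕ) : 𝓞 K)}) ≠ 0 := by
    intro h
    have h2 : ((p : ℕ) : 𝓞 K) = 0 := Ideal.span_singleton_eq_bot.1 h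
    exact hp (by exact_mod_cast h2)
  refine (Ideal.finite_factors h1).subset ?_
  intro v hv
  exact (Ideal.dvd_span_singleton).2 hv

/-- the places above `p` -/
noncomputable def Ab (K : Type) [Field K] [NumberField K] (p : ℕ) (hp : p ≠ 0) :
    Finset (HeightOneSpectrum (𝓞 K)) := (fin_above (K := K) p hp).toFinset

lemma mem_Ab {p : ℕ} {hp : p ≠ 0} {v : HeightOneSpectrum (𝓞 K)} :
    v ∈ Ab K p hp ↔ ((p : ℕ) : 𝓞 K) ∈ v.asIdeal := by
  unfold Ab
  rw [Set.Finite.mem_toFinset]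
  rfl

include hsq h4 hcop in
/-- **the product of the Tamagawa numbers** -/
theorem tam_gen (hG : S_TG) (h7 : S_T7) (h2 : S_T2) (hI : S_TI) (hS : S_TS)
    (hp2 : (Ideal.span {((2 : ℕ) : 𝓞 K)}).IsPrime) (hp7 : (Ideal.span {((7 : ℕ) : 𝓞 K)}).IsPrime)
    (hpl : ∀ p : ℕ, p.Prime → (p : ℤ) ∣ D → ∀ v : HeightOneSpectrum (𝓞 K),
      ((p : ℕ) : 𝓞 K) ∈ v.asIdeal → v.valuation K ((p : ℕ) : K) = exp (-1 : ℤ) ∧
        ∃ f : ℕ, Odd f ∧ Ideal.absNorm v.asIdeal = p ^ f) :
    {v : HeightOneSpectrum (𝓞 K) | c (WM D) v ≠ 1}.Finite ∧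
    padicValNat 2 (Tam K (WM D)) = 1 + ∑ p ∈ D.natAbs.primeFactors,
      {v : HeightOneSpectrum (𝓞 K) | ((p : ℕ) : 𝓞 K) ∈ v.asIdeal}.ncard *
        (if IsSquare (-7 : ZMod p) then 2 else 1) := by
  have hD0 : D ≠ 0 := hsq.ne_zero
  have hD0' : D.natAbs ≠ 0 := Int.natAbs_ne_zero.2 hD0
  set s : Finset ℕ := D.natAbs.primeFactors with hs
  set S : Finset ℕ := insert 2 (insert 7 s) with hSdef
  have hSp : ∀ p ∈ S, p.Prime := by
    intro p hp
    rw [hSdef, Finset.mem_insert, Finset.mem_insert] at hp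
    rcases hp with rfl | rfl | hp
    · exact Nat.prime_two
    · norm_num
    · rw [hs, Nat.mem_primeFactors] at hp
      exact hp.1
  have hcopp : ∀ p ∈ s, p ≠ 2 ∧ p ≠ 7 := by
    intro p hp
    rw [hs, Nat.mem_primeFactors] at hp
    constructor
    · rintro rfl
      have := Nat.Coprime.eq_one_of_dvd (Nat.Coprime.coprime_dvd_left hp.2.1 hcop) (by norm_num)
      omega
    · rintro rfl
      have := Nat.Coprime.eq_one_of_dvd (Nat.Coprime.coprime_dvd_left hp.2.1 hcop) (by norm_num)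
      omega
  let T : ℕ → Finset (HeightOneSpectrum (𝓞 K)) := fun p =>
    if hp : p ≠ 0 then Ab K p hp else ∅
  have hT : ∀ p ∈ S, ∀ v, v ∈ T p ↔ ((p : ℕ) : 𝓞 K) ∈ v.asIdeal := by
    intro p hp v
    show v ∈ (if hp : p ≠ 0 then Ab K p hp else ∅) ↔ _
    rw [dif_pos (hSp p hp).ne_zero, mem_Ab]
  have hndv : ∀ p ∈ S, ∀ v ∈ T p, ∀ m : ℤ, ¬ (p : ℤ) ∣ m → (m : 𝓞 K) ∉ v.asIdeal :=
    fun p hp v hv m hm => not_mem_of_not_dvd (hSp p hp) v ((hT p hp v).1 hv) m hm
  have h7D : ¬ ((7 : ℕ) : ℤ) ∣ D := by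
    intro h
    have h1 : 7 ∈ s := by
      rw [hs, Nat.mem_primeFactors]
      exact ⟨by norm_num, Int.natCast_dvd.1 h, hD0'⟩
    exact (hcopp 7 h1).2 rfl
  have hdisj : Set.PairwiseDisjoint (S : Set ℕ) T := by
    intro p hp q hq hne
    rw [Function.onFun, Finset.disjoint_left]
    intro v hv hv'
    refine hndv q hq v hv' p ?_ (by
      have := (hT p hp v).1 hv
      exact_mod_cast this)
    intro h
    have h2 : q ∣ p := by exact_mod_cast h
    exact hne ((Nat.prime_dvd_prime_iff_eq (hSp q hq) (hSp p hp)).1 h2).symm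
  -- the index at the good places
  have hgood : ∀ v : HeightOneSpectrum (𝓞 K), (∀ p ∈ S, v ∉ T p) → c (WM D) v = 1 := by
    intro v hv
    have hn : ∀ p ∈ S, ((p : ℕ) : 𝓞 K) ∉ v.asIdeal := fun p hp h => hv p hp ((hT p hp v).2 h)
    have n2 := hn 2 (by rw [hSdef]; simp)
    have n7 := hn 7 (by rw [hSdef]; simp)
    have n14 : ((14 : ℤ) : 𝓞 K) ∉ v.asIdeal := by
      have e : ((14 : ℤ) : 𝓞 K) = ((2 : ℕ) : 𝓞 K) * ((7 : ℕ) : 𝓞 K) := by
        push_cast
        norm_num
      rw [e]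
      intro h
      rcases v.isPrime.mem_or_mem h with h | h
      · exact n2 h
      · exact n7 h
    have nD : ((D : ℤ) : 𝓞 K) ∉ v.asIdeal := by
      intro h
      have h1 : ((D.natAbs : ℕ) : 𝓞 K) ∈ v.asIdeal := by
        have e1 : ((D.natAbs : ℕ) : 𝓞 K) = ((D.natAbs : ℤ) : 𝓞 K) := (Int.cast_natCast _).symm
        rcases Int.natAbs_eq D with e | e
        · rw [e1, ← e]
          exact h
        · have e2 : (D.natAbs : ℤ) = -D := by omega
          rw [e1, e2, Int.cast_neg]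
          exact neg_mem h
      rw [← Nat.prod_primeFactors_of_squarefree (Int.squarefree_natAbs.2 hsq), Nat.cast_prod,
        Ideal.IsPrime.prod_mem_iff] at h1
      obtain ⟨p, hp, hpv⟩ := h1
      exact hn p (by rw [hSdef]; exact Finset.mem_insert_of_mem (Finset.mem_insert_of_mem hp)) hpv
    exact c_good h4 hG v n14 nD
  have m2 : 2 ∈ S := by rw [hSdef]; simp
  have m7 : 7 ∈ S := by rw [hSdef]; simp
  have hT2 : T 2 = {plc 2 two_ne_zero hp2} := by
    ext v
    rw [hT 2 m2 v, Finset.mem_singleton]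
    constructor
    · intro h
      exact eq_plc 2 _ _ v h
    · rintro rfl
      exact mem_plc _ _ _
  have hT7 : T 7 = {plc 7 (by norm_num) hp7} := by
    ext v
    rw [hT 7 m7 v, Finset.mem_singleton]
    constructor
    · intro h
      exact eq_plc 7 _ _ v h
    · rintro rfl
      exact mem_plc _ _ _
  have hc2 := c_two (K := K) h4 h2 (plc 2 two_ne_zero hp2) (plc_val 2 two_ne_zero hp2)
  have hc7 := c_seven (K := K) h4 h7 (plc 7 (by norm_num) hp7) (plc_val 7 (by norm_num) hp7)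
    (not_mem_of_not_dvd (by norm_num : (7 : ℕ).Prime) _ (mem_plc _ _ _) D h7D)
  have hcp : ∀ p ∈ s, ∀ v ∈ T p, c (WM D) v ≠ 0 ∧
      padicValNat 2 (c (WM D) v) = (if IsSquare (-7 : ZMod p) then 2 else 1) := by
    intro p hp v hv
    have hm : p ∈ S := by rw [hSdef]; exact Finset.mem_insert_of_mem (Finset.mem_insert_of_mem hp)
    obtain ⟨hp2', hp7'⟩ := hcopp p hp
    have hpd : (p : ℤ) ∣ D := by
      rw [hs, Nat.mem_primeFactors] at hp
      exact Int.natCast_dvd.2 hp.2.1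
    obtain ⟨h1, f, hf1, hf2⟩ := hpl p (hSp p hm) hpd v ((hT p hm v).1 hv)
    exact c_twist hsq h4 hI hS v (hSp p hm) hp2' hp7' hpd ((hT p hm v).1 hv) h1 hf1 hf2
  have hsub : {v : HeightOneSpectrum (𝓞 K) | c (WM D) v ≠ 1} ⊆
      ((S.biUnion T : Finset (HeightOneSpectrum (𝓞 K))) : Set (HeightOneSpectrum (𝓞 K))) := by
    intro v hv
    by_contra hcon
    apply hv
    apply hgood
    intro p hp h
    apply hcon
    rw [Finset.mem_coe, Finset.mem_biUnion]
    exact ⟨p, hp, h⟩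
  refine ⟨(Finset.finite_toSet _).subset hsub, ?_⟩
  have hn2 : (2 : ℕ) ∉ insert 7 s := by
    rw [Finset.mem_insert, not_or]
    exact ⟨by norm_num, fun h => (hcopp 2 h).1 rfl⟩
  have hn7 : (7 : ℕ) ∉ s := fun h => (hcopp 7 h).2 rfl
  have hall : ∀ v ∈ S.biUnion T, c (WM D) v ≠ 0 := by
    intro v hv
    rw [Finset.mem_biUnion] at hv
    obtain ⟨p, hp, hv⟩ := hv
    rw [hSdef, Finset.mem_insert, Finset.mem_insert] at hp
    rcases hp with rfl | rfl | hp
    · rw [hT2, Finset.mem_singleton] at hv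
      rw [hv]
      exact hc2.1
    · rw [hT7, Finset.mem_singleton] at hv
      rw [hv]
      exact hc7.1
    · exact (hcp p hp v hv).1
  unfold Tam
  rw [finprod_eq_prod_of_mulSupport_subset _ hsub, padic_prod _ _ hall,
    Finset.sum_biUnion hdisj, hSdef, Finset.sum_insert hn2, Finset.sum_insert hn7, hT2, hT7,
    Finset.sum_singleton, Finset.sum_singleton, hc2.2, hc7.2, zero_add]
  congr 1
  refine Finset.sum_congr rfl fun p hp => ?_
  have hm : p ∈ S := by rw [hSdef]; exact Finset.mem_insert_of_mem (Finset.mem_insert_of_mem hp)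
  rw [Finset.sum_congr rfl fun v hv => (hcp p hp v hv).2, Finset.sum_const, smul_eq_mul]
  congr 1
  rw [← Set.ncard_coe_finset]
  congr 1
  ext v
  exact hT p hm v

end

end Pool.Agent.Helper891_XS
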