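import Mathlib
import Pool.Agent.Helper891_XS.Dc

/-!
# The primes of the subfields of a cyclotomic field that do not divide the conductor
-/

set_option autoImplicit false

open NumberField IsDedekindDomain WithZero

namespace Pool.Agent.Helper891_XS

/-- unramified primes -/
lemma disc_ndvd {q : ℕ} [NeZero q] {C : Type} [Field C] [NumberField C]
    [IsCyclotomicExtension {q} ℚ C] (K : IntermediateField ℚ C) {p : ℕ} (hp : p.Prime)
    (hpq : ¬ p ∣ q) : ¬ (p : ℤ) ∣ discr K := by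
  intro h
  have h1 : discr K ∣ discr C := discr_dvd_discr K C
  have h2 : (discr C).natAbs ∣ q ^ q.totient := by
    rw [IsCyclotomicExtension.Rat.natAbs_discr q C]
    exact Nat.div_dvd_of_dvd (Nat.prod_primeFactors_pow_totient_ediv_dvd (NeZero.pos _))
  have h3 : p ∣ (discr C).natAbs := Int.natCast_dvd.1 (h.trans h1)
  exact hpq (hp.dvd_of_dvd_pow (h3.trans h2))

section

variable {K : Type} [Field K] [NumberField K]

/-- the valuation of an unramified prime -/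
lemma val_unram {p : ℕ} (hp : p.Prime) (hd : ¬ (p : ℤ) ∣ discr K) (v : HeightOneSpectrum (𝓞 K))
    (hv : ((p : ℕ) : 𝓞 K) ∈ v.asIdeal) : v.valuation K ((p : ℕ) : K) = exp (-1 : ℤ) := by
  have hpi : Prime (p : ℤ) := Nat.prime_iff_prime_int.1 hp
  have hv' : ((p : ℤ) : 𝓞 K) ∈ v.asIdeal := by exact_mod_cast hv
  have hun : Algebra.IsUnramifiedAt ℤ v.asIdeal :=
    (not_dvd_discr_iff_forall_mem K (𝓞 K) hpi).1 hd v.asIdeal v.isPrime hv'
  have hlo : v.asIdeal.LiesOver (Ideal.span {(p : ℤ)}) :=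
    (Ideal.liesOver_span_iff v.isPrime.ne_top hpi).2 (by
      rw [eq_intCast]
      exact hv')
  have hpr : (Ideal.span {(p : ℤ)}).IsPrime :=
    (Ideal.span_singleton_prime hpi.ne_zero).2 hpi
  let v₀ : HeightOneSpectrum ℤ := ⟨Ideal.span {(p : ℤ)}, hpr, by
    rw [Ne, Ideal.span_singleton_eq_bot]
    exact hpi.ne_zero⟩
  have hlo' : v.asIdeal.LiesOver v₀.asIdeal := hlo
  let := Localization.AtPrime.algebraOfLiesOver (Ideal.span {(p : ℤ)}) v.asIdeal
  obtain ⟨-, h1⟩ := (Algebra.isUnramifiedAt_iff_map_eq ℤ (Ideal.span {(p : ℤ)}) v.asIdeal).1 hun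
  have h2 : (Ideal.span {(p : ℤ)}).ramificationIdx' v.asIdeal = 1 :=
    (Ideal.IsDedekindDomain.ramificationIdx'_eq_one_iff v.ne_bot
      (Ideal.map_le_iff_le_comap.2 hlo.over.le)).2 h1
  have h3 := HeightOneSpectrum.valuation_liesOver (K := ℚ) K v₀ v (p : ℚ)
  have h4 : v₀.asIdeal.ramificationIdx' v.asIdeal = 1 := h2
  rw [h4, pow_one] at h3
  have h5 : v₀.valuation ℚ (p : ℚ) = exp (-1 : ℤ) := by
    have h6 : (p : ℚ) = algebraMap ℤ ℚ (p : ℤ) := by simp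
    rw [h6, v₀.valuation_of_algebraMap]
    exact v₀.intValuation_singleton hpi.ne_zero rfl
  rw [h5] at h3
  rw [h3]
  congr 1
  simp

/-- the residue degree in a Galois extension of odd degree -/
lemma deg_odd [IsGalois ℚ K] (hodd : Odd (Module.finrank ℚ K)) {p : ℕ} (hp : p.Prime)
    (v : HeightOneSpectrum (𝓞 K)) (hv : ((p : ℕ) : 𝓞 K) ∈ v.asIdeal) :
    ∃ f : ℕ, Odd f ∧ Ideal.absNorm v.asIdeal = p ^ f := by
  have hpi : Prime (p : ℤ) := Nat.prime_iff_prime_int.1 hp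
  have hv' : ((p : ℤ) : 𝓞 K) ∈ v.asIdeal := by exact_mod_cast hv
  have hlo : v.asIdeal.LiesOver (Ideal.span {(p : ℤ)}) :=
    (Ideal.liesOver_span_iff v.isPrime.ne_top hpi).2 (by
      rw [eq_intCast]
      exact hv')
  have hpr : (Ideal.span {(p : ℤ)}).IsPrime :=
    (Ideal.span_singleton_prime hpi.ne_zero).2 hpi
  have h1 := Ideal.ncard_primesOver_mul_ramificationIdxIn_mul_inertiaDegIn
    (Ideal.span {(p : ℤ)}) (𝓞 K) (K ≃ₐ[ℚ] K)
  rw [Ideal.inertiaDegIn_eq_inertiaDeg (Ideal.span {(p : ℤ)}) v.asIdeal (K ≃ₐ[ℚ] K),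
    IsGalois.card_aut_eq_finrank] at h1
  refine ⟨v.asIdeal.inertiaDeg ℤ, ?_, (Ideal.pow_inertiaDeg p v.asIdeal).symm⟩
  rw [← h1] at hodd
  exact (Nat.odd_mul.1 (Nat.odd_mul.1 hodd).2).2

end

section

variable {F K : Type} [Field F] [NumberField F] [Field K] [NumberField K] [Algebra F K]
  [IsGalois F K]

/-- **the number of the places above a prime** -/
theorem card_above {p : ℕ} (hp : p ≠ 0)
    (hfr : ∀ γ : K ≃ₐ[F] K, ∀ v : HeightOneSpectrum (𝓞 K), (p : 𝓞 K) ∈ v.asIdeal →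
        ∀ x, v.valuation K (γ x) = v.valuation K x) :
    {v : HeightOneSpectrum (𝓞 K) | ((p : ℕ) : 𝓞 K) ∈ v.asIdeal}.ncard =
      {v : HeightOneSpectrum (𝓞 F) | ((p : ℕ) : 𝓞 F) ∈ v.asIdeal}.ncard := by
  have hmem : ∀ v : HeightOneSpectrum (𝓞 K), ((p : ℕ) : 𝓞 F) ∈ (v.under (𝓞 F)).asIdeal ↔
      ((p : ℕ) : 𝓞 K) ∈ v.asIdeal := by
    intro v
    show algebraMap (𝓞 F) (𝓞 K) ((p : ℕ) : 𝓞 F) ∈ v.asIdeal ↔ _
    rw [map_natCast]
  refine Set.ncard_congr (fun v _ => v.under (𝓞 F)) (fun v hv => (hmem v).2 hv) ?_ ?_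
  · intro v w hv hw h
    have h1 : v.asIdeal.under (𝓞 F) = w.asIdeal.under (𝓞 F) :=
      congrArg HeightOneSpectrum.asIdeal h
    obtain ⟨γ, hγ⟩ := Algebra.IsInvariant.exists_smul_of_under_eq (𝓞 F) (𝓞 K) (K ≃ₐ[F] K)
      v.asIdeal w.asIdeal h1
    apply HeightOneSpectrum.ext
    have hp1 := v.isPrime
    have hle : w.asIdeal ≤ v.asIdeal := by
      intro x hx
      rw [hγ, Ideal.mem_pointwise_smul_iff_inv_smul_mem] at hx
      have h2 : v.valuation K (γ⁻¹ (algebraMap (𝓞 K) K x)) < 1 :=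
        (v.valuation_lt_one_iff_mem (K := K) (γ⁻¹ • x)).2 hx
      rw [hfr γ⁻¹ v hv] at h2
      exact (v.valuation_lt_one_iff_mem (K := K) x).1 h2
    exact (w.isMaximal.eq_of_le v.isPrime.ne_top hle).symm
  · intro w hw
    have hw1 := w.isPrime
    obtain ⟨Q, -, hQ, hQw⟩ := Ideal.exists_ideal_over_prime_of_isIntegral w.asIdeal
      (⊥ : Ideal (𝓞 K)) (by
        have h1 : Ideal.comap (algebraMap (𝓞 F) (𝓞 K)) ⊥ = ⊥ := by
          rw [← RingHom.ker_eq_comap_bot]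
          exact (RingHom.injective_iff_ker_eq_bot _).1
            (FaithfulSMul.algebraMap_injective (𝓞 F) (𝓞 K))
        rw [h1]
        exact bot_le)
    have hQ0 : Q ≠ ⊥ := by
      rintro rfl
      apply w.ne_bot
      rw [← hQw, ← RingHom.ker_eq_comap_bot]
      exact (RingHom.injective_iff_ker_eq_bot _).1
        (FaithfulSMul.algebraMap_injective (𝓞 F) (𝓞 K))
    let v : HeightOneSpectrum (𝓞 K) := ⟨Q, hQ, hQ0⟩
    have hvw : v.under (𝓞 F) = w := HeightOneSpectrum.ext hQw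
    refine ⟨v, ?_, hvw⟩
    rw [Set.mem_ofPred_eq, ← hmem v, hvw]
    exact hw

end

end Pool.Agent.Helper891_XS
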