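import Pool.Agent.Helper891_XS.Sf
import Pool.Agent.Helper891_XS.An
import Pool.Agent.Helper891_XS.Dc
import Pool.Agent.Helper891_XS.Tm
import Pool.Agent.Helper891_XS.Mn
import Pool.Agent.Helper891_XS.Ub
import Pool.Agent.Helper891_XS.Ht
import Pool.Agent.Helper891_XR.Xi
import Pool.Agent.Y686.XF.Reg
import Pool.Agent.Y682.XF.Uniq

/-!
# The main theorem: the twists of `X_0(14)` over `F` and `K`
-/

set_option autoImplicit false

open Finset NumberField NumberField.InfinitePlace IsDedekindDomain WeierstrassCurve MeasureTheory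
  Filter Topology IsCyclotomicExtension.Rat H300.HW

namespace Pool.Agent.Helper891_XS

open scoped Classical

open Pool.Agent.TH841.NF.D (Sha)

open Pool.Agent.W97.MT (ap E14 II)

open Pool.Agent.Y700 (WM)

open Pool.Agent.Y682 (NCl)

open Pool.Agent.Y682.XT Pool.Agent.Y682.XD Pool.Agent.Y682.XF

open Pool.Agent.Helper891_XR

section

variable {F K : Type} [Field F] [NumberField F] [Field K] [NumberField K] [Algebra F K]

/-- inert primes -/
lemma inert_down {p : ℕ} (hp : p ≠ 0) (h : (Ideal.span {((p : ℕ) : 𝓞 K)}).IsPrime) :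
    (Ideal.span {((p : ℕ) : 𝓞 F)}).IsPrime := by
  have h1 : Ideal.span {((p : ℕ) : 𝓞 F)} =
      (Ideal.span {((p : ℕ) : 𝓞 K)}).comap (algebraMap (𝓞 F) (𝓞 K)) := by
    ext x
    rw [Ideal.mem_comap, Ideal.mem_span_singleton, Ideal.mem_span_singleton]
    constructor
    · rintro ⟨y, rfl⟩
      exact ⟨algebraMap (𝓞 F) (𝓞 K) y, by rw [map_mul, map_natCast]⟩
    · rintro ⟨y, hy⟩
      have hpK : ((p : ℕ) : K) ≠ 0 := by exact_mod_cast hp
      have hpF : ((p : ℕ) : F) ≠ 0 := by exact_mod_cast hp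
      have h2 : algebraMap F K (x : F) = (p : K) * (y : K) := by
        have h3 := congrArg (algebraMap (𝓞 K) K) hy
        rw [map_mul, map_natCast] at h3
        exact h3
      have h3 : algebraMap F K ((x : F) / p) = (y : K) := by
        rw [map_div₀, map_natCast, h2]
        field_simp
      have h4 : IsIntegral ℤ ((x : F) / p) := by
        rw [← isIntegral_algebraMap_iff (algebraMap F K).injective, h3]
        exact y.isIntegral_coe
      refine ⟨⟨(x : F) / p, h4⟩, ?_⟩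
      apply RingOfIntegers.ext
      show (x : F) = algebraMap (𝓞 F) F ((p : ℕ) : 𝓞 F) * ((x : F) / p)
      rw [map_natCast]
      field_simp
  rw [h1]
  exact Ideal.IsPrime.comap _

end

section

variable {q : ℕ} [NeZero q] {M : Type} [Field M] [NumberField M] [IsCyclotomicExtension {q} ℚ M]
  {F K : IntermediateField ℚ M}

/-- the automorphisms of `K` over `F` preserve the places above `p` -/
lemma fix_of_frob (hFK : F ≤ K) {p : ℕ} (hp : p.Prime) (_hGal : IsGalois ℚ K)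
    (hfrob : ∀ σ : M ≃ₐ[ℚ] M, (∀ x ∈ F, σ x = x) → FrobPow q p K σ)
    (γ : K ≃+* K) (hγ : ∀ x : K, (x : M) ∈ F → γ x = x) (v : HeightOneSpectrum (𝓞 K))
    (hv : ((p : ℕ) : 𝓞 K) ∈ v.asIdeal) (x : K) : v.valuation K (γ x) = v.valuation K x := by
  have : Fact p.Prime := ⟨hp⟩
  have hM : IsGalois ℚ M := IsCyclotomicExtension.isGalois {q} ℚ M
  let γ' : K ≃ₐ[ℚ] K := AlgEquiv.ofRingEquiv (f := γ) (fun r => by
    rw [eq_ratCast, map_ratCast])
  let τ : M ≃ₐ[ℚ] M := AlgEquiv.liftNormal γ' M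
  have hcomm : ∀ x : K, τ (algebraMap K M x) = algebraMap K M (γ x) := fun x =>
    AlgEquiv.liftNormal_commutes γ' M x
  refine fix_of_norm γ (fun j x => ?_) v hv x
  obtain ⟨j', hj'⟩ := Pool.Agent.Helper891_EG.La.ext_emb (F := K) (algebraMap K M) j
  rw [← hj', ← hj', ← hcomm]
  refine ns_of_frobPow (hfrob τ fun y hy => ?_) j' _ x.2
  have h1 := hcomm ⟨y, hFK hy⟩
  rw [hγ ⟨y, hFK hy⟩ hy] at h1
  exact h1

/-- **the comparison** -/
theorem main_rel (H : Pool.Agent.Y682.XF.Parts) (hq : IsPrimePow q) (hco : q.Coprime 14) (hFK : F ≤ K)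
    (hodd : Odd (Module.finrank ℚ K))
    (hcl : 3 ∣ q ∨ ((Ideal.span {((2 : ℕ) : 𝓞 K)}).IsPrime ∧
      (Ideal.span {((7 : ℕ) : 𝓞 K)}).IsPrime ∧ Odd (Nat.card (NCl K))))
    (D : ℤ) (hDsq : Squarefree D) (hD4 : D % 4 = 1)
    (hDp : ∀ p : ℕ, p.Prime → (p : ℤ) ∣ D → ¬ p ∣ 14 * q ∧
      ((∀ σ : M ≃ₐ[ℚ] M, (∀ x ∈ F, σ x = x) → FrobPow q p K σ) ∨
        (3 ∣ q ∧ ¬ 9 * Module.finrank ℚ F ∣ p ^ 2 - 1))) :
    (∀ v : HeightOneSpectrum (𝓞 K), MinimalAt (WM D) v) ∧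
    (∀ v : HeightOneSpectrum (𝓞 F), MinimalAt (WM D) v) ∧
    {v : HeightOneSpectrum (𝓞 K) | c (WM D) v ≠ 1}.Finite ∧
    {v : HeightOneSpectrum (𝓞 F) | c (WM D) v ≠ 1}.Finite ∧
    rank K (WM D) = rank F (WM D) ∧ Nonempty (Sha2 K (WM D) ≃+ Sha2 F (WM D)) ∧
    ∃ (n : ℕ) (x₀ x : ℂ) (ρ : ℚ), IsAn F (WM D) n x₀ ∧ IsAn K (WM D) n x ∧ x₀ ≠ 0 ∧
      x = ρ * x₀ ∧ ρ ≠ 0 ∧ padicValRat 2 ρ = 0 := by
  -- powers of three
  have hq3 : 3 ∣ q → ∃ n, q = 3 ^ (n + 1) := by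
    intro h3
    obtain ⟨l, k, hl, hk, rfl⟩ := id hq
    have hl' := hl.nat_prime
    have h4 : l = 3 := ((Nat.prime_dvd_prime_iff_eq Nat.prime_three hl').1
      (Nat.prime_three.dvd_of_dvd_pow h3)).symm
    subst h4
    exact ⟨k - 1, by rw [Nat.sub_add_cancel hk]⟩
  -- the field
  obtain ⟨h2, h7, hN⟩ : (Ideal.span {((2 : ℕ) : 𝓞 K)}).IsPrime ∧
      (Ideal.span {((7 : ℕ) : 𝓞 K)}).IsPrime ∧ Odd (Nat.card (NCl K)) := by
    rcases hcl with h3 | h
    · obtain ⟨n, hn⟩ := hq3 h3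
      have key : ∀ (q' : ℕ) [NeZero q'] (M : Type) [Field M] [NumberField M]
          [IsCyclotomicExtension {q'} ℚ M] (n : ℕ), q' = 3 ^ (n + 1) →
          ∀ (K' : IntermediateField ℚ M), Odd (Module.finrank ℚ K') →
          (Ideal.span {((2 : ℕ) : 𝓞 K')}).IsPrime ∧
          (Ideal.span {((7 : ℕ) : 𝓞 K')}).IsPrime ∧ Odd (Nat.card (NCl K')) := by
        intro q' _ M _ _ _ n hn K' hodd'
        subst hn
        exact three_hyp n M K' hodd'
      exact key q M n hn K hodd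
    · exact h
  -- the primes that divide the twist
  have hfrob : ∀ p : ℕ, p.Prime → (p : ℤ) ∣ D → ∀ σ : M ≃ₐ[ℚ] M, (∀ x ∈ F, σ x = x) →
      FrobPow q p K σ := by
    intro p hp hpD
    obtain ⟨h14, h | ⟨h3, h9⟩⟩ := hDp p hp hpD
    · exact h
    · obtain ⟨n, hn⟩ := hq3 h3
      have hp3 : p ≠ 3 := by
        rintro rfl
        exact h14 (dvd_mul_of_dvd_right h3 _)
      have key : ∀ (q' : ℕ) [NeZero q'] (M : Type) [Field M] [NumberField M]
          [IsCyclotomicExtension {q'} ℚ M] (n : ℕ), q' = 3 ^ (n + 1) →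
          ∀ (E' K' : IntermediateField ℚ M), E' ≤ K' → Odd (Module.finrank ℚ K') →
          ¬ 9 * Module.finrank ℚ E' ∣ p ^ 2 - 1 → ∀ σ : M ≃ₐ[ℚ] M, (∀ x ∈ E', σ x = x) →
          FrobPow q' p K' σ := by
        intro q' _ M _ _ _ n hn E' K' hEK' hodd' h9' σ hσ
        subst hn
        exact frob_layer hEK' hodd' hp hp3 h9' σ hσ
      exact key q M n hn F K hFK hodd h9
  have hd0 : D.natAbs ≠ 0 := by omega
  have hz1 : NeZero D.natAbs := ⟨hd0⟩
  have hz2 : NeZero (q * D.natAbs) := ⟨Nat.mul_ne_zero (NeZero.ne q) hd0⟩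
  have hD14 : (D.natAbs).Coprime 14 := by
    refine Nat.coprime_of_dvd ?_
    intro p hp hpd' hp14
    exact (hDp p hp (Int.natCast_dvd.2 hpd')).1 (dvd_mul_of_dvd_left hp14 _)
  obtain ⟨s, t, P, Op, Om, hSy, g2, g3, hP⟩ := exists_syP
  have hypK : HypK s (fun l => ap E14 l) q M K := hypK_of H.apev hSy hq hco hodd h2 h7 hN
  have hgen : ∀ p : ℕ, p.Prime → p ∣ D.natAbs → ¬ p ∣ 14 * q ∧
      ∀ t : (ZMod q)ˣ, (t : ZMod q) = (p : ZMod q) →
        ∀ u ∈ HH q M F, mkG q M K u ∈ Subgroup.zpowers (mkG q M K t) := by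
    intro p hp hpd
    have hpD : (p : ℤ) ∣ D := Int.natCast_dvd.2 hpd
    refine ⟨(hDp p hp hpD).1, fun t ht u hu => ?_⟩
    rw [mem_HH, IntermediateField.mem_fixingSubgroup_iff] at hu
    obtain ⟨φ, hφ, k, hk⟩ := hfrob p hp hpD _ hu
    have h4 := frob_eq hφ ht
    refine ⟨(k : ℤ), ?_⟩
    show mkG q M K t ^ (k : ℤ) = mkG q M K u
    rw [zpow_natCast, ← map_pow, mkG_eq, mem_HH, map_mul, map_inv, map_pow, ← h4,
      IntermediateField.mem_fixingSubgroup_iff]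
    intro x hx
    rw [AlgEquiv.mul_apply, hk x hx, ← AlgEquiv.mul_apply, inv_mul_cancel, AlgEquiv.one_apply]
  obtain ⟨G₀, Pr, hG₀, hPr, htop, hE0, hE, ρ₁, hρ₁, hρ₁v, hval⟩ :=
    ana_rel (L := M) (K := K) Pool.Agent.Y884.XT.s_lk H.nz H.lkd H.kd H.hecke H.prim
      hSy hypK hq hDsq hD4 rfl hFK hgen
  obtain ⟨n, l, hn, hl, hlim, hlz⟩ := lead hG₀ htop
  -- the fields are totally real
  obtain ⟨φ, -⟩ := exists_phi q M
  have hreal : ∀ w : InfinitePlace K, w.IsReal := real_place (φ := φ) hypK.hre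
  have hcplx : nrComplexPlaces K = 0 := nr_real (φ := φ) hypK.hre
  have hrp : nrRealPlaces K = Module.finrank ℚ K := by
    have := card_add_two_mul_card_eq_rank K
    rw [← this, hcplx, mul_zero, add_zero]
  have hreF : IsRe q M F := HH_le hFK hypK.hre
  have hcplxF : nrComplexPlaces F = 0 := nr_real (φ := φ) hreF
  have hrpF : nrRealPlaces F = Module.finrank ℚ F := by
    have := card_add_two_mul_card_eq_rank F
    rw [← this, hcplxF, mul_zero, add_zero]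
  -- the period
  set w : ℝ := 2 * (if 0 < D then Op else Om) / √|(D : ℝ)| with hw
  have hDR : (D : ℝ) ≠ 0 := by
    have : D ≠ 0 := by omega
    exact_mod_cast this
  have hsD : 0 < √|(D : ℝ)| := Real.sqrt_pos.2 (abs_pos.2 hDR)
  have hw0 : 0 < w := by
    rw [hw]
    refine div_pos (mul_pos two_pos ?_) hsD
    split_ifs
    · exact hSy.pos
    · exact hSy.pos'
  have hper : realPeriod (WM D) = w := H.perd P Op Om hSy.pos hSy.pos' g2 g3 hP D hD4
  have hOK : Omega K (WM D) = w ^ Module.finrank ℚ K := by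
    unfold Omega
    rw [hper, hcplx, hrp, pow_zero, mul_one]
  have hOF : Omega F (WM D) = w ^ Module.finrank ℚ F := by
    unfold Omega
    rw [hper, hcplxF, hrpF, pow_zero, mul_one]
  -- the curve
  have hΔ : (WM D).Δ ≠ 0 := by
    intro h0
    apply wm_disc_ne ℚ hD4
    rw [WeierstrassCurve.map_Δ, h0, map_zero]
  have hab : IsAbelianGalois ℚ M := IsCyclotomicExtension.isAbelianGalois {q} ℚ M
  have hGal : IsGalois ℚ K :=
    @IsAbelianGalois.toIsGalois ℚ K _ _ (IntermediateField.algebra' K) inferInstance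
  have hGalF : IsGalois ℚ F :=
    @IsAbelianGalois.toIsGalois ℚ F _ _ (IntermediateField.algebra' F) inferInstance
  let iFK : Algebra F K := (IntermediateField.inclusion hFK).toRingHom.toAlgebra
  have iT : IsScalarTower ℚ F K := IsScalarTower.of_algebraMap_eq fun x => rfl
  have hGalFK : IsGalois F K := IsGalois.tower_top_of_isGalois ℚ F K
  have hmul : Module.finrank ℚ F * Module.finrank F K = Module.finrank ℚ K :=
    Module.finrank_mul_finrank ℚ F K
  have hoddF : Odd (Module.finrank ℚ F) := by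
    rw [← hmul] at hodd
    exact (Nat.odd_mul.1 hodd).1
  have hoddFK : Odd (Module.finrank F K) := by
    rw [← hmul] at hodd
    exact (Nat.odd_mul.1 hodd).2
  have h2F : (Ideal.span {((2 : ℕ) : 𝓞 F)}).IsPrime := inert_down (K := K) two_ne_zero h2
  have h7F : (Ideal.span {((7 : ℕ) : 𝓞 F)}).IsPrime := inert_down (K := K) (by norm_num) h7
  have hfr : ∀ γ : K ≃+* K, (∀ x : F, γ (algebraMap F K x) = algebraMap F K x) →
      ∀ p : ℕ, p.Prime → (p : ℤ) ∣ D → ∀ v : HeightOneSpectrum (𝓞 K), (p : 𝓞 K) ∈ v.asIdeal →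
        ∀ x, v.valuation K (γ x) = v.valuation K x := by
    intro γ hγ p hp hpD v hv x
    exact fix_of_frob hFK hp hGal (hfrob p hp hpD) γ (fun x hx => hγ ⟨x, hx⟩) v hv x
  obtain ⟨hrk, hsha⟩ : rank K (WM D) = rank F (WM D) ∧
      Nonempty (Sha2 K (WM D) ≃+ Sha2 F (WM D)) := by
    have hgal' : @IsGalois ℚ _ K _ DivisionRing.toRatAlgebra := by
      convert hGal
    have hodd' : Odd (@Module.finrank ℚ K _ _
        (DivisionRing.toRatAlgebra (R := K)).toModule) := by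
      convert hodd
    exact dsc_rel (hgal := hgal') hD4 F K (algebraMap F K) hreal hN hodd' h2 h7 hfr
  -- the primes of the twist
  have hplK : ∀ p : ℕ, p.Prime → (p : ℤ) ∣ D → ∀ v : HeightOneSpectrum (𝓞 K),
      ((p : ℕ) : 𝓞 K) ∈ v.asIdeal → v.valuation K ((p : ℕ) : K) = WithZero.exp (-1 : ℤ) ∧
        ∃ f : ℕ, Odd f ∧ Ideal.absNorm v.asIdeal = p ^ f := by
    intro p hp hpD v hv
    have hpq : ¬ p ∣ q := fun h => (hDp p hp hpD).1 (dvd_mul_of_dvd_right h _)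
    refine ⟨val_unram hp (disc_ndvd K hp hpq) v hv, ?_⟩
    have hgal' : @IsGalois ℚ _ K _ DivisionRing.toRatAlgebra := by
      convert hGal
    have hodd' : Odd (@Module.finrank ℚ K _ _
        (DivisionRing.toRatAlgebra (R := K)).toModule) := by
      convert hodd
    exact @deg_odd K _ _ hgal' hodd' p hp v hv
  have hplF : ∀ p : ℕ, p.Prime → (p : ℤ) ∣ D → ∀ v : HeightOneSpectrum (𝓞 F),
      ((p : ℕ) : 𝓞 F) ∈ v.asIdeal → v.valuation F ((p : ℕ) : F) = WithZero.exp (-1 : ℤ) ∧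
        ∃ f : ℕ, Odd f ∧ Ideal.absNorm v.asIdeal = p ^ f := by
    intro p hp hpD v hv
    have hpq : ¬ p ∣ q := fun h => (hDp p hp hpD).1 (dvd_mul_of_dvd_right h _)
    refine ⟨val_unram hp (disc_ndvd F hp hpq) v hv, ?_⟩
    have hgal' : @IsGalois ℚ _ F _ DivisionRing.toRatAlgebra := by
      convert hGalF
    have hodd' : Odd (@Module.finrank ℚ F _ _
        (DivisionRing.toRatAlgebra (R := F)).toModule) := by
      convert hoddF
    exact @deg_odd F _ _ hgal' hodd' p hp v hv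
  obtain ⟨hTf, hTv⟩ := tam_gen (K := K) hDsq hD4 hD14 H.tg H.t7 H.t2 H.ti H.ts h2 h7 hplK
  obtain ⟨hTf', hTv'⟩ := tam_gen (K := F) hDsq hD4 hD14 H.tg H.t7 H.t2 H.ti H.ts h2F h7F hplF
  have hTT : padicValNat 2 (Tam F (WM D)) = padicValNat 2 (Tam K (WM D)) := by
    rw [hTv, hTv']
    congr 1
    refine Finset.sum_congr rfl fun p hp => ?_
    have hpp := Nat.prime_of_mem_primeFactors hp
    have hpD : (p : ℤ) ∣ D := Int.natCast_dvd.2 (Nat.dvd_of_mem_primeFactors hp)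
    rw [card_above (F := F) (K := K) hpp.ne_zero fun γ v hv x =>
      hfr (γ : K ≃+* K) (fun y => γ.commutes y) p hpp hpD v hv x]
  have hT0 : Tam K (WM D) ≠ 0 := by
    intro h0
    rw [h0, show padicValNat 2 0 = 0 by simp] at hTv
    omega
  have hT0' : Tam F (WM D) ≠ 0 := by
    intro h0
    rw [h0, show padicValNat 2 0 = 0 by simp] at hTv'
    omega
  obtain ⟨-, htv⟩ := H.tord D hD4 K (by convert hodd)
  obtain ⟨-, htv'⟩ := H.tord D hD4 F (by convert hoddF)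
  have ht0 : Nat.card (tors K (WM D)) ≠ 0 := by
    intro h0
    rw [h0, show padicValNat 2 0 = 0 by simp] at htv
    omega
  have ht0' : Nat.card (tors F (WM D)) ≠ 0 := by
    intro h0
    rw [h0, show padicValNat 2 0 = 0 by simp] at htv'
    omega
  -- the heights
  obtain ⟨h₀, hh₀, -, -, hb₀, g₀, hg₀⟩ := H.ch F (WM D) hΔ
  obtain ⟨h, hh, hpar, -, hb, g, hg⟩ := H.ch K (WM D) hΔ
  have hR₀ := (hb₀ _ g₀ hg₀).2
  -- a basis over `K` with the same index
  obtain ⟨g', hg'⟩ : ∃ g' : Fin (rank F (WM D)) → (base (WM D) K).toAffine.Point,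
      IsBasis K (WM D) g' := by
    rw [← hrk]
    exact ⟨g, hg⟩
  have hR := (hb _ g' hg').2
  obtain ⟨j, hj, hjR⟩ := Pool.Agent.Y686.XF.reg_gen F K (WM D) (fun x => logHeight_rel x) hoddFK
    h₀ h hh₀ hh hpar (rank F (WM D)) g₀ g' hg₀ hg'
  -- the discriminants
  have hqo : Odd q := hypK.hq
  obtain ⟨mK, hmK, hdK⟩ := disc_form hqo K hodd
  obtain ⟨mF, hmF, hdF⟩ := disc_form hqo F hoddF
  -- the numbers
  set N := Module.finrank ℚ K with hNdef
  set N₀ := Module.finrank ℚ F with hN₀def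
  set m := Module.finrank F K with hmdef
  set T := Tam K (WM D) with hT
  set T₀ := Tam F (WM D) with hT₀
  set tt := Nat.card (tors K (WM D)) with htt
  set t₀ := Nat.card (tors F (WM D)) with ht₀
  set R := reg K (WM D) h g' with hRdef
  set R₀ := reg F (WM D) h₀ g₀ with hR₀def
  have hN0 : N ≠ 0 := by
    intro h0
    rw [h0] at hodd
    exact absurd hodd (by decide)
  have hm0 : m ≠ 0 := by
    intro h0
    rw [h0] at hoddFK
    exact absurd hoddFK (by decide)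
  have hj0 : j ≠ 0 := by
    intro h0
    rw [h0] at hj
    exact absurd hj (by decide)
  have hmK0 : mK ≠ 0 := by
    intro h0
    rw [h0] at hmK
    exact absurd hmK (by decide)
  have hmF0 : mF ≠ 0 := by
    intro h0
    rw [h0] at hmF
    exact absurd hmF (by decide)
  have hNN : N₀ ≤ N := by
    rw [← hmul]
    exact Nat.le_mul_of_pos_right _ (Nat.pos_of_ne_zero hm0)
  have hx₀ : l * ((√|(discr F : ℝ)| : ℝ) : ℂ) * (t₀ : ℂ) ^ 2 /
      (((R₀ * Omega F (WM D) * T₀ : ℝ)) : ℂ) ≠ 0 := by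
    rw [hdF, hOF]
    refine div_ne_zero (mul_ne_zero (mul_ne_zero hl (by exact_mod_cast hmF0))
      (pow_ne_zero _ (Nat.cast_ne_zero.2 ht0'))) ?_
    have : R₀ * w ^ N₀ * T₀ ≠ 0 :=
      mul_ne_zero (mul_ne_zero hR₀.ne' (pow_pos hw0 _).ne') (by exact_mod_cast hT0')
    exact_mod_cast this
  refine ⟨mind_gen hDsq hD4 hD14 (fun p hp hpD v hv => (hplK p hp hpD v hv).1),
    mind_gen hDsq hD4 hD14 (fun p hp hpD v hv => (hplF p hp hpD v hv).1), hTf, hTf', hrk, hsha, n,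
    l * ((√|(discr F : ℝ)| : ℝ) : ℂ) * (t₀ : ℂ) ^ 2 /
      (((R₀ * Omega F (WM D) * T₀ : ℝ)) : ℂ),
    (l * Pr 1) * ((√|(discr K : ℝ)| : ℝ) : ℂ) * (tt : ℂ) ^ 2 /
      (((R * Omega K (WM D) * T : ℝ)) : ℂ),
    ρ₁ * ((mK : ℚ) / mF) * ((tt : ℚ) / t₀) ^ 2 *
      ((j : ℚ) ^ 2 / (m : ℚ) ^ rank F (WM D)) * ((T₀ : ℚ) / T),
    ⟨G₀, l, h₀, rank F (WM D), g₀, hG₀, hE0, hn, hlim, hh₀, hg₀, hR₀,
      by rw [hOF]; exact pow_pos hw0 _,
      Nat.pos_of_ne_zero hT0', Nat.pos_of_ne_zero ht0', rfl⟩,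
    ⟨fun z => G₀ z * Pr z, l * Pr 1, h, rank F (WM D), g', hG₀.mul hPr, hE, ?_, ?_, hh, hg', hR,
      by rw [hOK]; exact pow_pos hw0 _, Nat.pos_of_ne_zero hT0, Nat.pos_of_ne_zero ht0, rfl⟩,
    hx₀, ?_, ?_, ?_⟩
  · -- the order
    have hP1 : Pr 1 ≠ 0 := by
      intro h0
      rw [h0] at hval
      have h3 : (ρ₁ : ℂ) ≠ 0 := Rat.cast_ne_zero.2 hρ₁
      have h4 : ((w ^ (N - N₀) : ℝ) : ℂ) ≠ 0 := by exact_mod_cast (pow_pos hw0 _).ne'
      exact mul_ne_zero h3 h4 hval.symm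
    have h3 : analyticOrderAt (fun z => G₀ z * Pr z) 1 =
        analyticOrderAt G₀ 1 + analyticOrderAt Pr 1 :=
      analyticOrderAt_mul (hG₀.analyticAt 1) (hPr.analyticAt 1)
    have h4 : analyticOrderAt Pr 1 = 0 := analyticOrderAt_eq_zero.2 (Or.inr hP1)
    rw [h3, h4, add_zero, hn]
  · -- the leading coefficient
    have h3 : Tendsto Pr (𝓝[≠] 1) (𝓝 (Pr 1)) :=
      (hPr.continuous.tendsto 1).mono_left nhdsWithin_le_nhds
    refine (hlim.mul h3).congr fun s => ?_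
    rw [div_mul_eq_mul_div]
  · -- the comparison
    rw [hOK, hOF, hdK, hdF, hval]
    have hwN : w ^ N = w ^ N₀ * w ^ (N - N₀) := by
      rw [← pow_add, Nat.add_sub_cancel' hNN]
    have hjR' : (R : ℂ) * (j : ℂ) ^ 2 = (m : ℂ) ^ rank F (WM D) * (R₀ : ℂ) := by
      exact_mod_cast hjR
    rw [hwN]
    push_cast
    have c1 : (R : ℂ) ≠ 0 := by exact_mod_cast hR.ne'
    have c2 : (R₀ : ℂ) ≠ 0 := by exact_mod_cast hR₀.ne'
    have c3 : (w : ℂ) ≠ 0 := by exact_mod_cast hw0.ne'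
    have c4 : (T : ℂ) ≠ 0 := by exact_mod_cast hT0
    have c5 : (T₀ : ℂ) ≠ 0 := by exact_mod_cast hT0'
    have c6 : (t₀ : ℂ) ≠ 0 := by exact_mod_cast ht0'
    have c7 : (j : ℂ) ≠ 0 := by exact_mod_cast hj0
    have c8 : (m : ℂ) ^ rank F (WM D) ≠ 0 := pow_ne_zero _ (by exact_mod_cast hm0)
    have c9 : (w : ℂ) ^ (N - N₀) ≠ 0 := pow_ne_zero _ c3
    have c10 : (w : ℂ) ^ N₀ ≠ 0 := pow_ne_zero _ c3
    have c11 : (mF : ℂ) ≠ 0 := by exact_mod_cast hmF0
    have e0 : (R : ℂ) = (m : ℂ) ^ rank F (WM D) * (R₀ : ℂ) / (j : ℂ) ^ 2 := by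
      rw [← hjR', mul_div_cancel_right₀ _ (pow_ne_zero 2 c7)]
    rw [e0]
    generalize (m : ℂ) ^ rank F (WM D) = X at c8
    generalize (w : ℂ) ^ (N - N₀) = Y at c9
    generalize (w : ℂ) ^ N₀ = Z at c10
    field_simp
  · -- it is not zero
    refine mul_ne_zero (mul_ne_zero (mul_ne_zero (mul_ne_zero hρ₁ (div_ne_zero ?_ ?_))
      (pow_ne_zero _ (div_ne_zero ?_ ?_))) (div_ne_zero (pow_ne_zero _ ?_) (pow_ne_zero _ ?_)))
      (div_ne_zero ?_ ?_)
    · exact_mod_cast hmK0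
    · exact_mod_cast hmF0
    · exact_mod_cast ht0
    · exact_mod_cast ht0'
    · exact_mod_cast hj0
    · exact_mod_cast hm0
    · exact_mod_cast hT0'
    · exact_mod_cast hT0
  · -- the valuation
    have hfact : Fact (Nat.Prime 2) := ⟨Nat.prime_two⟩
    have c0 : ((mK : ℚ) / mF) ≠ 0 :=
      div_ne_zero (by exact_mod_cast hmK0) (by exact_mod_cast hmF0)
    have c1 : ((tt : ℚ) / t₀) ≠ 0 := div_ne_zero (by exact_mod_cast ht0) (by exact_mod_cast ht0')
    have c2 : (j : ℚ) ^ 2 ≠ 0 := pow_ne_zero _ (by exact_mod_cast hj0)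
    have c3 : (m : ℚ) ^ rank F (WM D) ≠ 0 := pow_ne_zero _ (by exact_mod_cast hm0)
    have c4 : ((T₀ : ℚ) / T) ≠ 0 := div_ne_zero (by exact_mod_cast hT0') (by exact_mod_cast hT0)
    rw [padicValRat.mul (mul_ne_zero (mul_ne_zero (mul_ne_zero hρ₁ c0) (pow_ne_zero _ c1))
        (div_ne_zero c2 c3)) c4,
      padicValRat.mul (mul_ne_zero (mul_ne_zero hρ₁ c0) (pow_ne_zero _ c1)) (div_ne_zero c2 c3),
      padicValRat.mul (mul_ne_zero hρ₁ c0) (pow_ne_zero _ c1), padicValRat.mul hρ₁ c0,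
      padicValRat.pow, padicValRat.div c2 c3,
      padicValRat.pow, padicValRat.pow, padicValRat.of_nat, padicValRat.of_nat,
      val_div_eq ht0 ht0' (htv.trans htv'.symm), val_div_eq hT0' hT0 hTT,
      val_div_eq hmK0 hmF0 ((val_odd hmK).trans (val_odd hmF).symm), hρ₁v,
      val_odd hj, val_odd hoddFK]
    norm_num

end

end Pool.Agent.Helper891_XS
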