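import Mathlib
import Pool.Agent.Helper891_XR.Xd

/-!
# The action of the Galois group of `K / F` on the 2-primary part of the Tate-Shafarevich group
-/

set_option autoImplicit false
set_option linter.unusedSectionVars false

attribute [-instance] DivisionRing.toRatAlgebra

namespace Pool.Agent.Helper891_XS

open WeierstrassCurve NumberField IsDedekindDomain

open Pool.Agent.TH841.NF Pool.Agent.Y682 Pool.Agent.Y65.Sham Pool.Agent.Helper891_XR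

open Pool.Agent.TH841.SH.D (Pt act Gal Coch IsCoc IsCob LocTriv cob)

open Pool.Agent.TH841.SH (IsX isX_zero)

section basic

variable {K : Type} [Field K] [NumberField K] [Algebra ℚ K] {E : WeierstrassCurve ℚ}
  {W : WeierstrassCurve K} (hW : Sc (algebraMap ℚ K) 1 E W) (e : AlgebraicClosure K ≃+* Qb)

/-- cochains whose restriction to `K` is a locally trivial cocycle -/
def SH (c : Gal ℚ → Pt E Qb) : Prop :=
  ∃ f : Coch W, Pool.Agent.TH841.NF.D.IsShaCoc W f ∧ ∀ h, Fx e h → c h = tr hW e f h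

/-- coboundaries over `K` -/
def CB (c : Gal ℚ → Pt E Qb) : Prop := ∃ P : Pt E Qb, ∀ h, Fx e h → c h = aG E h P - P

/-- the local condition -/
def LocA (L : Type) [Field L] [Algebra ℚ L] (c : Gal ℚ → Pt E Qb) : Prop :=
  ∀ j : Qb →ₐ[ℚ] AlgebraicClosure L, ∃ P : Pt E (AlgebraicClosure L), ∀ (τ : Gal L) (h : Gal ℚ),
    Fx e h → (τ.toAlgHom.restrictScalars ℚ).comp j = j.comp h.toAlgHom →
      act E j (c h) = aL E L τ P - P

/-- conjugation -/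
noncomputable def cj (σ : Gal ℚ) (c : Gal ℚ → Pt E Qb) : Gal ℚ → Pt E Qb :=
  fun h => aG E σ (c (σ⁻¹ * h * σ))

lemma fx_mul {x y : Gal ℚ} (hx : Fx e x) (hy : Fx e y) : Fx e (x * y) := (HF e).mul_mem hx hy

lemma fx_inv {x : Gal ℚ} (hx : Fx e x) : Fx e x⁻¹ := (HF e).inv_mem hx

variable {hW e}

lemma SH.coc {c : Gal ℚ → Pt E Qb} (hc : SH hW e c) {x y : Gal ℚ} (hx : Fx e x) (hy : Fx e y) :
    c (x * y) = c x + aG E x (c y) := by
  obtain ⟨f, hf, h⟩ := hc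
  rw [h _ (fx_mul e hx hy), h _ hx, h _ hy, tr_coc hW e hf.1 hx hy]

lemma SH.sub {c c' : Gal ℚ → Pt E Qb} (hc : SH hW e c) (hc' : SH hW e c') :
    SH hW e (c - c') := by
  obtain ⟨f, hf, h⟩ := hc
  obtain ⟨f', hf', h'⟩ := hc'
  refine ⟨f - f', sha_sub hf hf', fun x hx => ?_⟩
  have h1 : tr hW e (f - f') x = tr hW e f x - tr hW e f' x :=
    map_sub (tm (sc_any hW (e : AlgebraicClosure K →+* Qb))) _ _
  rw [h1, Pi.sub_apply, h x hx, h' x hx]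

lemma SH.nsmul {c : Gal ℚ → Pt E Qb} (hc : SH hW e c) (n : ℕ) : SH hW e (n • c) := by
  obtain ⟨f, hf, h⟩ := hc
  refine ⟨n • f, (Pool.Agent.TH841.NF.D.shaCoc W).nsmul_mem hf n, fun x hx => ?_⟩
  have h1 : tr hW e (n • f) x = n • tr hW e f x :=
    map_nsmul (tm (sc_any hW (e : AlgebraicClosure K →+* Qb))) _ _
  rw [h1, Pi.smul_apply, h x hx]

lemma SH.congr {c c' : Gal ℚ → Pt E Qb} (hc : SH hW e c) (h : ∀ x, Fx e x → c' x = c x) :
    SH hW e c' := by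
  obtain ⟨f, hf, h'⟩ := hc
  exact ⟨f, hf, fun x hx => (h x hx).trans (h' x hx)⟩

lemma SH.of_cb {c : Gal ℚ → Pt E Qb} (hc : CB e c) : SH hW e c := by
  obtain ⟨P, hP⟩ := hc
  obtain ⟨P', hP'⟩ := any_surj hW e P
  refine ⟨dl P', dl_sha P', fun h hh => ?_⟩
  rw [tr_cob hW e (f := dl P') (P := P') (fun σ => rfl) hh, hP h hh]
  have h1 : tm (sc_any hW (e : AlgebraicClosure K →+* Qb)) P' = P := hP'
  rw [h1]

lemma SH.locp {c : Gal ℚ → Pt E Qb} (hc : SH hW e c) (p : ℕ) [Fact p.Prime]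
    {i : Algebra ℚ ℚ_[p]} : LocA e ℚ_[p] c := by
  obtain ⟨f, hf, h⟩ := hc
  intro j
  obtain ⟨P, hP⟩ := emb_p hW e hf p j
  exact ⟨P, fun τ x hx hj => by rw [h x hx]; exact hP τ x hx hj⟩

lemma SH.locr {c : Gal ℚ → Pt E Qb} (hc : SH hW e c) {i : Algebra ℚ ℝ} : LocA e ℝ c := by
  obtain ⟨f, hf, h⟩ := hc
  intro j
  obtain ⟨P, hP⟩ := emb_r hW e hf j
  exact ⟨P, fun τ x hx hj => by rw [h x hx]; exact hP τ x hx hj⟩

/-- continuity -/
lemma SH.fin {c : Gal ℚ → Pt E Qb} (hc : SH hW e c) :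
    ∃ S : Finset Qb, ∀ τ, Fx e τ → (∀ x ∈ S, τ x = x) → c τ = 0 := by
  classical
  obtain ⟨f, hf, h⟩ := hc
  obtain ⟨S, hS⟩ := coc_fin hf.1
  refine ⟨S.image e, fun τ hτ h1 => ?_⟩
  rw [h τ hτ]
  have h2 : f (cF e τ) = 0 := by
    apply hS
    intro x hx
    apply e.injective
    rw [e_cF e hτ]
    exact h1 _ (Finset.mem_image_of_mem _ hx)
  show tm (sc_any hW (e : AlgebraicClosure K →+* Qb)) (f (cF e τ)) = 0
  rw [h2, map_zero]

variable (hW e) in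
/-- the criterion -/
lemma SH.mk' {c : Gal ℚ → Pt E Qb}
    (hc : ∀ x y, Fx e x → Fx e y → c (x * y) = c x + aG E x (c y))
    (S : Finset Qb) (hS : ∀ τ, Fx e τ → (∀ x ∈ S, τ x = x) → c τ = 0)
    (hp : ∀ (p : ℕ) [Fact p.Prime] {_i : Algebra ℚ ℚ_[p]}, LocA e ℚ_[p] c)
    (hr : ∀ {_i : Algebra ℚ ℝ}, LocA e ℝ c) : SH hW e c := by
  classical
  set c' : Gal ℚ → Pt E Qb := fun g => if Fx e g then c g else 0 with hc'
  have hcc : ∀ g, Fx e g → c' g = c g := fun g hg => if_pos hg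
  refine ⟨rs hW e c', ⟨?_, fun v => ?_, fun v => ?_⟩, fun h hh => ?_⟩
  · apply rs_coc' hW e _ S
    · intro τ hτ
      by_cases h : Fx e τ
      · rw [hcc τ h, hS τ h hτ]
      · exact if_neg h
    · intro σ τ hσ hτ
      rw [hcc _ (fx_mul e hσ hτ), hcc _ hσ, hcc _ hτ]
      exact hc σ τ hσ hτ
  · obtain ⟨p, hp0, hpv⟩ := exists_prime_mem v
    have : Fact p.Prime := ⟨hp0⟩
    let iK : Algebra ℚ ℚ_[p] := DivisionRing.toRatAlgebra
    apply rs_loc' (iK := iK) hW e (pth hpv)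
    intro ι
    obtain ⟨P, hP⟩ := hp p (_i := iK) ι
    refine ⟨P, fun τ σ hσ hτ => ?_⟩
    rw [hcc _ hσ]
    exact hP τ σ hσ (AlgHom.ext hτ)
  · obtain ⟨θ⟩ := exists_real_hom v
    let iK : Algebra ℚ ℝ := DivisionRing.toRatAlgebra
    apply rs_loc' (iK := iK) hW e θ
    intro ι
    obtain ⟨P, hP⟩ := hr (_i := iK) ι
    refine ⟨P, fun τ σ hσ hτ => ?_⟩
    rw [hcc _ hσ]
    exact hP τ σ hσ (AlgHom.ext hτ)
  · rw [tr_rs hW e c' hh, hcc h hh]

/-! ### Coboundaries -/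

lemma CB.add {c c' : Gal ℚ → Pt E Qb} (hc : CB e c) (hc' : CB e c') : CB e (c + c') := by
  obtain ⟨P, hP⟩ := hc
  obtain ⟨P', hP'⟩ := hc'
  refine ⟨P + P', fun h hh => ?_⟩
  rw [Pi.add_apply, hP h hh, hP' h hh, map_add]
  abel

lemma CB.neg {c : Gal ℚ → Pt E Qb} (hc : CB e c) : CB e (-c) := by
  obtain ⟨P, hP⟩ := hc
  refine ⟨-P, fun h hh => ?_⟩
  rw [Pi.neg_apply, hP h hh, map_neg]
  abel

lemma CB.sub {c c' : Gal ℚ → Pt E Qb} (hc : CB e c) (hc' : CB e c') : CB e (c - c') := by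
  rw [sub_eq_add_neg]
  exact hc.add hc'.neg

lemma CB.zsmul {c : Gal ℚ → Pt E Qb} (hc : CB e c) (n : ℤ) : CB e (n • c) := by
  obtain ⟨P, hP⟩ := hc
  refine ⟨n • P, fun h hh => ?_⟩
  rw [Pi.smul_apply, hP h hh, map_zsmul, smul_sub]

lemma CB.nsmul {c : Gal ℚ → Pt E Qb} (hc : CB e c) (n : ℕ) : CB e (n • c) := by
  have h := hc.zsmul n
  rwa [natCast_zsmul] at h

lemma CB.congr {c c' : Gal ℚ → Pt E Qb} (hc : CB e c) (h : ∀ x, Fx e x → c' x = c x) :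
    CB e c' := by
  obtain ⟨P, hP⟩ := hc
  exact ⟨P, fun x hx => (h x hx).trans (hP x hx)⟩

variable (e) in
lemma CB.zero : CB e (0 : Gal ℚ → Pt E Qb) := ⟨0, fun h _ => by
  rw [map_zero, sub_zero, Pi.zero_apply]⟩

/-- two coprime multiples -/
lemma CB.of_coprime {c : Gal ℚ → Pt E Qb} {a b : ℕ} (hab : Nat.Coprime a b)
    (ha : CB e (a • c)) (hb : CB e (b • c)) : CB e c := by
  obtain ⟨x, y, hxy⟩ := Nat.isCoprime_iff_coprime.2 hab
  refine ((ha.zsmul x).add (hb.zsmul y)).congr fun h _ => ?_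
  have h1 : (x • (a • c) + y • (b • c)) h = (x * a + y * b : ℤ) • c h := by
    rw [add_smul, mul_smul, mul_smul, natCast_zsmul, natCast_zsmul]
    rfl
  rw [h1, hxy, one_smul]

/-! ### Conjugation -/

lemma cj_mul (σ τ : Gal ℚ) (c : Gal ℚ → Pt E Qb) : cj (σ * τ) c = cj σ (cj τ c) := by
  funext h
  unfold cj
  have h1 : (σ * τ)⁻¹ * h * (σ * τ) = τ⁻¹ * (σ⁻¹ * h * σ) * τ := by group
  rw [h1, a_mul]

lemma cj_one (c : Gal ℚ → Pt E Qb) : cj 1 c = c := by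
  funext h
  unfold cj
  rw [inv_one, one_mul, mul_one, a_one]

lemma cj_sub (σ : Gal ℚ) (c c' : Gal ℚ → Pt E Qb) : cj σ (c - c') = cj σ c - cj σ c' := by
  funext h
  exact map_sub (aG E σ) _ _

lemma cj_add (σ : Gal ℚ) (c c' : Gal ℚ → Pt E Qb) : cj σ (c + c') = cj σ c + cj σ c' := by
  funext h
  exact map_add (aG E σ) _ _

lemma cj_nsmul (σ : Gal ℚ) (n : ℕ) (c : Gal ℚ → Pt E Qb) : cj σ (n • c) = n • cj σ c := by
  funext h
  exact map_nsmul (aG E σ) _ _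

lemma CB.cj {σ : Gal ℚ} (hσ : ∀ h, Fx e h → Fx e (σ⁻¹ * h * σ)) {c : Gal ℚ → Pt E Qb}
    (hc : CB e c) : CB e (cj σ c) := by
  obtain ⟨P, hP⟩ := hc
  refine ⟨aG E σ P, fun h hh => ?_⟩
  unfold Pool.Agent.Helper891_XS.cj
  rw [hP _ (hσ h hh), map_sub, ← a_mul, ← a_mul]
  congr 3
  group

lemma SH.cj_mem {c : Gal ℚ → Pt E Qb} (hc : SH hW e c) {k h : Gal ℚ} (hk : Fx e k)
    (hh : Fx e h) : cj k c h = c h + (aG E h (c k) - c k) := by
  have h1 : c 1 = 0 := by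
    have h2 := hc.coc (x := 1) (y := 1) (HF e).one_mem (HF e).one_mem
    rw [one_mul, a_one] at h2
    exact left_eq_add.1 h2
  have h2 : c (k * k⁻¹) = c k + aG E k (c k⁻¹) := hc.coc hk (fx_inv e hk)
  rw [mul_inv_cancel, h1] at h2
  have h3 : c (k⁻¹ * h * k) = c k⁻¹ + aG E k⁻¹ (c h + aG E h (c k)) := by
    rw [mul_assoc, hc.coc (fx_inv e hk) (fx_mul e hh hk), hc.coc hh hk]
  unfold cj
  rw [h3, map_add, ← a_mul, mul_inv_cancel, a_one]
  have h4 : aG E k (c k⁻¹) = -c k := (neg_eq_of_add_eq_zero_right h2.symm).symm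
  rw [h4]
  abel

lemma SH.cj {σ : Gal ℚ} (hσ : ∀ h, Fx e h → Fx e (σ⁻¹ * h * σ)) {c : Gal ℚ → Pt E Qb}
    (hc : SH hW e c) : SH hW e (cj σ c) := by
  classical
  obtain ⟨S, hS⟩ := hc.fin
  have loc : ∀ (L : Type) [Field L] [Algebra ℚ L], LocA e L c →
      LocA e L (Pool.Agent.Helper891_XS.cj σ c) := by
    intro L _ _ hl j
    obtain ⟨P, hP⟩ := hl (j.comp σ.toAlgHom)
    refine ⟨P, fun τ h hh hj => ?_⟩
    have h1 := hP τ (σ⁻¹ * h * σ) (hσ h hh) (by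
      have e1 : (j.comp σ.toAlgHom).comp (σ⁻¹ * h * σ).toAlgHom =
          (j.comp h.toAlgHom).comp σ.toAlgHom := by
        refine AlgHom.ext fun x => ?_
        show j (σ (σ⁻¹ (h (σ x)))) = j (h (σ x))
        congr 1
        exact AlgEquiv.apply_symm_apply σ _
      rw [e1, ← hj]
      rfl)
    rw [← h1]
    exact (act_act E j σ.toAlgHom _)
  refine SH.mk' hW e ?_ (S.image σ) ?_ (fun p _ _ => loc ℚ_[p] (hc.locp p)) (loc ℝ hc.locr)
  · intro x y hx hy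
    unfold Pool.Agent.Helper891_XS.cj
    have h1 : σ⁻¹ * (x * y) * σ = (σ⁻¹ * x * σ) * (σ⁻¹ * y * σ) := by group
    rw [h1, hc.coc (hσ x hx) (hσ y hy), map_add, ← a_mul, ← a_mul]
    congr 3
    group
  · intro τ hτ h1
    unfold Pool.Agent.Helper891_XS.cj
    rw [hS _ (hσ τ hτ), map_zero]
    intro x hx
    show σ.symm (τ (σ x)) = x
    rw [h1 _ (Finset.mem_image_of_mem _ hx)]
    exact σ.symm_apply_apply x

end basic

end Pool.Agent.Helper891_XS
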