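import Mathlib
import Pool.Agent.Helper891_XS.Sa

/-!
# The Galois group of `K / F` acts trivially on the 2-primary part of the Tate-Shafarevich group
-/

set_option autoImplicit false
set_option linter.unusedSectionVars false

attribute [-instance] DivisionRing.toRatAlgebra

namespace Pool.Agent.Helper891_XS

open WeierstrassCurve NumberField IsDedekindDomain

open Pool.Agent.TH841.NF Pool.Agent.Y682 Pool.Agent.Y65.Sham Pool.Agent.Helper891_XR

open Pool.Agent.TH841.SH.D (Pt act Gal Coch IsCoc IsCob LocTriv cob)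

open Pool.Agent.TH841.SH (IsX isX_zero)

section

variable {K : Type} [Field K] [NumberField K] [Algebra ℚ K] {E : WeierstrassCurve ℚ}
  {W : WeierstrassCurve K} (hW : Sc (algebraMap ℚ K) 1 E W) (e : AlgebraicClosure K ≃+* Qb)
  {A B : ℤ} (hTQ : IsT E (A : ℚ) (B : ℚ)) (hT : IsT W (A : K) (B : K))

lemma sub_tors {P Q : Pt E Qb} (hP : P + P = 0) (hQ : Q + Q = 0)
    (h : IsX (E.baseChange Qb) 0 P ↔ IsX (E.baseChange Qb) 0 Q) : P - Q ∈ torsT hTQ := by
  have h1 : P - Q = P + Q := by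
    rw [sub_eq_add_neg]
    congr 1
    exact neg_eq_of_add_eq_zero_left hQ
  rw [h1]
  refine ⟨?_, (isX_add hTQ hP hQ).2 h⟩
  have h2 : P + Q + (P + Q) = (P + P) + (Q + Q) := by abel
  rw [h2, hP, hQ, add_zero]

lemma eq_tors {P Q : Pt E Qb} (hP : P ∈ torsT hTQ) (hQ : Q ∈ torsT hTQ)
    (h : P = 0 ↔ Q = 0) : P = Q := by
  by_cases h1 : P = 0
  · rw [h1, h.1 h1]
  · exact isX_ext hTQ hP.1 hQ.1 hP.2 hQ.2 h1 (fun h2 => h1 (h.2 h2))

lemma act_tors {Q : Pt E Qb} (hQ : Q ∈ torsT hTQ) (σ : Gal ℚ) : aG E σ Q = Q := by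
  show act E σ.toAlgHom Q = Q
  have h1 : act E σ.toAlgHom Q + act E σ.toAlgHom Q = 0 := by
    rw [← map_add, hQ.1, map_zero]
  have h2 := (act_isX E σ.toAlgHom Q).2 hQ.2
  by_cases h3 : Q = 0
  · rw [h3, map_zero]
  · refine isX_ext hTQ h1 hQ.1 h2 hQ.2 ?_ h3
    intro h4
    rcases pt_zero_or Q with h6 | ⟨u, v, hn, h6⟩
    · exact h3 h6
    · rw [h6, act_sm] at h4
      exact absurd h4 (sm_ne_zero _)

variable {hW e}

lemma two_coc {c : Gal ℚ → Pt E Qb} {f : Coch W} (hcf : ∀ h, Fx e h → c h = tr hW e f h)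
    (h2 : ∀ h, Fx e h → c h + c h = 0) (s : Gal K) : f s + f s = 0 := by
  have h3 := h2 _ (cQ_fx e s)
  rw [hcf _ (cQ_fx e s)] at h3
  have h4 : tr hW e f (cQ e s) = tm (sc_any hW (e : AlgebraicClosure K →+* Qb)) (f s) := by
    show tm (sc_any hW (e : AlgebraicClosure K →+* Qb)) (f (cF e (cQ e s))) = _
    rw [cF_cQ]
  rw [h4, ← map_add] at h3
  apply tm_inj (sc_any hW (e : AlgebraicClosure K →+* Qb))
  rw [h3, map_zero]

include hT in
/-- the first class is invariant -/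
lemma cl1 {σ0 : Gal ℚ} {γ : K ≃+* K} (hγ : ∀ x, σ0 (em e x) = em e (γ x))
    (hg1 : ∀ b : Kˣ, L1 A B (b : K) → ∃ y : Kˣ, γ (b : K) * b = (y : K) ^ 2)
    {c : Gal ℚ → Pt E Qb} (hc : SH hW e c) (h2 : ∀ h, Fx e h → c h + c h = 0)
    {h : Gal ℚ} (hh : Fx e h) :
    IsX (E.baseChange Qb) 0 (c (σ0 * h * σ0⁻¹)) ↔ IsX (E.baseChange Qb) 0 (c h) := by
  obtain ⟨f, hf, hcf⟩ := hc
  obtain ⟨b, hb, hbs, hbl⟩ := exists_b1 hT hf.1 (two_coc hcf h2)
  obtain ⟨y, hy⟩ := hg1 (Units.mk0 b hb) (by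
    refine ⟨fun v => ?_, fun v => ?_⟩
    · have := charZero_adic v
      have h3 := hbl _ (hf.2.1 v)
      rwa [map_intCast, map_intCast] at h3
    · have := charZero_inf v
      have h3 := hbl v.Completion (hf.2.2 v)
      rwa [map_intCast, map_intCast] at h3)
  rw [Units.val_mk0] at hy
  obtain ⟨s, hs⟩ := IsAlgClosed.exists_pow_nat_eq (algebraMap K (AlgebraicClosure K) b) (n := 2)
    (by norm_num)
  refine kum_iff e hb hγ hy hs (p := fun h => IsX (E.baseChange Qb) 0 (c h)) ?_ hh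
  intro h hh
  have h3 : IsX (E.baseChange Qb) 0 (c h) ↔
      IsX (W.baseChange (AlgebraicClosure K)) 0 (f (cF e h)) := by
    rw [hcf h hh]
    exact tm_isX (sc_any hW (e : AlgebraicClosure K →+* Qb)) (f (cF e h))
  have h6 := hbs s hs (cF e h)
  constructor
  · intro h7
    rw [← e_cF e hh, h6.1 (h3.1 h7)]
  · intro h7
    rw [← e_cF e hh, h6.2 (fun h8 => h7 (h3.2 h8)), map_neg]

include hT in
/-- the second class is invariant -/
lemma cl2 {σ0 : Gal ℚ} {γ : K ≃+* K} (hγ : ∀ x, σ0 (em e x) = em e (γ x))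
    (hg2 : ∀ b : Kˣ, L2 A B (b : K) → ∃ y : Kˣ, γ (b : K) * b = (y : K) ^ 2)
    {c : Gal ℚ → Pt E Qb} (hc : SH hW e c) (hV : ∀ h, Fx e h → c h ∈ torsT hTQ)
    {h : Gal ℚ} (hh : Fx e h) : c (σ0 * h * σ0⁻¹) = 0 ↔ c h = 0 := by
  obtain ⟨f, hf, hcf⟩ := hc
  have h3 : ∀ h, Fx e h → (IsX (E.baseChange Qb) 0 (c h) ↔
      IsX (W.baseChange (AlgebraicClosure K)) 0 (f (cF e h))) := by
    intro h hh
    rw [hcf h hh]
    exact tm_isX (sc_any hW (e : AlgebraicClosure K →+* Qb)) (f (cF e h))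
  have hX : ∀ s, IsX (W.baseChange (AlgebraicClosure K)) 0 (f s) := by
    intro s
    have h4 := (h3 _ (cQ_fx e s)).1 (hV _ (cQ_fx e s)).2
    rwa [cF_cQ] at h4
  obtain ⟨b, hb, hbs, hbl⟩ := exists_b2 hT hf.1 (two_coc hcf (fun h hh => (hV h hh).1)) hX
  obtain ⟨y, hy⟩ := hg2 (Units.mk0 b hb) (by
    refine ⟨fun v => ?_, fun v => ?_⟩
    · have := charZero_adic v
      have h3 := hbl _ (hf.2.1 v)
      rwa [map_intCast, map_intCast] at h3
    · have := charZero_inf v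
      have h3 := hbl v.Completion (hf.2.2 v)
      rwa [map_intCast, map_intCast] at h3)
  rw [Units.val_mk0] at hy
  obtain ⟨s, hs⟩ := IsAlgClosed.exists_pow_nat_eq (algebraMap K (AlgebraicClosure K) b) (n := 2)
    (by norm_num)
  refine kum_iff e hb hγ hy hs (p := fun h => c h = 0) ?_ hh
  intro h hh
  have h4 : c h = 0 ↔ f (cF e h) = 0 := by
    rw [hcf h hh]
    exact tm_zero_iff (sc_any hW (e : AlgebraicClosure K →+* Qb)) (f (cF e h))
  have h6 := hbs s hs (cF e h)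
  constructor
  · intro h7
    rw [← e_cF e hh, h6.1 (h4.1 h7)]
  · intro h7
    rw [← e_cF e hh, h6.2 (fun h8 => h7 (h4.2 h8)), map_neg]

lemma nm_of {σ : Gal ℚ} {γ : K ≃+* K} (hγ : ∀ x, σ (em e x) = em e (γ x)) (h : Gal ℚ)
    (hh : Fx e h) : Fx e (σ⁻¹ * h * σ) := by
  have h1 := fx_conj e (γ := γ.symm) (σ0 := σ⁻¹) (fun x => by
    show σ.symm (em e x) = _
    rw [AlgEquiv.symm_apply_eq, hγ, RingEquiv.apply_symm_apply]) hh
  rwa [inv_inv] at h1

include hTQ hT in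
/-- **the cocycles with values in the points killed by two** -/
theorem triv2 {σ : Gal ℚ} {γ : K ≃+* K} (hγ : ∀ x, σ (em e x) = em e (γ x))
    (hg1 : ∀ b : Kˣ, L1 A B (b : K) → ∃ y : Kˣ, γ (b : K) * b = (y : K) ^ 2)
    (hg2 : ∀ b : Kˣ, L2 A B (b : K) → ∃ y : Kˣ, γ (b : K) * b = (y : K) ^ 2)
    {n : ℕ} (hn : Odd n) (hσn : Fx e (σ ^ n))
    {c : Gal ℚ → Pt E Qb} (hc : SH hW e c) (h2 : ∀ h, Fx e h → c h + c h = 0) :
    ∃ S : Pt E Qb, S + S = 0 ∧ ∀ h, Fx e h → cj σ c h - c h = aG E h S - S := by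
  have hN := nm_of hγ
  set u : Gal ℚ → Pt E Qb := cj σ c - c with hu
  have huS : SH hW e u := (hc.cj hN).sub hc
  have hui : ∀ h, Fx e h → σ * (σ⁻¹ * h * σ) * σ⁻¹ = h := fun h _ => by group
  have hut : ∀ h, Fx e h → u h ∈ torsT hTQ := by
    intro h hh
    refine sub_tors hTQ ?_ (h2 h hh) ?_
    · show aG E σ (c (σ⁻¹ * h * σ)) + aG E σ (c (σ⁻¹ * h * σ)) = 0
      rw [← map_add, h2 _ (hN h hh), map_zero]
    · have h3 := cl1 (hW := hW) hT hγ hg1 hc h2 (hN h hh)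
      rw [hui h hh] at h3
      rw [h3]
      exact act_isX E σ.toAlgHom (c (σ⁻¹ * h * σ))
  have huc : ∀ h, Fx e h → u (σ⁻¹ * h * σ) = u h := by
    intro h hh
    have h3 := cl2 (hW := hW) hTQ hT hγ hg2 huS hut (hN h hh)
    rw [hui h hh] at h3
    exact (eq_tors hTQ (hut _ hh) (hut _ (hN h hh)) h3).symm
  have hi : ∀ (i : ℕ) (h : Gal ℚ), Fx e h → cj (σ ^ i) c h = c h + i • u h := by
    intro i
    induction i with
    | zero =>
      intro h hh
      rw [pow_zero, cj_one, zero_smul, add_zero]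
    | succ i ih =>
      intro h hh
      rw [pow_succ', cj_mul]
      show aG E σ (cj (σ ^ i) c (σ⁻¹ * h * σ)) = _
      rw [ih _ (hN h hh), map_add, map_nsmul, huc h hh, act_tors hTQ (hut h hh)]
      have h3 : aG E σ (c (σ⁻¹ * h * σ)) = c h + u h := by
        rw [hu, Pi.sub_apply]
        show _ = c h + (aG E σ (c (σ⁻¹ * h * σ)) - c h)
        abel
      rw [h3, succ_nsmul]
      abel
  refine ⟨c (σ ^ n), h2 _ hσn, fun h hh => ?_⟩
  have h3 := hi n h hh
  rw [hc.cj_mem hσn hh] at h3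
  have h4 : n • u h = u h := by
    obtain ⟨m, rfl⟩ := hn
    have h5 : u h + u h = 0 := (hut h hh).1
    rw [add_smul, one_smul, mul_comm, mul_smul, two_smul, h5, smul_zero, zero_add]
  rw [h4] at h3
  exact (add_left_cancel h3).symm

/-- iterated conjugation -/
lemma cj_pow {σ : Gal ℚ} (hN : ∀ h, Fx e h → Fx e (σ⁻¹ * h * σ)) {c w : Gal ℚ → Pt E Qb}
    (h1 : CB e (cj σ c - (c + w))) (h2 : CB e (cj σ w - w)) (n : ℕ) :
    CB e (cj (σ ^ n) c - (c + n • w)) := by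
  induction n with
  | zero =>
    rw [pow_zero, cj_one, zero_smul, add_zero, sub_self]
    exact CB.zero e
  | succ n ih =>
    have h3 := ih.cj hN
    have h4 := (h3.add h1).add (h2.nsmul n)
    rw [pow_succ', cj_mul]
    convert h4 using 1
    rw [cj_sub, cj_add, cj_nsmul, succ_nsmul, smul_sub]
    abel

variable {U : Subgroup (Gal ℚ)}

include hTQ hT in
/-- **trivial action** -/
theorem trivm (hU : Rel A B e U) {n : ℕ} (hn : Odd n) (hUn : ∀ σ ∈ U, Fx e (σ ^ n)) (m : ℕ) :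
    ∀ c : Gal ℚ → Pt E Qb, SH hW e c → CB e (2 ^ m • c) → ∀ σ ∈ U, CB e (cj σ c - c) := by
  induction m with
  | zero =>
    intro c hc h σ hσ
    obtain ⟨γ, hγ, -, -⟩ := hU σ hσ
    rw [pow_zero, one_smul] at h
    exact (h.cj (nm_of hγ)).sub h
  | succ m ih =>
    intro c hc h σ hσ
    obtain ⟨γ, hγ, hg1, hg2⟩ := hU σ hσ
    have hN := nm_of hγ
    obtain ⟨P, hP⟩ := h
    obtain ⟨Q, hQ⟩ := exists_half hTQ P
    have hdQ : CB e (fun h => aG E h Q - Q) := ⟨Q, fun h _ => rfl⟩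
    have hu : SH hW e (2 ^ m • c - fun h => aG E h Q - Q) :=
      (hc.nsmul (2 ^ m)).sub (SH.of_cb hdQ)
    obtain ⟨S, hS, hS2⟩ := triv2 hTQ hT hγ hg1 hg2 hn (hUn σ hσ) hu (by
      intro h hh
      have h3 := hP h hh
      rw [Pi.smul_apply, pow_succ, mul_smul, two_smul, smul_add, hQ, map_add] at h3
      rw [Pi.sub_apply, Pi.smul_apply]
      have h4 : 2 ^ m • c h - (aG E h Q - Q) + (2 ^ m • c h - (aG E h Q - Q)) =
          (2 ^ m • c h + 2 ^ m • c h) - (aG E h Q + aG E h Q - (Q + Q)) := by abel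
      rw [h4, h3, sub_self])
    -- the difference is killed by a smaller power
    set w : Gal ℚ → Pt E Qb := cj σ c - c with hw
    have hwS : SH hW e w := (hc.cj hN).sub hc
    have hwm : CB e (2 ^ m • w) := by
      have h3 : CB e (cj σ (2 ^ m • c - fun h => aG E h Q - Q) -
          (2 ^ m • c - fun h => aG E h Q - Q)) := ⟨S, fun h hh => hS2 h hh⟩
      have h4 := (h3.add (hdQ.cj hN)).sub hdQ
      convert h4 using 1
      rw [cj_sub, cj_nsmul, hw, smul_sub]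
      abel
    have hww := ih w hwS hwm σ hσ
    have h5 : CB e (cj σ c - (c + w)) := by
      have : cj σ c - (c + w) = 0 := by rw [hw]; abel
      rw [this]
      exact CB.zero e
    have h6 := cj_pow hN h5 hww n
    have h7 : CB e (cj (σ ^ n) c - c) := by
      refine ⟨c (σ ^ n), fun h hh => ?_⟩
      rw [Pi.sub_apply, hc.cj_mem (hUn σ hσ) hh]
      abel
    have h8 : CB e (n • w) := by
      have h9 := h7.sub h6
      convert h9 using 1
      abel
    exact CB.of_coprime (Nat.Coprime.pow_right m (Nat.coprime_two_right.2 hn)) h8 hwm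

end

end Pool.Agent.Helper891_XS
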