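import Mathlib
import Pool.Agent.Helper891_XS.Sb

/-!
# Restriction and corestriction for an extension of number fields
-/

set_option autoImplicit false
set_option linter.unusedSectionVars false

attribute [-instance] DivisionRing.toRatAlgebra

namespace Pool.Agent.Helper891_XS

open WeierstrassCurve NumberField IsDedekindDomain

open Pool.Agent.TH841.NF Pool.Agent.Y682 Pool.Agent.Y65.Sham Pool.Agent.Helper891_XR

open Pool.Agent.TH841.SH.D (Pt act Gal Coch IsCoc IsCob LocTriv cob)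

open Pool.Agent.TH841.SH (IsX isX_zero)

/-- the local data for a subgroup -/
noncomputable def locR (H : Subgroup (Gal ℚ)) (E : WeierstrassCurve ℚ) (L : Type) [Field L]
    [Algebra ℚ L] :
    Loc H (Pt E Qb) (Qb →ₐ[ℚ] AlgebraicClosure L) (Gal L) (Pt E (AlgebraicClosure L)) where
  a := (aG E).comp H.subtype
  b := aL E L
  lc τ j := (τ.toAlgHom.restrictScalars ℚ).comp j
  rc j g := j.comp (g : Gal ℚ).toAlgHom
  st j := act E j
  lc_mul _ _ _ := rfl
  lc_one _ := rfl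
  rc_mul _ _ _ := rfl
  rc_one _ := rfl
  comm _ _ _ := rfl
  st_l _ _ x := (act_act E _ _ x).symm
  st_r _ _ x := (act_act E _ _ x).symm

section

variable {F : Type} [Field F] [NumberField F] [Algebra ℚ F]
  {K : Type} [Field K] [NumberField K] [Algebra ℚ K] {E : WeierstrassCurve ℚ}
  {V : WeierstrassCurve F} {W : WeierstrassCurve K}
  (hV : Sc (algebraMap ℚ F) 1 E V) (hW : Sc (algebraMap ℚ K) 1 E W)
  (eF : AlgebraicClosure F ≃+* Qb) (eK : AlgebraicClosure K ≃+* Qb)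
  (hle : ∀ h, Fx eK h → Fx eF h)
  (hnm : ∀ σ, Fx eF σ → ∀ h, Fx eK h → Fx eK (σ⁻¹ * h * σ))

/-- the subgroup of `K` in the group of `F` -/
noncomputable abbrev HH' : Subgroup (HF eF) := (HF eK).subgroupOf (HF eF)

include hle in
lemma index_eq : (HH' eF eK).index * Module.finrank ℚ F = Module.finrank ℚ K := by
  have h1 : (HF eK).index = Module.finrank ℚ K := by
    rw [Subgroup.index, Nat.card_eq_fintype_card, card_coset eK]
  have h2 : (HF eF).index = Module.finrank ℚ F := by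
    rw [Subgroup.index, Nat.card_eq_fintype_card, card_coset eF]
  rw [← h1, ← h2]
  exact Subgroup.relIndex_mul_index (fun h hh => hle h hh)

include hle in
lemma fin_quot (hodd : Odd (Module.finrank ℚ K)) : Finite (HF eF ⧸ HH' eF eK) ∧
    Odd (HH' eF eK).index := by
  have h1 := index_eq eF eK hle
  have h2 : Odd (HH' eF eK).index := by
    rw [← h1] at hodd
    exact (Nat.odd_mul.1 hodd).1
  refine ⟨?_, h2⟩
  apply Nat.finite_of_card_ne_zero
  show (HH' eF eK).index ≠ 0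
  intro h0
  rw [h0] at h2
  exact absurd h2 (by decide)

/-- representatives -/
noncomputable def rp (q : HF eF ⧸ HH' eF eK) : HF eF := q.out

lemma rp_spec (q : HF eF ⧸ HH' eF eK) : (rp eF eK q : HF eF ⧸ HH' eF eK) = q :=
  QuotientGroup.out_eq' q

include hnm in
lemma smul_eq {g : HF eF} (hg : Fx eK (g : Gal ℚ)) (q : HF eF ⧸ HH' eF eK) : g • q = q := by
  conv_lhs => rw [← rp_spec eF eK q]
  conv_rhs => rw [← rp_spec eF eK q]
  show ((g * rp eF eK q : HF eF) : HF eF ⧸ HH' eF eK) = _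
  rw [eq_comm, QuotientGroup.eq, Subgroup.mem_subgroupOf]
  have h1 := hnm _ (rp eF eK q).2 _ hg
  have h2 : (((rp eF eK q)⁻¹ * (g * rp eF eK q) : HF eF) : Gal ℚ) =
      (rp eF eK q : Gal ℚ)⁻¹ * (g : Gal ℚ) * (rp eF eK q : Gal ℚ) := by
    push_cast
    group
  rw [h2]
  exact h1

variable [Fintype (HF eF ⧸ HH' eF eK)]

open Classical in
/-- the corestriction -/
noncomputable def cr (c : Gal ℚ → Pt E Qb) (g : Gal ℚ) : Pt E Qb :=
  if hg : g ∈ HF eF then
    cor (rp eF eK) ((aG E).comp (HF eF).subtype) (1 : HF eF →* ℤ) (fun x => c x) ⟨g, hg⟩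
  else 0

lemma cr_apply (c : Gal ℚ → Pt E Qb) {g : Gal ℚ} (hg : Fx eF g) :
    cr eF eK c g = cor (rp eF eK) ((aG E).comp (HF eF).subtype) (1 : HF eF →* ℤ)
      (fun x => c x) ⟨g, hg⟩ := by
  unfold cr
  exact dif_pos hg

lemma one_H' : ∀ h ∈ HH' eF eK, (1 : HF eF →* ℤ) h = 1 := fun _ _ => rfl

variable {hW} in
lemma coc_H' {c : Gal ℚ → Pt E Qb} (hc : SH hW eK c) : ∀ x ∈ HH' eF eK, ∀ y ∈ HH' eF eK,
    (fun x : HF eF => c x) (x * y) = (fun x : HF eF => c x) x +
      ((aG E).comp (HF eF).subtype) x ((fun x : HF eF => c x) y) := by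
  intro x hx y hy
  rw [Subgroup.mem_subgroupOf] at hx hy
  show c ((x : Gal ℚ) * (y : Gal ℚ)) = c x + aG E x (c y)
  exact hc.coc hx hy

include hnm hle in
variable {hW} in
/-- the corestriction of a locally trivial cocycle -/
lemma cr_SH {c : Gal ℚ → Pt E Qb} (hc : SH hW eK c) : SH hV eF (cr eF eK c) := by
  classical
  obtain ⟨S, hS⟩ := hc.fin
  have hfin : FiniteDimensional ℚ K := by
    have h1 := index_eq eF eK hle
    have h0 : Module.finrank ℚ K ≠ 0 := by
      rw [← card_coset eK]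
      exact Fintype.card_ne_zero
    exact Module.finite_of_finrank_pos (Nat.pos_of_ne_zero h0)
  let b := Module.finBasis ℚ K
  have loc : ∀ (L : Type) [Field L] [Algebra ℚ L], LocA eK L c → LocA eF L (cr eF eK c) := by
    intro L _ _ hl j
    obtain ⟨R, hR⟩ := cor_loc (locR (HF eF) E L) (rp_spec eF eK) (one_H' eF eK)
      (f := fun x : HF eF => c x) (coc_H' eF eK hc) (by
        intro j
        obtain ⟨P, hP⟩ := hl j
        exact ⟨P, fun τ h hh hj => hP τ h (Subgroup.mem_subgroupOf.1 hh) hj⟩) j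
    refine ⟨R, fun τ h hh hj => ?_⟩
    rw [cr_apply eF eK c hh]
    have h1 := hR τ ⟨h, hh⟩ hj
    have h2 : (1 : HF eF →* ℤ) ⟨h, hh⟩ • (locR (HF eF) E L).b τ R = aL E L τ R := one_smul ℤ _
    rw [h2] at h1
    exact h1
  refine SH.mk' hV eF ?_ (Finset.univ.biUnion fun q : HF eF ⧸ HH' eF eK =>
      (S.image fun x => (rp eF eK q : Gal ℚ) x) ∪
        Finset.univ.image fun i => (rp eF eK q : Gal ℚ) (em eK (b i))) ?_
    (fun p _ _ => loc ℚ_[p] (hc.locp p)) (loc ℝ hc.locr)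
  · intro x y hx hy
    rw [cr_apply eF eK c hx, cr_apply eF eK c hy, cr_apply eF eK c (fx_mul eF hx hy)]
    have h1 := cor_coc (rp_spec eF eK) ((aG E).comp (HF eF).subtype) (one_H' eF eK)
      (f := fun x : HF eF => c x) (coc_H' eF eK hc) ⟨x, hx⟩ ⟨y, hy⟩
    have h2 : ∀ z : Pt E Qb, (1 : HF eF →* ℤ) ⟨x, hx⟩ • z = z := fun z => one_smul ℤ z
    rw [h2] at h1
    exact h1
  · intro τ hτ hσ
    have h1 : ∀ q : HF eF ⧸ HH' eF eK, ∀ x ∈ S,
        τ ((rp eF eK q : Gal ℚ) x) = (rp eF eK q : Gal ℚ) x := by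
      intro q x hx
      apply hσ
      rw [Finset.mem_biUnion]
      exact ⟨q, Finset.mem_univ _, Finset.mem_union_left _ (Finset.mem_image_of_mem _ hx)⟩
    have h2 : ∀ q : HF eF ⧸ HH' eF eK, ∀ i,
        τ ((rp eF eK q : Gal ℚ) (em eK (b i))) = (rp eF eK q : Gal ℚ) (em eK (b i)) := by
      intro q i
      apply hσ
      rw [Finset.mem_biUnion]
      exact ⟨q, Finset.mem_univ _, Finset.mem_union_right _
        (Finset.mem_image_of_mem _ (Finset.mem_univ i))⟩
    have h3 : ∀ q : HF eF ⧸ HH' eF eK,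
        Fx eK ((rp eF eK q : Gal ℚ)⁻¹ * τ * (rp eF eK q : Gal ℚ)) := by
      intro q x
      change ((rp eF eK q : Gal ℚ)⁻¹ * τ * (rp eF eK q : Gal ℚ)) (em eK x) = em eK x
      rw [← b.sum_repr x, map_sum, map_sum]
      refine Finset.sum_congr rfl fun i _ => ?_
      have h4 : em eK (b.repr x i • b i) = algebraMap ℚ Qb (b.repr x i) * em eK (b i) := by
        rw [Algebra.smul_def, map_mul]
        congr 1
        exact rat_hom ((em eK).comp (algebraMap ℚ K)) _
      rw [h4, map_mul, AlgEquiv.commutes]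
      congr 1
      change (rp eF eK q : Gal ℚ).symm (τ ((rp eF eK q : Gal ℚ) (em eK (b i)))) = em eK (b i)
      rw [h2 q i]
      exact AlgEquiv.symm_apply_apply (rp eF eK q : Gal ℚ) _
    have h4 : ∀ q : HF eF ⧸ HH' eF eK, (⟨τ, hτ⟩ : HF eF) • q = q := by
      intro q
      conv_lhs => rw [← rp_spec eF eK q]
      conv_rhs => rw [← rp_spec eF eK q]
      show (((⟨τ, hτ⟩ : HF eF) * rp eF eK q : HF eF) : HF eF ⧸ HH' eF eK) = _
      rw [eq_comm, QuotientGroup.eq, Subgroup.mem_subgroupOf]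
      have h5 := h3 q
      rw [mul_assoc] at h5
      exact h5
    rw [cr_apply eF eK c hτ]
    apply cor_zero_of
    intro q
    rw [h4]
    show c ((rp eF eK q : Gal ℚ)⁻¹ * τ * (rp eF eK q : Gal ℚ)) = 0
    apply hS _ (h3 q)
    intro x hx
    change (rp eF eK q : Gal ℚ).symm (τ ((rp eF eK q : Gal ℚ) x)) = x
    rw [h1 q x hx]
    exact AlgEquiv.symm_apply_apply (rp eF eK q : Gal ℚ) _

include hnm hle in
/-- the restriction of the corestriction -/
lemma cr_res {c : Gal ℚ → Pt E Qb} {h : Gal ℚ} (hh : Fx eK h) :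
    cr eF eK c h = ∑ q : HF eF ⧸ HH' eF eK, cj (rp eF eK q : Gal ℚ) c h := by
  rw [cr_apply eF eK c (hle h hh)]
  unfold cor
  refine Finset.sum_congr rfl fun q _ => ?_
  have h1 := smul_eq eF eK hnm (g := (⟨h, hle h hh⟩ : HF eF)) hh q
  rw [h1]
  have h2 : ∀ z : Pt E Qb, (1 : HF eF →* ℤ) (rp eF eK q) • z = z := fun z => one_smul ℤ z
  rw [h2]
  rfl

/-- the corestriction of a coboundary -/
lemma cr_cb {c : Gal ℚ → Pt E Qb} (hc : CB eK c) : CB eF (cr eF eK c) := by
  obtain ⟨P, hP⟩ := hc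
  have h1 := fun g => cor_cob (rp_spec eF eK) ((aG E).comp (HF eF).subtype) (one_H' eF eK)
    (f := fun x : HF eF => c x) P (fun x hx => hP x (Subgroup.mem_subgroupOf.1 hx)) g
  refine ⟨∑ q : HF eF ⧸ HH' eF eK, (1 : HF eF →* ℤ) (rp eF eK q) •
    ((aG E).comp (HF eF).subtype) (rp eF eK q) P, fun h hh => ?_⟩
  rw [cr_apply eF eK c hh, h1 ⟨h, hh⟩]
  have h2 : ∀ z : Pt E Qb, (1 : HF eF →* ℤ) ⟨h, hh⟩ • z = z := fun z => one_smul ℤ z
  rw [h2]
  rfl

lemma cr_nsmul (n : ℕ) (c : Gal ℚ → Pt E Qb) : cr eF eK (n • c) = n • cr eF eK c := by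
  classical
  funext g
  by_cases hg : Fx eF g
  · rw [Pi.smul_apply, cr_apply eF eK _ hg, cr_apply eF eK _ hg]
    unfold cor
    rw [Finset.smul_sum]
    refine Finset.sum_congr rfl fun q _ => ?_
    have h2 : ∀ (x : HF eF) (z : Pt E Qb), (1 : HF eF →* ℤ) x • z = z := fun x z => one_smul ℤ z
    rw [h2, h2]
    exact map_nsmul (((aG E).comp (HF eF).subtype) _) _ _
  · have h3 : ∀ c : Gal ℚ → Pt E Qb, cr eF eK c g = 0 := fun c => by
      unfold cr
      exact dif_neg hg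
    rw [Pi.smul_apply, h3, h3, smul_zero]

lemma CB.sum {e : AlgebraicClosure K ≃+* Qb} {ι : Type} (s : Finset ι)
    (c : ι → Gal ℚ → Pt E Qb) (h : ∀ i ∈ s, CB e (c i)) : CB e (∑ i ∈ s, c i) := by
  classical
  induction s using Finset.induction_on with
  | empty => exact CB.zero e
  | insert a s ha ih =>
    rw [Finset.sum_insert ha]
    exact (h a (Finset.mem_insert_self a s)).add
      (ih fun i hi => h i (Finset.mem_insert_of_mem hi))

omit [Fintype (HF eF ⧸ HH' eF eK)] in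
include hle in
variable {hV} in
/-- the restriction -/
lemma SH.res {c : Gal ℚ → Pt E Qb} (hc : SH hV eF c) : SH hW eK c := by
  obtain ⟨S, hS⟩ := hc.fin
  have loc : ∀ (L : Type) [Field L] [Algebra ℚ L], LocA eF L c → LocA eK L c := by
    intro L _ _ hl j
    obtain ⟨P, hP⟩ := hl j
    exact ⟨P, fun τ h hh hj => hP τ h (hle h hh) hj⟩
  exact SH.mk' hW eK (fun x y hx hy => hc.coc (hle x hx) (hle y hy)) S
    (fun τ hτ h => hS τ (hle τ hτ) h) (fun p _ _ => loc ℚ_[p] (hc.locp p)) (loc ℝ hc.locr)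

variable {hV} in
/-- a cocycle which is a coboundary over `K` -/
lemma inj_cb {c : Gal ℚ → Pt E Qb} (hc : SH hV eF c) (h : CB eK c) :
    CB eF ((HH' eF eK).index • c) := by
  obtain ⟨P, hP⟩ := h
  have hdP : CB eF (fun h => aG E h P - P) := ⟨P, fun h _ => rfl⟩
  set t : Gal ℚ → Pt E Qb := c - fun h => aG E h P - P with ht
  have htS : SH hV eF t := hc.sub (SH.of_cb hdP)
  have ht0 : ∀ h, Fx eK h → t h = 0 := by
    intro h hh
    rw [ht, Pi.sub_apply, hP h hh, sub_self]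
  have key : CB eF ((HH' eF eK).index • t) := by
    refine ⟨-∑ q : HF eF ⧸ HH' eF eK, t (rp eF eK q : Gal ℚ), fun x hx => ?_⟩
    have h1 : ∀ q : HF eF ⧸ HH' eF eK, aG E x (t (rp eF eK q : Gal ℚ)) =
        t (rp eF eK ((⟨x, hx⟩ : HF eF) • q) : Gal ℚ) - t x := by
      intro q
      have h3 := htS.coc hx (rp eF eK q).2
      have hm := mem_H (rp_spec eF eK) (⟨x, hx⟩ : HF eF) q
      rw [Subgroup.mem_subgroupOf] at hm
      have h4 := htS.coc (rp eF eK ((⟨x, hx⟩ : HF eF) • q)).2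
        ((rp eF eK ((⟨x, hx⟩ : HF eF) • q))⁻¹ * ⟨x, hx⟩ * rp eF eK q).2
      rw [ht0 _ hm, map_zero, add_zero] at h4
      have h5 : (rp eF eK ((⟨x, hx⟩ : HF eF) • q) : Gal ℚ) *
          (((rp eF eK ((⟨x, hx⟩ : HF eF) • q))⁻¹ * ⟨x, hx⟩ * rp eF eK q : HF eF) : Gal ℚ) =
          x * (rp eF eK q : Gal ℚ) := by
        push_cast
        group
      rw [h5, h3] at h4
      rw [← h4]
      abel
    rw [map_neg, map_sum, Finset.sum_congr rfl fun q _ => h1 q, Finset.sum_sub_distrib,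
      Finset.sum_const, Finset.card_univ, Pi.smul_apply]
    have h2 : ∑ q : HF eF ⧸ HH' eF eK, t (rp eF eK ((⟨x, hx⟩ : HF eF) • q) : Gal ℚ) =
        ∑ q : HF eF ⧸ HH' eF eK, t (rp eF eK q : Gal ℚ) :=
      Equiv.sum_comp (MulAction.toPerm (⟨x, hx⟩ : HF eF) : Equiv.Perm (HF eF ⧸ HH' eF eK))
        (fun q : HF eF ⧸ HH' eF eK => t (rp eF eK q : Gal ℚ))
    have h3 : (HH' eF eK).index = Fintype.card (HF eF ⧸ HH' eF eK) := by
      rw [Subgroup.index, Nat.card_eq_fintype_card]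
    rw [h2, h3]
    abel
  have h6 := key.add (hdP.nsmul (HH' eF eK).index)
  convert h6 using 1
  rw [ht, smul_sub, sub_add_cancel]

end

end Pool.Agent.Helper891_XS
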