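import Mathlib
import Pool.Agent.Helper891_XS.Sc

/-!
# The Tate-Shafarevich groups and the points over `F` and `K`
-/

set_option autoImplicit false
set_option linter.unusedSectionVars false

attribute [-instance] DivisionRing.toRatAlgebra

namespace Pool.Agent.Helper891_XS

open WeierstrassCurve NumberField IsDedekindDomain

open Pool.Agent.TH841.NF Pool.Agent.Y682 Pool.Agent.Y65.Sham Pool.Agent.Helper891_XR

open Pool.Agent.TH841.SH.D (Pt act Gal Coch IsCoc IsCob LocTriv cob)

open Pool.Agent.TH841.SH (IsX isX_zero)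

section one

variable {K : Type} [Field K] [NumberField K] [Algebra ℚ K] {E : WeierstrassCurve ℚ}
  {W : WeierstrassCurve K} (hW : Sc (algebraMap ℚ K) 1 E W) (e : AlgebraicClosure K ≃+* Qb)

lemma tm_back (P : Pt W (AlgebraicClosure K)) :
    tm (sc_any' hW (e.symm : Qb →+* AlgebraicClosure K))
      (tm (sc_any hW (e : AlgebraicClosure K →+* Qb)) P) = P := by
  have S : Sc (RingHom.id (AlgebraicClosure K)) 1 (W.baseChange (AlgebraicClosure K))
      (W.baseChange (AlgebraicClosure K)) := by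
    refine ⟨one_ne_zero, ?_, ?_, ?_, ?_, ?_⟩ <;> simp
  rw [tm_tm _ _ S (fun x => e.symm_apply_apply x), tm_id S (fun x => rfl) rfl]
  rw [map_one, mul_one]

lemma rs_tr (f : Coch W) : rs hW e (tr hW e f) = f := by
  funext σ
  show tm (sc_any' hW (e.symm : Qb →+* AlgebraicClosure K))
    (tm (sc_any hW (e : AlgebraicClosure K →+* Qb)) (f (cF e (cQ e σ)))) = f σ
  rw [cF_cQ, tm_back hW e]

lemma rs_congr {c c' : Gal ℚ → Pt E Qb} (h : ∀ x, Fx e x → c x = c' x) :
    rs hW e c = rs hW e c' := by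
  funext σ
  unfold rs
  rw [h _ (cQ_fx e σ)]

lemma cob_iff (f : Coch W) : IsCob W f ↔ CB e (tr hW e f) := by
  constructor
  · rintro ⟨P, hP⟩
    exact ⟨_, fun h hh => tr_cob hW e hP hh⟩
  · rintro ⟨P, hP⟩
    obtain ⟨P', hP'⟩ := any_surj hW e P
    refine ⟨P', fun σ => ?_⟩
    apply tm_inj (sc_any hW (e : AlgebraicClosure K →+* Qb))
    have h1 := hP _ (cQ_fx e σ)
    have h2 : tr hW e f (cQ e σ) = tm (sc_any hW (e : AlgebraicClosure K →+* Qb)) (f σ) := by
      show tm (sc_any hW (e : AlgebraicClosure K →+* Qb)) (f (cF e (cQ e σ))) = _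
      rw [cF_cQ]
    have h3 : tm (sc_any hW (e : AlgebraicClosure K →+* Qb)) P' = P := hP'
    rw [h2] at h1
    rw [h1, map_sub, h3]
    have h4 := tp_act hW e σ P'
    have h5 : tm (sc_any hW (e : AlgebraicClosure K →+* Qb)) (act W σ.toAlgHom P') =
      act E (cQ e σ).toAlgHom (tm (sc_any hW (e : AlgebraicClosure K →+* Qb)) P') := h4
    rw [h5, h3]
    rfl

lemma tr_nsmul' (n : ℕ) (f : Coch W) : tr hW e (n • f) = n • tr hW e f := by
  funext g
  exact map_nsmul (tm (sc_any hW (e : AlgebraicClosure K →+* Qb))) _ _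

/-- the points over `K` in the points over the algebraic closure -/
noncomputable def jj : MP W →+ Pt E Qb := (tp hW e).comp (Y682.inc W)

lemma jj_inj : Function.Injective (jj hW e) := by
  intro P Q h
  exact inc_inj W (tm_inj (sc_any hW (e : AlgebraicClosure K →+* Qb)) h)

/-- rational points -/
def Ra (P : Pt E Qb) : Prop := ∀ h, Fx e h → aG E h P = P

lemma mem_jj {P : Pt E Qb} : P ∈ (jj hW e).range ↔ Ra e P := by
  constructor
  · rintro ⟨Q, rfl⟩ h hh
    have h1 := dl_inc (W := W) Q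
    have h2 := congrFun (congrArg (fun f => tr hW e f) h1) h
    have h3 : tr hW e (dl (Y682.inc W Q)) h = aG E h (jj hW e Q) - jj hW e Q :=
      tr_cob hW e (f := dl (Y682.inc W Q)) (P := Y682.inc W Q) (fun σ => rfl) hh
    have h4 : tr hW e (0 : Coch W) h = 0 := by
      show tm (sc_any hW (e : AlgebraicClosure K →+* Qb)) 0 = 0
      exact map_zero _
    have h5 : tr hW e (dl (Y682.inc W Q)) h = tr hW e (0 : Coch W) h := h2
    rw [h3, h4] at h5
    exact sub_eq_zero.1 h5
  · intro hP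
    obtain ⟨P', h2⟩ := any_surj hW e P
    have h3 : dl P' = 0 := by
      funext σ
      rw [dl_apply]
      change _ = (0 : Pt W (AlgebraicClosure K))
      rw [sub_eq_zero]
      apply tm_inj (sc_any hW (e : AlgebraicClosure K →+* Qb))
      refine (tp_act hW e σ P').trans ?_
      have h4 : tp hW e P' = P := h2
      rw [h4]
      have h5 := hP (cQ e σ) (cQ_fx e σ)
      exact h5
    obtain ⟨Q, hQ⟩ := exists_inc h3
    exact ⟨Q, by
      show tp hW e (Y682.inc W Q) = P
      rw [hQ]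
      exact h2⟩

end one

section

variable {F : Type} [Field F] [NumberField F] [Algebra ℚ F]
  {K : Type} [Field K] [NumberField K] [Algebra ℚ K] {E : WeierstrassCurve ℚ}
  {V : WeierstrassCurve F} {W : WeierstrassCurve K}
  (hV : Sc (algebraMap ℚ F) 1 E V) (hW : Sc (algebraMap ℚ K) 1 E W)
  (eF : AlgebraicClosure F ≃+* Qb) (eK : AlgebraicClosure K ≃+* Qb)
  (hle : ∀ h, Fx eK h → Fx eF h)
  {A B : ℤ} (hTQ : IsT E (A : ℚ) (B : ℚ)) (hT : IsT W (A : K) (B : K))
  (hU : Rel A B eK (HF eF)) (hodd : Odd (Module.finrank ℚ K))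

include hU in
lemma hnm_of : ∀ σ, Fx eF σ → ∀ h, Fx eK h → Fx eK (σ⁻¹ * h * σ) := by
  intro σ hσ h hh
  obtain ⟨γ, hγ, -, -⟩ := hU σ hσ
  exact nm_of hγ h hh

include hle hU in
lemma pow_mem : ∀ σ ∈ HF eF, Fx eK (σ ^ (HH' eF eK).index) := by
  intro σ hσ
  have hN : (HH' eF eK).Normal := by
    refine ⟨fun n hn g => ?_⟩
    rw [Subgroup.mem_subgroupOf] at hn ⊢
    have h1 := hnm_of eF eK hU _ (inv_mem g.2) _ hn
    rw [inv_inv] at h1
    exact h1
  have h1 := (HH' eF eK).pow_index_mem (⟨σ, hσ⟩ : HF eF)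
  rw [Subgroup.mem_subgroupOf] at h1
  exact h1

/-- the restriction on the cocycles -/
noncomputable def resC : Pool.Agent.TH841.NF.D.shaCoc V →+ Pool.Agent.TH841.NF.D.shaCoc W where
  toFun f := ⟨rs hW eK (tr hV eF f.1), by
    obtain ⟨f', hf', h⟩ := SH.res (hV := hV) hW eF eK hle (c := tr hV eF f.1)
      ⟨f.1, f.2, fun _ _ => rfl⟩
    have h1 : rs hW eK (tr hV eF f.1) = f' := by
      rw [rs_congr hW eK h, rs_tr]
    rw [h1]
    exact hf'⟩
  map_zero' := by
    apply Subtype.ext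
    show rs hW eK (tr hV eF 0) = 0
    have h1 : tr hV eF (0 : Coch V) = 0 := by
      have h := tr_add hV eF 0 0
      rw [add_zero] at h
      exact left_eq_add.1 h
    have h2 := rs_add hW eK 0 0
    rw [add_zero] at h2
    rw [h1]
    exact left_eq_add.1 h2
  map_add' f g := by
    apply Subtype.ext
    exact (congrArg (rs hW eK) (tr_add hV eF f.1 g.1)).trans (rs_add hW eK _ _)

lemma tr_resC (f : Pool.Agent.TH841.NF.D.shaCoc V) {h : Gal ℚ} (hh : Fx eK h) :
    tr hW eK (resC hV hW eF eK hle f).1 h = tr hV eF f.1 h :=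
  tr_rs hW eK (tr hV eF f.1) hh

/-- the class -/
noncomputable def mkS {L : Type} [Field L] [NumberField L] (X : WeierstrassCurve L) :
    Pool.Agent.TH841.NF.D.shaCoc X →+ Pool.Agent.TH841.NF.D.Sha X :=
  QuotientAddGroup.mk' ((cob X).addSubgroupOf (Pool.Agent.TH841.NF.D.shaCoc X))

lemma mkS_surj {L : Type} [Field L] [NumberField L] (X : WeierstrassCurve L) :
    Function.Surjective (mkS X) :=
  QuotientAddGroup.mk'_surjective ((cob X).addSubgroupOf (Pool.Agent.TH841.NF.D.shaCoc X))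

lemma mkS_zero {L : Type} [Field L] [NumberField L] (X : WeierstrassCurve L)
    (f : Pool.Agent.TH841.NF.D.shaCoc X) : mkS X f = 0 ↔ IsCob X f.1 :=
  QuotientAddGroup.eq_zero_iff (N := (cob X).addSubgroupOf (Pool.Agent.TH841.NF.D.shaCoc X)) f

/-- the restriction on the Tate-Shafarevich groups -/
noncomputable def resS : Pool.Agent.TH841.NF.D.Sha V →+ Pool.Agent.TH841.NF.D.Sha W :=
  QuotientAddGroup.map ((cob V).addSubgroupOf (Pool.Agent.TH841.NF.D.shaCoc V))
    ((cob W).addSubgroupOf (Pool.Agent.TH841.NF.D.shaCoc W))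
    (resC hV hW eF eK hle) (fun f hf => by
      have h1 : CB eF (tr hV eF f.1) := (cob_iff hV eF f.1).1 hf
      show IsCob W (resC hV hW eF eK hle f).1
      rw [cob_iff hW eK]
      obtain ⟨P, hP⟩ := h1
      exact ⟨P, fun h hh => (tr_resC hV hW eF eK hle f hh).trans (hP h (hle h hh))⟩)

lemma resS_mk (f : Pool.Agent.TH841.NF.D.shaCoc V) :
    resS hV hW eF eK hle (mkS V f) = mkS W (resC hV hW eF eK hle f) := rfl

/-- the last step -/
lemma last_step {G H : Type} [AddCommGroup G] [AddCommGroup H] (φ : G →+ H) {n m : ℕ} (hn : Odd n)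
    {x : G} {y : H} (hx : 2 ^ m • x = 0) (hy : 2 ^ m • y = 0) (h : φ x = n • y) :
    ∃ x' : G, 2 ^ m • x' = 0 ∧ φ x' = y := by
  obtain ⟨a, b, hab⟩ := Nat.isCoprime_iff_coprime.2
    (Nat.Coprime.pow_right m (Nat.coprime_two_right.2 hn))
  refine ⟨a • x, ?_, ?_⟩
  · rw [smul_comm, hx, smul_zero]
  · rw [map_zsmul, h]
    have h8 : (b * ((2 ^ m : ℕ) : ℤ)) • y = 0 := by
      rw [mul_smul, natCast_zsmul, hy, smul_zero]
    have h9 := congrArg (fun z : ℤ => z • y) hab
    simp only [add_smul, one_smul] at h9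
    rw [h8, add_zero, mul_smul, natCast_zsmul] at h9
    exact h9

include hV hW hle hTQ hT hU hodd in
/-- **the Tate-Shafarevich groups** -/
theorem sha_iso : Nonempty (AddCommGroup.primaryComponent (Pool.Agent.TH841.NF.D.Sha V) 2 ≃+
    AddCommGroup.primaryComponent (Pool.Agent.TH841.NF.D.Sha W) 2) := by
  obtain ⟨hfin, hno⟩ := fin_quot eF eK hle hodd
  have := Fintype.ofFinite (HF eF ⧸ HH' eF eK)
  have hnm := hnm_of eF eK hU
  set n := (HH' eF eK).index with hn
  refine prim_equiv (resS hV hW eF eK hle) ?_ ?_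
  · intro x m hm hx
    obtain ⟨f, rfl⟩ := mkS_surj V x
    rw [← map_nsmul, mkS_zero, cob_iff hV eF] at hm
    rw [resS_mk, mkS_zero, cob_iff hW eK] at hx
    have h1' : CB eF (2 ^ m • tr hV eF f.1) := by
      rw [← tr_nsmul']
      exact hm
    have h3 : CB eK (tr hV eF f.1) := hx.congr fun h hh => (tr_resC hV hW eF eK hle f hh).symm
    have h4 := inj_cb (hV := hV) eF eK (c := tr hV eF f.1) ⟨f.1, f.2, fun _ _ => rfl⟩ h3
    have h5 : CB eF (tr hV eF f.1) :=
      CB.of_coprime (Nat.Coprime.pow_right m (Nat.coprime_two_right.2 hno)) h4 h1'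
    exact (mkS_zero V f).2 ((cob_iff hV eF f.1).2 h5)
  · intro y m hm
    obtain ⟨g, rfl⟩ := mkS_surj W y
    have hm' := hm
    rw [← map_nsmul, mkS_zero, cob_iff hW eK] at hm
    set c : Gal ℚ → Pt E Qb := tr hW eK g.1 with hc
    have hcS : SH hW eK c := ⟨g.1, g.2, fun _ _ => rfl⟩
    have h1' : CB eK (2 ^ m • c) := by
      rw [hc, ← tr_nsmul']
      exact hm
    obtain ⟨f, hf, hfc⟩ := cr_SH (hW := hW) hV eF eK hle hnm hcS
    -- the restriction of the corestriction
    have h2 : CB eK (cr eF eK c - n • c) := by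
      have h3 : CB eK (∑ q : HF eF ⧸ HH' eF eK, (cj (rp eF eK q : Gal ℚ) c - c)) :=
        CB.sum Finset.univ _ fun q _ => trivm (hW := hW) hTQ hT hU hno
          (pow_mem eF eK hle hU) m c hcS h1' _ (rp eF eK q).2
      refine h3.congr fun h hh => ?_
      rw [Pi.sub_apply, cr_res eF eK hle hnm hh, Finset.sum_sub_distrib, Finset.sum_const,
        Finset.card_univ, Pi.sub_apply, Finset.sum_apply, hn, Subgroup.index,
        Nat.card_eq_fintype_card]
    have h3 : CB eF (2 ^ m • cr eF eK c) := by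
      rw [← cr_nsmul]
      exact cr_cb eF eK h1'
    set f' : Pool.Agent.TH841.NF.D.shaCoc V := ⟨f, hf⟩ with hf'
    refine last_step (resS hV hW eF eK hle) hno (x := mkS V f') ?_ hm' ?_
    · rw [← map_nsmul, mkS_zero]
      show IsCob V (2 ^ m • f)
      rw [cob_iff hV eF, tr_nsmul']
      exact h3.congr fun h hh => by
        rw [Pi.smul_apply, Pi.smul_apply, hfc h hh]
    · rw [resS_mk, ← sub_eq_zero, ← map_nsmul, ← map_sub, mkS_zero]
      show IsCob W ((resC hV hW eF eK hle f').1 - n • g.1)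
      rw [cob_iff hW eK]
      refine h2.congr fun h hh => ?_
      have h7 : tr hW eK ((resC hV hW eF eK hle f').1 - n • g.1) h =
          tr hW eK (resC hV hW eF eK hle f').1 h - tr hW eK (n • g.1) h :=
        map_sub (tm (sc_any hW (eK : AlgebraicClosure K →+* Qb))) _ _
      rw [h7, tr_resC hV hW eF eK hle f' hh, tr_nsmul', Pi.sub_apply]
      congr 1
      exact (hfc h (hle h hh)).symm

include hle hTQ hT hU hodd hW in
/-- the points modulo two -/
theorem pts_mod {P : Pt E Qb} (hP : Ra eK P) : ∃ P0 R : Pt E Qb, Ra eF P0 ∧ Ra eK R ∧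
    P = P0 + (R + R) := by
  obtain ⟨hfin, hno⟩ := fin_quot eF eK hle hodd
  have := Fintype.ofFinite (HF eF ⧸ HH' eF eK)
  have hnm := hnm_of eF eK hU
  obtain ⟨Q, hQ⟩ := exists_half hTQ P
  have key : ∀ q : HF eF ⧸ HH' eF eK, ∃ R : Pt E Qb, Ra eK R ∧
      aG E (rp eF eK q : Gal ℚ) P - P = R + R := by
    intro q
    obtain ⟨γ, hγ, hg1, hg2⟩ := hU (rp eF eK q : Gal ℚ) (rp eF eK q).2
    have hdQ : CB eK (fun h => aG E h Q - Q) := ⟨Q, fun h _ => rfl⟩
    obtain ⟨S, hS, hS2⟩ := triv2 (hW := hW) hTQ hT hγ hg1 hg2 hno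
      (pow_mem eF eK hle hU _ (rp eF eK q).2) (SH.of_cb hdQ) (by
      intro h hh
      have h3 := hP h hh
      rw [hQ, map_add] at h3
      have h4 : aG E h Q - Q + (aG E h Q - Q) = (aG E h Q + aG E h Q) - (Q + Q) := by abel
      rw [h4, h3, sub_self])
    set σ : Gal ℚ := (rp eF eK q : Gal ℚ) with hσ
    refine ⟨aG E σ Q - Q - S, fun h hh => ?_, ?_⟩
    · have h5 := hS2 h hh
      have h6 : cj σ (fun h => aG E h Q - Q) h = aG E h (aG E σ Q) - aG E σ Q := by
        show aG E σ (aG E (σ⁻¹ * h * σ) Q - Q) = _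
        rw [map_sub, ← a_mul, ← a_mul]
        congr 3
        group
      rw [h6] at h5
      rw [map_sub, map_sub, ← sub_eq_zero]
      have h7 : aG E h (aG E σ Q) - aG E h Q - aG E h S - (aG E σ Q - Q - S) =
          (aG E h (aG E σ Q) - aG E σ Q - (aG E h Q - Q)) - (aG E h S - S) := by abel
      rw [h7, h5, sub_self]
    · rw [hQ, map_add]
      have h7 : aG E σ Q - Q - S + (aG E σ Q - Q - S) =
          (aG E σ Q + aG E σ Q) - (Q + Q) - (S + S) := by abel
      rw [h7, hS, sub_zero]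
  choose R hR1 hR2 using key
  set P0 : Pt E Qb := ∑ q : HF eF ⧸ HH' eF eK, aG E (rp eF eK q : Gal ℚ) P with hP0
  have hP0F : Ra eF P0 := by
    intro g hg
    rw [hP0, map_sum]
    have h1 : ∀ q : HF eF ⧸ HH' eF eK, aG E g (aG E (rp eF eK q : Gal ℚ) P) =
        aG E (rp eF eK ((⟨g, hg⟩ : HF eF) • q) : Gal ℚ) P := by
      intro q
      have hm := mem_H (rp_spec eF eK) (⟨g, hg⟩ : HF eF) q
      rw [Subgroup.mem_subgroupOf] at hm
      have h2 := hP _ hm
      have h5 : g * (rp eF eK q : Gal ℚ) = (rp eF eK ((⟨g, hg⟩ : HF eF) • q) : Gal ℚ) *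
          (((rp eF eK ((⟨g, hg⟩ : HF eF) • q))⁻¹ * ⟨g, hg⟩ * rp eF eK q : HF eF) : Gal ℚ) := by
        push_cast
        group
      rw [← a_mul, h5, a_mul, h2]
    rw [Finset.sum_congr rfl fun q _ => h1 q]
    exact Equiv.sum_comp (MulAction.toPerm (⟨g, hg⟩ : HF eF) : Equiv.Perm (HF eF ⧸ HH' eF eK))
      (fun q : HF eF ⧸ HH' eF eK => aG E (rp eF eK q : Gal ℚ) P)
  obtain ⟨k, hk⟩ := hno
  have hsum : P0 = (HH' eF eK).index • P + (∑ q, R q + ∑ q, R q) := by
    have h1 : ∀ q : HF eF ⧸ HH' eF eK, aG E (rp eF eK q : Gal ℚ) P = P + (R q + R q) := by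
      intro q
      rw [← hR2 q]
      abel
    rw [hP0, Finset.sum_congr rfl fun q _ => h1 q, Finset.sum_add_distrib, Finset.sum_add_distrib,
      Finset.sum_const, Finset.card_univ, Subgroup.index, Nat.card_eq_fintype_card]
  refine ⟨P0, -(k • P + ∑ q, R q), hP0F, ?_, ?_⟩
  · intro h hh
    rw [map_neg, map_add, map_nsmul, map_sum, hP h hh,
      Finset.sum_congr rfl fun q _ => hR1 q h hh]
  · rw [hsum, hk, add_smul, one_smul, mul_comm, mul_smul, two_smul]
    have h2 : ∀ X : Pt E Qb, k • (P + P) = k • P + k • P := fun _ => smul_add _ _ _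
    rw [h2 P]
    abel

include hle hTQ hT hU hodd hV hW in
/-- **the ranks** -/
theorem rank_rel : Module.finrank ℤ (MP W) = Module.finrank ℤ (MP V) := by
  have h1 : Module.Finite ℤ (MP W) := fg_MP hT
  have hle' : (jj hV eF).range ≤ (jj hW eK).range := by
    intro P hP
    rw [mem_jj] at hP ⊢
    exact fun h hh => hP h (hle h hh)
  have e1 : Module.finrank ℤ (MP W) = Module.finrank ℤ (jj hW eK).range :=
    (AddMonoidHom.ofInjective (jj_inj hW eK)).toIntLinearEquiv.finrank_eq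
  have e2 : Module.finrank ℤ (MP V) = Module.finrank ℤ (jj hV eF).range :=
    (AddMonoidHom.ofInjective (jj_inj hV eF)).toIntLinearEquiv.finrank_eq
  have hfin : Module.Finite ℤ (jj hW eK).range :=
    Module.Finite.of_surjective (jj hW eK).rangeRestrict.toIntLinearMap
      (jj hW eK).rangeRestrict_surjective
  set N : Submodule ℤ (jj hW eK).range :=
    AddSubgroup.toIntSubmodule ((jj hV eF).range.addSubgroupOf (jj hW eK).range) with hN
  have e3 : Module.finrank ℤ N = Module.finrank ℤ (jj hV eF).range :=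
    (AddSubgroup.addSubgroupOfEquivOfLe hle').toIntLinearEquiv.finrank_eq
  have e4 := Submodule.finrank_quotient_add_finrank N
  have e5 : Module.finrank ℤ ((jj hW eK).range ⧸ N) = 0 := by
    apply finrank_zero
    intro x
    obtain ⟨⟨P, hP⟩, rfl⟩ := Submodule.Quotient.mk_surjective N x
    obtain ⟨P0, R, hP0, hR, h⟩ := pts_mod (hW := hW) eF eK hle hTQ hT hU hodd
      ((mem_jj hW eK).1 hP)
    refine ⟨Submodule.Quotient.mk ⟨R, (mem_jj hW eK).2 hR⟩, ?_⟩
    have h2 : (⟨P, hP⟩ : (jj hW eK).range) - 2 • (⟨R, (mem_jj hW eK).2 hR⟩ : (jj hW eK).range) ∈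
        N := by
      show (⟨P, hP⟩ : (jj hW eK).range) - 2 • (⟨R, (mem_jj hW eK).2 hR⟩ : (jj hW eK).range) ∈
        (jj hV eF).range.addSubgroupOf (jj hW eK).range
      rw [AddSubgroup.mem_addSubgroupOf]
      have h3 : (((⟨P, hP⟩ : (jj hW eK).range) -
          2 • (⟨R, (mem_jj hW eK).2 hR⟩ : (jj hW eK).range) : (jj hW eK).range) : Pt E Qb) =
          P0 := by
        show P - 2 • R = P0
        rw [h, two_nsmul]
        abel
      rw [h3, mem_jj]
      exact hP0
    have h4 := (Submodule.Quotient.eq N).2 h2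
    rw [h4]
    exact Submodule.Quotient.mk_smul N 2 _
  rw [e1, e2, ← e3]
  omega

end

end Pool.Agent.Helper891_XS
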