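import Mathlib
import Pool.Agent.Helper891_XS.Sd
import Pool.Agent.Helper891_XR.Xd
import Pool.Agent.Helper891_XR.Xg
import Pool.Agent.Y682.XF.Dsc

/-!
# The descent for the twists of `X_0(14)`, over `F` and `K`
-/

set_option autoImplicit false
set_option linter.unusedSectionVars false

attribute [-instance] DivisionRing.toRatAlgebra

namespace Pool.Agent.Helper891_XS

open WeierstrassCurve NumberField IsDedekindDomain NumberField.InfinitePlace

open Pool.Agent.TH841.NF Pool.Agent.Y682 Pool.Agent.Y702.A Pool.Agent.Y65.Sham Pool.Agent.R431.T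

open Pool.Agent.Helper891_XR

open Pool.Agent.TH841.SH.D (Pt act Gal Coch IsCoc IsCob LocTriv cob)

lemma exists_e (K : Type) [Field K] [NumberField K] [Algebra ℚ K]
    (e₀ : K →+* AlgebraicClosure ℚ) :
    ∃ e : AlgebraicClosure K ≃+* Qb, ∀ x : K, em e x = e₀ x := by
  let i1 : Algebra K Qb := e₀.toAlgebra
  have i2 : IsScalarTower ℚ K Qb :=
    IsScalarTower.of_algebraMap_eq (fun x => (rat_hom (e₀.comp (algebraMap ℚ K)) x).symm)
  have i3 : Algebra.IsAlgebraic K Qb := Algebra.IsAlgebraic.tower_top (K := ℚ) K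
  have i4 : IsAlgClosure K Qb := ⟨inferInstance, inferInstance⟩
  exact ⟨(IsAlgClosure.equiv K (AlgebraicClosure K) Qb).toRingEquiv,
    fun x => (IsAlgClosure.equiv K (AlgebraicClosure K) Qb).commutes x⟩

/-- the descent for the model `gc` -/
theorem stab_rel {D : ℤ} (F K : Type) [Field F] [NumberField F] [Field K] [NumberField K]
    [iF : Algebra ℚ F] [iK : Algebra ℚ K] (hgal : IsGalois ℚ K)
    (i : F →+* K)
    (hre : ∀ w : InfinitePlace K, w.IsReal)
    (hcl : Odd (Nat.card (NCl K))) (hodd : Odd (Module.finrank ℚ K))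
    (hp2 : (Ideal.span {((2 : ℕ) : 𝓞 K)}).IsPrime) (hp7 : (Ideal.span {((7 : ℕ) : 𝓞 K)}).IsPrime)
    (hD : Odd D)
    (hfr : ∀ γ : K ≃+* K, (∀ x, γ (i x) = i x) →
      ∀ p : ℕ, p.Prime → (p : ℤ) ∣ D → ∀ v : HeightOneSpectrum (𝓞 K), (p : 𝓞 K) ∈ v.asIdeal →
        ∀ x, v.valuation K (γ x) = v.valuation K x) :
    Module.finrank ℤ (MP ((VD D).map (Int.castRingHom K))) =
      Module.finrank ℤ (MP ((VD D).map (Int.castRingHom F))) ∧
    Nonempty (AddCommGroup.primaryComponent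
      (Pool.Agent.TH841.NF.D.Sha ((VD D).map (Int.castRingHom F))) 2 ≃+
      AddCommGroup.primaryComponent
      (Pool.Agent.TH841.NF.D.Sha ((VD D).map (Int.castRingHom K))) 2) := by
  classical
  obtain ⟨e₀⟩ : Nonempty (K →+* AlgebraicClosure ℚ) :=
    ⟨(IsAlgClosed.lift : K →ₐ[ℚ] AlgebraicClosure ℚ).toRingHom⟩
  obtain ⟨eK, heK⟩ := exists_e K e₀
  obtain ⟨eF, heF⟩ := exists_e F (e₀.comp i)
  have hV : Sc (algebraMap ℚ F) 1 (EQ (VD D)) ((VD D).map (Int.castRingHom F)) := by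
    refine ⟨one_ne_zero, ?_, ?_, ?_, ?_, ?_⟩ <;> simp
  have hW : Sc (algebraMap ℚ K) 1 (EQ (VD D)) ((VD D).map (Int.castRingHom K)) := by
    refine ⟨one_ne_zero, ?_, ?_, ?_, ?_, ?_⟩ <;> simp
  have hd0 : D ≠ 0 := by
    rintro rfl
    exact absurd hD (by decide)
  have hT := vd_isT hd0 K
  have hTQ := vd_isT hd0 ℚ
  have hle : ∀ h, Fx eK h → Fx eF h := by
    intro h hh x
    have h1 : h (em eK (i x)) = em eK (i x) := hh (i x)
    show h (em eF x) = em eF x
    rw [heF]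
    show h (e₀ (i x)) = e₀ (i x)
    rw [← heK]
    exact h1
  have hrel : Rel (13 * D) (128 * D ^ 2) eK (HF eF) := by
    intro σ hσ
    have hσ' : Fx eF σ := hσ
    let i1 : Algebra K Qb := e₀.toAlgebra
    have i2 : IsScalarTower ℚ K Qb :=
      IsScalarTower.of_algebraMap_eq (fun x => (rat_hom (e₀.comp (algebraMap ℚ K)) x).symm)
    set τ : K ≃ₐ[ℚ] K := AlgEquiv.restrictNormal (F := ℚ) σ K with hτ
    have hcomm : ∀ x : K, e₀ (τ x) = σ (e₀ x) := fun x => AlgEquiv.restrictNormal_commutes σ K x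
    refine ⟨(τ : K ≃+* K), fun x => ?_, ?_⟩
    · rw [heK, heK]
      exact (hcomm x).symm
    · refine rel_D hre hcl hodd hp2 hp7 hD (hfr _ fun x => ?_)
      apply e₀.injective
      refine (hcomm (i x)).trans ?_
      have h1 : σ (em eF x) = em eF x := hσ' x
      rw [heF] at h1
      exact h1
  exact ⟨rank_rel hV hW eF eK hle hTQ hT hrel hodd, sha_iso hV hW eF eK hle hTQ hT hrel hodd⟩

/-- the descent for the model `gc` -/
theorem stab_rel' {D : ℤ} (F K : Type) [Field F] [NumberField F] [Field K] [NumberField K]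
    (hgal : @IsGalois ℚ _ K _ (DivisionRing.toRatAlgebra (R := K)))
    (i : F →+* K)
    (hre : ∀ w : InfinitePlace K, w.IsReal)
    (hcl : Odd (Nat.card (NCl K)))
    (hodd : Odd (@Module.finrank ℚ K _ _ (DivisionRing.toRatAlgebra (R := K)).toModule))
    (hp2 : (Ideal.span {((2 : ℕ) : 𝓞 K)}).IsPrime) (hp7 : (Ideal.span {((7 : ℕ) : 𝓞 K)}).IsPrime)
    (hD : Odd D)
    (hfr : ∀ γ : K ≃+* K, (∀ x, γ (i x) = i x) →
      ∀ p : ℕ, p.Prime → (p : ℤ) ∣ D → ∀ v : HeightOneSpectrum (𝓞 K), (p : 𝓞 K) ∈ v.asIdeal →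
        ∀ x, v.valuation K (γ x) = v.valuation K x) :
    Pool.Agent.TH841.NF.D.rk (gc (13 * D) (128 * D ^ 2) K) =
      Pool.Agent.TH841.NF.D.rk (gc (13 * D) (128 * D ^ 2) F) ∧
    Nonempty (AddCommGroup.primaryComponent
      (Pool.Agent.TH841.NF.D.Sha (gc (13 * D) (128 * D ^ 2) K)) 2 ≃+
      AddCommGroup.primaryComponent
      (Pool.Agent.TH841.NF.D.Sha (gc (13 * D) (128 * D ^ 2) F)) 2) := by
  let iF : Algebra ℚ F := DivisionRing.toRatAlgebra
  let iK : Algebra ℚ K := DivisionRing.toRatAlgebra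
  obtain ⟨h1, ⟨h2⟩⟩ := stab_rel (D := D) F K hgal i hre hcl hodd hp2 hp7 hD hfr
  rw [vd_map, vd_map] at h1
  have e1 : Pool.Agent.TH841.NF.D.rk (gc (13 * D) (128 * D ^ 2) K) =
      Module.finrank ℤ (MP (gc (13 * D) (128 * D ^ 2) K)) := by
    unfold Pool.Agent.TH841.NF.D.rk
    congr
  have e2 : Pool.Agent.TH841.NF.D.rk (gc (13 * D) (128 * D ^ 2) F) =
      Module.finrank ℤ (MP (gc (13 * D) (128 * D ^ 2) F)) := by
    unfold Pool.Agent.TH841.NF.D.rk
    congr
  refine ⟨e1.trans (h1.trans e2.symm), ?_⟩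
  rw [← vd_map, ← vd_map]
  exact ⟨h2.symm⟩

end Pool.Agent.Helper891_XS
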