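import Mathlib
import Pool.Agent.Helper891_XS.Se

/-!
# Curves with a rational point of order two, over `F` and `K`
-/

set_option autoImplicit false
set_option linter.unusedSectionVars false

attribute [-instance] DivisionRing.toRatAlgebra

namespace Pool.Agent.Helper891_XS

open WeierstrassCurve NumberField IsDedekindDomain NumberField.InfinitePlace

open Pool.Agent.TH841.NF Pool.Agent.Y682 Pool.Agent.Y702.A Pool.Agent.Y65.Sham Pool.Agent.R431.T

open Pool.Agent.Helper891_XR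

open Pool.Agent.TH841.SH.D (Pt act Gal Coch IsCoc IsCob LocTriv cob)

section sq

variable {F : Type} [Field F] [NumberField F] [IsTotallyReal F] [Algebra ℚ F]
  [FiniteDimensional ℚ F] {A B : ℤ}

/-- the second class at two, `A` odd, not exceptional -/
lemma two_odd' {b : F} {v : HeightOneSpectrum (𝓞 F)}
    (hp : (Ideal.span {(2 : 𝓞 F)}).IsPrime) (hv : (2 : 𝓞 F) ∈ v.asIdeal)
    (hodd : Odd (Module.finrank ℚ F)) (hpar : A % 2 = 1) (hn3 : A % 4 = 1 ∨ B % 4 < 2)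
    (hloc : ∃ z m : v.adicCompletion F, z ≠ 0 ∧
      algebraMap F (v.adicCompletion F) b * z ^ 2 = m ∧
        S2 (A : v.adicCompletion F) (B : v.adicCompletion F) m) :
    UnrC (v.valuation F) b ∨ UnrC (v.valuation F) (-b) := by
  have := charZero_adic v
  obtain ⟨z, m, hz, hzm, hm⟩ := hloc
  have hens : ∀ t : v.adicCompletion F, vv v t < vv v 4 → ∃ y, y ^ 2 = 1 + t :=
    fun t ht => exists_sqrt v t ht
  have h2 : vv v 2 = WithZero.exp (-1 : ℤ) := by
    have h1 : (2 : v.adicCompletion F) = algebraMap F _ 2 := (map_ofNat _ 2).symm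
    rw [h1, vv_coe, two_val' hp hv]
  have h21 := w2_lt_one h2
  have h41 : vv v 4 < 1 := by
    rw [w_four]
    exact mul_lt_one_of_nonneg_of_lt_one_left zero_le h21 h21.le
  -- the class `m`
  have key : UnrC (vv v) m ∨ UnrC (vv v) (-m) := by
    have hDu : UnrC (vv v) ((A : v.adicCompletion F) ^ 2 - 4 * (B : v.adicCompletion F)) := by
      have hD1 : vv v ((A : v.adicCompletion F) ^ 2 - 4 * (B : v.adicCompletion F)) = 1 := by
        obtain ⟨k, hk⟩ : ∃ k : ℤ, A = 1 + 2 * k := ⟨(A - 1) / 2, by omega⟩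
        have e : (A : v.adicCompletion F) ^ 2 - 4 * (B : v.adicCompletion F) =
            1 + 4 * ((k + k ^ 2 - B : ℤ) : v.adicCompletion F) := by
          rw [hk]; push_cast; ring
        rw [e]
        exact w_one_add (w_mul_lt_one h41 (w_int_le_one _))
      refine ⟨1, A, -B, one_ne_zero, by ring, by rw [one_pow, mul_one, hD1], w_int_le_one A, ?_⟩
      rw [Valuation.map_neg]
      exact w_int_le_one B
    rcases hm with hm | hm | ⟨hm0, y, hy⟩
    · left
      rw [hm, ← one_pow 2]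
      exact UnrC.sq one_ne_zero
    · left
      rw [hm]
      exact hDu
    · obtain ⟨k, hk⟩ : ∃ k : ℤ, B = B % 4 + 4 * k := ⟨B / 4, by omega⟩
      have hj : B % 4 = 0 ∨ B % 4 = 1 ∨ B % 4 = 2 ∨ B % 4 = 3 := by omega
      have hB4 : (B : v.adicCompletion F) = ((B % 4 : ℤ) : v.adicCompletion F) +
          4 * (k : v.adicCompletion F) := by
        conv_lhs => rw [hk]
        push_cast
        ring
      have hcases : A % 4 = 1 ∨ A % 4 = 3 := by omega
      rcases hcases with h4 | h4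
      · obtain ⟨a, ha⟩ : ∃ a : ℤ, A = 1 + 4 * a := ⟨(A - 1) / 4, by omega⟩
        refine gen_odd hens h2 (A := A) (B := B) (ε := 1) (m := a) (k := k)
          (w_int_le_one a) (by rw [ha]; push_cast; ring) (w_int_le_one k) hB4
          (Or.inl rfl) hj (fun q hq h => hres_three hp hv hodd q hq h) ?_ hm0 hy
        intro h
        exfalso
        have h5 : (1 : v.adicCompletion F) + 1 = 0 := by
          nth_rewrite 2 [h]
          ring
        norm_num at h5
      · obtain ⟨a, ha⟩ : ∃ a : ℤ, A = -1 + 4 * a := ⟨(A + 1) / 4, by omega⟩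
        refine gen_odd hens h2 (A := A) (B := B) (ε := -1) (m := a) (k := k)
          (w_int_le_one a) (by rw [ha]; push_cast; ring) (w_int_le_one k) hB4
          (Or.inr rfl) hj (fun q hq h => hres_three hp hv hodd q hq h) ?_ hm0 hy
        intro _ hj' q hq h
        omega
  rcases key with h | h
  · left
    apply UnrC.desc
    refine h.of_eq (inv_ne_zero hz) ?_
    rw [← hzm]
    field_simp
  · right
    apply UnrC.desc
    refine h.of_eq (inv_ne_zero hz) ?_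
    rw [← hzm, map_neg]
    field_simp

/-- **the second class** -/
theorem rel2' (γ : F ≃+* F) (hpar : A % 2 = 1) (hn3 : A % 4 = 1 ∨ B % 4 < 2)
    (hp2 : (Ideal.span {(2 : 𝓞 F)}).IsPrime) (hodd : Odd (Module.finrank ℚ F))
    (hcl : Odd (Nat.card (NCl F)))
    (hγ : ∀ v : HeightOneSpectrum (𝓞 F), ((2 : 𝓞 F) ∈ v.asIdeal ∨
      v.valuation F ((A ^ 2 - 4 * B : ℤ) : F) ≠ 1) →
      ∀ x, v.valuation F (γ x) = v.valuation F x)
    (b : Fˣ) (hL : L2 A B (b : F)) : ∃ y : Fˣ, γ (b : F) * b = (y : F) ^ 2 := by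
  have hγb : γ (b : F) ≠ 0 := (map_ne_zero_iff γ γ.injective).2 b.ne_zero
  obtain ⟨y, hy⟩ := sq_of_unrC hcl (Units.mk0 (γ (b : F)) hγb * b) (by
    intro v
    rw [Units.val_mul, Units.val_mk0]
    obtain ⟨w, hw⟩ := exists_pull γ v
    by_cases h2 : (2 : 𝓞 F) ∈ v.asIdeal
    · have hf : ∀ x, v.valuation F x = v.valuation F (γ x) := fun x => (hγ v (Or.inl h2) x).symm
      rcases two_odd' hp2 h2 hodd hpar hn3 (hL.1 v) with h | h
      · exact (unr_pull hf h).mul h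
      · have h3 := (unr_pull hf h).mul h
        rwa [map_neg, neg_mul_neg] at h3
    · by_cases h3 : v.valuation F ((A ^ 2 - 4 * B : ℤ) : F) = 1
      · have h4 := val_two h2
        have h5 := unr_good (v := w) hL (by rw [hw, map_ofNat, h4]) (by rw [hw, map_intCast, h3])
        exact (unr_pull hw h5).mul (unr_good hL h4 h3)
      · exact unr_of_exp (val_two h2) (exp_fix (hγ v (Or.inr h3)) b.ne_zero))
  refine ⟨y, ?_⟩
  have h6 := congrArg Units.val hy
  rw [Units.val_mul, Units.val_mk0, Units.val_pow_eq_pow_val] at h6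
  exact h6.symm

end sq

/-- the class of pairs -/
def Cls (a c : ℤ) : Prop :=
  a % 2 = 1 ∧ (a % 4 = 1 ∨ c % 4 < 2) ∧ 0 < c ∧ (a < 0 ∨ a ^ 2 < 4 * c) ∧ a ^ 2 ≠ 4 * c

/-- the curve or the isogenous one -/
def Crv (a c A B : ℤ) : Prop := (A = a ∧ B = c) ∨ (A = -2 * a ∧ B = a ^ 2 - 4 * c)

lemma rel_AB {a c A B : ℤ} (hcls : Cls a c) (hAB : Crv a c A B)
    {K : Type} [Field K] [NumberField K] [Algebra ℚ K]
    (htr : IsTotallyReal K)
    (hcl : Odd (Nat.card (NCl K))) (hodd : Odd (Module.finrank ℚ K))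
    (hp2 : (Ideal.span {(2 : 𝓞 K)}).IsPrime) {γ : K ≃+* K}
    (hγ : ∀ p : ℕ, p.Prime → (p : ℤ) ∣ c * (a ^ 2 - 4 * c) → ∀ v : HeightOneSpectrum (𝓞 K),
      (p : 𝓞 K) ∈ v.asIdeal → ∀ x, v.valuation K (γ x) = v.valuation K x) :
    (∀ b : Kˣ, L1 A B (b : K) → ∃ y : Kˣ, γ (b : K) * b = (y : K) ^ 2) ∧
    (∀ b : Kˣ, L2 A B (b : K) → ∃ y : Kˣ, γ (b : K) * b = (y : K) ^ 2) := by
  obtain ⟨ha, hn3, hc, hs, hne⟩ := hcls
  have hD0 : a ^ 2 - 4 * c ≠ 0 := sub_ne_zero.2 hne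
  have hfin : FiniteDimensional ℚ K := by
    have h1 : Module.finrank ℚ K ≠ 0 := by
      intro h0
      rw [h0] at hodd
      exact absurd hodd (by decide)
    exact Module.finite_of_finrank_pos (Nat.pos_of_ne_zero h1)
  have h2 : ∀ v : HeightOneSpectrum (𝓞 K), (2 : 𝓞 K) ∈ v.asIdeal →
      ∀ x, v.valuation K (γ x) = v.valuation K x := by
    intro v hv
    refine fix_of_uniq (p := 2) γ (fun w w' hw hw' => ?_) v (by rwa [Nat.cast_ofNat])
    rw [Nat.cast_ofNat] at hw hw'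
    exact HeightOneSpectrum.ext ((two_val hp2 hw).trans (two_val hp2 hw').symm)
  have r1 : ∀ b : Kˣ, L1 a c (b : K) → ∃ y : Kˣ, γ (b : K) * b = (y : K) ^ 2 := by
    intro b hb
    refine rel1 γ hc hs hcl ?_ b hb
    rintro v (h | h)
    · exact h2 v h
    · obtain ⟨p, hp, hpc, hpv⟩ := exists_prime v _ hc.ne' h
      exact hγ p hp (hpc.mul_right _) v hpv
  have r2 : ∀ b : Kˣ, L2 a c (b : K) → ∃ y : Kˣ, γ (b : K) * b = (y : K) ^ 2 := by
    intro b hb
    refine rel2' γ ha hn3 hp2 hodd hcl ?_ b hb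
    rintro v (h | h)
    · exact h2 v h
    · obtain ⟨p, hp, hpc, hpv⟩ := exists_prime v _ hD0 h
      exact hγ p hp (hpc.mul_left _) v hpv
  rcases hAB with ⟨rfl, rfl⟩ | ⟨rfl, rfl⟩
  · exact ⟨r1, r2⟩
  · exact ⟨fun b hL => r2 b (L1_dual hL), fun b hL => r1 b (L2_dual hL)⟩

lemma gc_sc' {F : Type} [Field F] [NumberField F] [Algebra ℚ F] (A B : ℤ) :
    Sc (algebraMap ℚ F) 1 (gc A B ℚ) (gc A B F) := by
  refine ⟨one_ne_zero, ?_, ?_, ?_, ?_, ?_⟩
  · change (0 : F) = algebraMap ℚ F 0 * 1; simp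
  · change (A : F) = algebraMap ℚ F (A : ℚ) * 1 ^ 2; simp
  · change (0 : F) = algebraMap ℚ F 0 * 1 ^ 3; simp
  · change (B : F) = algebraMap ℚ F (B : ℚ) * 1 ^ 4; simp
  · change (0 : F) = algebraMap ℚ F 0 * 1 ^ 6; simp

/-- **the descent** -/
theorem stab_gen {A B : ℤ} (hB : B ≠ 0) (hD : A ^ 2 - 4 * B ≠ 0)
    (F K : Type) [Field F] [NumberField F] [Field K] [NumberField K]
    [iF : Algebra ℚ F] [iK : Algebra ℚ K] (i : F →+* K)
    (hgal : @IsGalois F _ K _ i.toAlgebra) (hodd : Odd (Module.finrank ℚ K))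
    (hfr : ∀ γ : K ≃+* K, (∀ x, γ (i x) = i x) →
      (∀ b : Kˣ, L1 A B (b : K) → ∃ y : Kˣ, γ (b : K) * b = (y : K) ^ 2) ∧
      (∀ b : Kˣ, L2 A B (b : K) → ∃ y : Kˣ, γ (b : K) * b = (y : K) ^ 2)) :
    Module.finrank ℤ (MP (gc A B K)) = Module.finrank ℤ (MP (gc A B F)) ∧
    Nonempty (AddCommGroup.primaryComponent
      (Pool.Agent.TH841.NF.D.Sha (gc A B F)) 2 ≃+
      AddCommGroup.primaryComponent
      (Pool.Agent.TH841.NF.D.Sha (gc A B K)) 2) := by
  classical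
  obtain ⟨e₀⟩ : Nonempty (K →+* AlgebraicClosure ℚ) :=
    ⟨(IsAlgClosed.lift : K →ₐ[ℚ] AlgebraicClosure ℚ).toRingHom⟩
  obtain ⟨eK, heK⟩ := Helper891_XS.exists_e K e₀
  obtain ⟨eF, heF⟩ := Helper891_XS.exists_e F (e₀.comp i)
  have hle : ∀ h, Fx eK h → Fx eF h := by
    intro h hh x
    have h1 : h (em eK (i x)) = em eK (i x) := hh (i x)
    show h (em eF x) = em eF x
    rw [heF]
    show h (e₀ (i x)) = e₀ (i x)
    rw [← heK]
    exact h1
  have hrel : Rel A B eK (HF eF) := by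
    intro σ hσ
    have hσ' : Fx eF σ := hσ
    have h1 : ∀ x : F, σ (e₀ (i x)) = e₀ (i x) := by
      intro x
      have h1 : σ (em eF x) = em eF x := hσ' x
      rw [heF] at h1
      exact h1
    let i0 : Algebra F K := i.toAlgebra
    let i1 : Algebra K Qb := e₀.toAlgebra
    let i3 : Algebra F Qb := (e₀.comp i).toAlgebra
    have i2 : IsScalarTower F K Qb := IsScalarTower.of_algebraMap_eq (fun x => rfl)
    have hgal' : IsGalois F K := hgal
    let σ' : Qb ≃ₐ[F] Qb := AlgEquiv.ofRingEquiv (f := (σ : Qb ≃+* Qb)) (fun x => h1 x)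
    set τ : K ≃ₐ[F] K := AlgEquiv.restrictNormal (F := F) σ' K with hτ
    have hcomm : ∀ x : K, e₀ (τ x) = σ (e₀ x) := fun x => AlgEquiv.restrictNormal_commutes σ' K x
    refine ⟨(τ : K ≃+* K), fun x => ?_, hfr _ fun x => ?_⟩
    · rw [heK, heK]
      exact (hcomm x).symm
    · exact τ.commutes x
  exact ⟨rank_rel (gc_sc' A B) (gc_sc' A B) eF eK hle (gc_isT hB hD ℚ) (gc_isT hB hD K) hrel hodd,
    sha_iso (gc_sc' A B) (gc_sc' A B) eF eK hle (gc_isT hB hD ℚ) (gc_isT hB hD K) hrel hodd⟩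

/-- the descent, with the algebra structures of the library -/
theorem stab_gen' {A B : ℤ} (hB : B ≠ 0) (hD : A ^ 2 - 4 * B ≠ 0)
    (F K : Type) [Field F] [NumberField F] [Field K] [NumberField K]
    (i : F →+* K) (hgal : @IsGalois F _ K _ i.toAlgebra)
    (hodd : Odd (@Module.finrank ℚ K _ _ (DivisionRing.toRatAlgebra (R := K)).toModule))
    (hfr : ∀ γ : K ≃+* K, (∀ x, γ (i x) = i x) →
      (∀ b : Kˣ, L1 A B (b : K) → ∃ y : Kˣ, γ (b : K) * b = (y : K) ^ 2) ∧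
      (∀ b : Kˣ, L2 A B (b : K) → ∃ y : Kˣ, γ (b : K) * b = (y : K) ^ 2)) :
    Pool.Agent.TH841.NF.D.rk (gc A B K) = Pool.Agent.TH841.NF.D.rk (gc A B F) ∧
    Nonempty (AddCommGroup.primaryComponent
      (Pool.Agent.TH841.NF.D.Sha (gc A B K)) 2 ≃+
      AddCommGroup.primaryComponent
      (Pool.Agent.TH841.NF.D.Sha (gc A B F)) 2) := by
  let iF : Algebra ℚ F := DivisionRing.toRatAlgebra
  let iK : Algebra ℚ K := DivisionRing.toRatAlgebra
  obtain ⟨h1, ⟨h2⟩⟩ := stab_gen hB hD F K i hgal hodd hfr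
  have e1 : Pool.Agent.TH841.NF.D.rk (gc A B K) = Module.finrank ℤ (MP (gc A B K)) := by
    unfold Pool.Agent.TH841.NF.D.rk
    congr
  have e2 : Pool.Agent.TH841.NF.D.rk (gc A B F) = Module.finrank ℤ (MP (gc A B F)) := by
    unfold Pool.Agent.TH841.NF.D.rk
    congr
  exact ⟨e1.trans (h1.trans e2.symm), ⟨h2.symm⟩⟩

/-- the relative squares, with the algebra structures of the library -/
lemma rel_AB' {a c A B : ℤ} (hcls : Cls a c) (hAB : Crv a c A B)
    {K : Type} [Field K] [NumberField K] (htr : IsTotallyReal K)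
    (hcl : Odd (Nat.card (NCl K)))
    (hodd : Odd (@Module.finrank ℚ K _ _ (DivisionRing.toRatAlgebra (R := K)).toModule))
    (hp2 : (Ideal.span {(2 : 𝓞 K)}).IsPrime) {γ : K ≃+* K}
    (hγ : ∀ p : ℕ, p.Prime → (p : ℤ) ∣ c * (a ^ 2 - 4 * c) → ∀ v : HeightOneSpectrum (𝓞 K),
      (p : 𝓞 K) ∈ v.asIdeal → ∀ x, v.valuation K (γ x) = v.valuation K x) :
    (∀ b : Kˣ, L1 A B (b : K) → ∃ y : Kˣ, γ (b : K) * b = (y : K) ^ 2) ∧
    (∀ b : Kˣ, L2 A B (b : K) → ∃ y : Kˣ, γ (b : K) * b = (y : K) ^ 2) := by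
  let iK : Algebra ℚ K := DivisionRing.toRatAlgebra
  exact rel_AB hcls hAB htr hcl hodd hp2 hγ

end Pool.Agent.Helper891_XS
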