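import Pool.Agent.Helper891_XS.Ga
import Pool.Agent.Helper891_XS.Fin
import Pool.Agent.Y419.XD.Ram

/-!
# Curves with a rational point of order two, over `F` and `K`: the theorems
-/

set_option autoImplicit false

open NumberField NumberField.InfinitePlace IsDedekindDomain WeierstrassCurve

namespace Pool.Agent.Helper891_XS

open Pool.Agent.Y682 (NCl gc)

open Pool.Agent.Y682.XD Pool.Agent.Y682.XT

open Pool.Agent.Helper891_XR

/-- the comparison over `F` and `K` -/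
def StR (F K : Type) [Field F] [NumberField F] [Field K] [NumberField K] (A B : ℤ) : Prop :=
  Nonempty
    (AddCommGroup.primaryComponent
        (Pool.Agent.TH841.NF.D.Sha (gc A B K)) 2 ≃+
      AddCommGroup.primaryComponent
        (Pool.Agent.TH841.NF.D.Sha (gc A B F)) 2) ∧
  Pool.Agent.TH841.NF.D.rk (gc A B K) = Pool.Agent.TH841.NF.D.rk (gc A B F)

lemma crv_ne {a c A B : ℤ} (hcls : Cls a c) (hAB : Crv a c A B) : B ≠ 0 ∧ A ^ 2 - 4 * B ≠ 0 := by
  obtain ⟨-, -, hc, -, hne⟩ := hcls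
  have hD0 : a ^ 2 - 4 * c ≠ 0 := sub_ne_zero.2 hne
  rcases hAB with ⟨rfl, rfl⟩ | ⟨rfl, rfl⟩
  · exact ⟨hc.ne', hD0⟩
  · refine ⟨hD0, ?_⟩
    have : (-2 * a) ^ 2 - 4 * (a ^ 2 - 4 * c) = 16 * c := by ring
    rw [this]
    exact mul_ne_zero (by norm_num) hc.ne'

/-- general form -/
theorem gen_fix {a c A B : ℤ} (hcls : Cls a c) (hAB : Crv a c A B)
    (F K : Type) [Field F] [NumberField F] [Field K] [NumberField K] (i : F →+* K)
    (hgal : @IsGalois F _ K _ i.toAlgebra) (htr : IsTotallyReal K)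
    (hodd : Odd (Module.finrank ℚ K)) (hcl : Odd (Nat.card (NCl K)))
    (hp2 : (Ideal.span {(2 : 𝓞 K)}).IsPrime)
    (hγ : ∀ γ : K ≃+* K, (∀ x, γ (i x) = i x) → ∀ p : ℕ, p.Prime →
      (p : ℤ) ∣ c * (a ^ 2 - 4 * c) → ∀ v : HeightOneSpectrum (𝓞 K),
      (p : 𝓞 K) ∈ v.asIdeal → ∀ x, v.valuation K (γ x) = v.valuation K x) : StR F K A B := by
  obtain ⟨hB, hD⟩ := crv_ne hcls hAB
  obtain ⟨h1, h2⟩ := stab_gen' hB hD F K i hgal hodd (fun γ hγ' =>
    rel_AB' hcls hAB htr hcl hodd hp2 (hγ γ hγ'))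
  exact ⟨h2, h1⟩

/-- the places of `K` that lie above the same place of `F` -/
lemma fix_of_under {F K : Type} [Field F] [NumberField F] [Field K] [NumberField K] [Algebra F K]
    {p : ℕ} (h : ∀ v w : HeightOneSpectrum (𝓞 K), (p : 𝓞 K) ∈ v.asIdeal → (p : 𝓞 K) ∈ w.asIdeal →
      v.under (𝓞 F) = w.under (𝓞 F) → v = w)
    (γ : K ≃+* K) (hγ : ∀ x : F, γ (algebraMap F K x) = algebraMap F K x)
    (v : HeightOneSpectrum (𝓞 K)) (hv : (p : 𝓞 K) ∈ v.asIdeal) (x : K) :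
    v.valuation K (γ x) = v.valuation K x := by
  obtain ⟨w, hw⟩ := exists_pull γ v
  rw [← hw]
  have hwv : w = v := by
    refine h w v ((mem_of_pull hw p).2 hv) hv ?_
    apply HeightOneSpectrum.ext
    ext y
    show algebraMap (𝓞 F) (𝓞 K) y ∈ w.asIdeal ↔ algebraMap (𝓞 F) (𝓞 K) y ∈ v.asIdeal
    rw [← w.valuation_lt_one_iff_mem (K := K), ← v.valuation_lt_one_iff_mem (K := K)]
    change w.valuation K (algebraMap F K (y : F)) < 1 ↔ v.valuation K (algebraMap F K (y : F)) < 1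
    rw [hw, hγ]
  rw [hwv]

/-- **the first theorem** -/
theorem gen_one {a c A B : ℤ} (hcls : Cls a c) (hAB : Crv a c A B)
    (F K : Type) [Field F] [NumberField F] [Field K] [NumberField K] [Algebra F K]
    [hgal : IsGalois F K] [htr : IsTotallyReal K]
    (hodd : Odd (Module.finrank ℚ K)) (hcl : Odd (Nat.card (NCl K)))
    (hp2 : (Ideal.span {(2 : 𝓞 K)}).IsPrime)
    (hbad : ∀ p : ℕ, p.Prime → (p : ℤ) ∣ c * (a ^ 2 - 4 * c) →
      ∀ v w : HeightOneSpectrum (𝓞 K), (p : 𝓞 K) ∈ v.asIdeal → (p : 𝓞 K) ∈ w.asIdeal →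
      v.under (𝓞 F) = w.under (𝓞 F) → v = w) : StR F K A B := by
  refine gen_fix hcls hAB F K (algebraMap F K) ?_ htr hodd hcl hp2
    (fun γ hγ p hp hpd v hv x => fix_of_under (hbad p hp hpd) γ hγ v hv x)
  convert hgal
  exact Algebra.algebra_ext _ _ fun x => rfl

/-- **the second theorem** -/
theorem gen_two {a c A B : ℤ} (hcls : Cls a c) (hAB : Crv a c A B) (n : ℕ)
    (M : Type) [Field M] [NumberField M] [IsCyclotomicExtension {3 ^ (n + 1)} ℚ M]
    (F K : IntermediateField ℚ M) (hFK : F ≤ K) (hodd : Odd (Module.finrank ℚ K))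
    (hbad : ∀ p : ℕ, p.Prime → (p : ℤ) ∣ c * (a ^ 2 - 4 * c) →
      p = 3 ∨ ¬ 9 * Module.finrank ℚ F ∣ p ^ 2 - 1) : StR F K A B := by
  obtain ⟨h2, -, hN⟩ := three_hyp n M K hodd
  have hz : NeZero (3 ^ (n + 1)) := ⟨pow_ne_zero _ (by norm_num)⟩
  have hreal : IsTotallyReal K := by
    obtain ⟨φ', -⟩ := Pool.Agent.Y682.XT.exists_phi (3 ^ (n + 1)) M
    have hre : Pool.Agent.Y682.XT.IsRe (3 ^ (n + 1)) M K := Pool.Agent.Y682.XT.re_of_odd hodd
    exact ⟨Pool.Agent.Y682.XT.real_place (q := 3 ^ (n + 1)) (φ := φ') hre⟩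
  have hab : IsAbelianGalois ℚ M := IsCyclotomicExtension.isAbelianGalois {3 ^ (n + 1)} ℚ M
  have hGal : IsGalois ℚ K :=
    @IsAbelianGalois.toIsGalois ℚ K _ _ (IntermediateField.algebra' K) inferInstance
  let iFK : Algebra F K := (IntermediateField.inclusion hFK).toRingHom.toAlgebra
  have iT : IsScalarTower ℚ F K := IsScalarTower.of_algebraMap_eq fun x => rfl
  have hGalFK : IsGalois F K := IsGalois.tower_top_of_isGalois ℚ F K
  have hodd' : Odd (@Module.finrank ℚ K _ _ (DivisionRing.toRatAlgebra (R := K)).toModule) := by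
    convert hodd
  refine gen_fix hcls hAB F K (IntermediateField.inclusion hFK).toRingHom hGalFK hreal hodd' hN
    (by exact_mod_cast h2) ?_
  intro γ hγ p hp hpd v hv x
  by_cases h3 : p = 3
  · subst h3
    exact fix_of_uniq (p := 3) γ
      (fun v w hv hw => Pool.Agent.Y419.XD.s_ram 3 n Nat.prime_three M K v w hv hw) v hv x
  · have h9 := (hbad p hp hpd).resolve_left h3
    exact fix_of_frob (q := 3 ^ (n + 1)) hFK hp hGal
      (fun σ hσ => frob_layer hFK hodd hp h3 h9 σ hσ) γ (fun x hx => hγ ⟨x, hx⟩) v hv x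

/-- **the third theorem** -/
theorem gen_three {a c A B : ℤ} (hcls : Cls a c) (hAB : Crv a c A B) (n : ℕ)
    (M : Type) [Field M] [NumberField M] [IsCyclotomicExtension {3 ^ (n + 1)} ℚ M]
    (F K : IntermediateField ℚ M) (hFK : F ≤ K) (hodd : Odd (Module.finrank ℚ K))
    (hbig : (c * (a ^ 2 - 4 * c)) ^ 2 ≤ 9 * (Module.finrank ℚ F : ℤ)) : StR F K A B := by
  have hne : c * (a ^ 2 - 4 * c) ≠ 0 := by
    obtain ⟨-, -, hc, -, hne⟩ := hcls
    exact mul_ne_zero hc.ne' (sub_ne_zero.2 hne)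
  refine gen_two hcls hAB n M F K hFK hodd fun p hp hpd => Or.inr fun h => ?_
  have h1 : (p : ℤ) ^ 2 ≤ (c * (a ^ 2 - 4 * c)) ^ 2 := by
    rw [sq_le_sq, Nat.abs_cast]
    exact Int.le_of_dvd (abs_pos.2 hne) ((dvd_abs _ _).2 hpd)
  have hp2 := hp.two_le
  have h2 : 0 < p ^ 2 - 1 := by
    have : 2 ^ 2 ≤ p ^ 2 := Nat.pow_le_pow_left hp2 2
    omega
  have h3 := Nat.le_of_dvd h2 h
  have h4 : ((p ^ 2 : ℕ) : ℤ) ≤ ((9 * Module.finrank ℚ F : ℕ) : ℤ) := by
    push_cast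
    linarith
  have h5 : p ^ 2 ≤ 9 * Module.finrank ℚ F := by exact_mod_cast h4
  omega

end Pool.Agent.Helper891_XS
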