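import Mathlib
import Pool.Agent.Helper891_XS.Ga

/-!
# The descent over `F` and `K`, with a weaker condition on the classes
-/

set_option autoImplicit false
set_option linter.unusedSectionVars false

attribute [-instance] DivisionRing.toRatAlgebra

namespace Pool.Agent.Helper891_XS.W

open WeierstrassCurve NumberField IsDedekindDomain

open Pool.Agent.TH841.NF Pool.Agent.Y682 Pool.Agent.Y65.Sham Pool.Agent.Helper891_XR

open Pool.Agent.TH841.SH.D (Pt act Gal Coch IsCoc IsCob LocTriv cob)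

open Pool.Agent.TH841.SH (IsX isX_zero)

section kummer

variable {K : Type} [Field K] [NumberField K] [Algebra ℚ K] (e : AlgebraicClosure K ≃+* Qb)

/-- elements fixed by the group of `K` -/
lemma fix_mem' {X : Qb} (h : ∀ g, Fx e g → g X = X) : ∃ x : K, em e x = X := by
  obtain ⟨x, hx⟩ := fix_mem (K := K) (e.symm X) (fun σ => by
    apply e.injective
    have h1 := h (cQ e σ) (cQ_fx e σ)
    rw [RingEquiv.apply_symm_apply]
    have h2 : e (σ (e.symm X)) = cQ e σ (e (e.symm X)) := by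
      have h3 := e_cF e (cQ_fx e σ) (e.symm X)
      rw [cF_cQ] at h3
      exact h3
    rw [h2, RingEquiv.apply_symm_apply, h1])
  refine ⟨x, ?_⟩
  show e (algebraMap K _ x) = X
  rw [hx, RingEquiv.apply_symm_apply]

/-- the class of the difference -/
lemma kum_prod {b b' : K} (hb : b ≠ 0) (hb' : b' ≠ 0) {γ : K ≃+* K} {σ0 : Gal ℚ}
    (hσ : ∀ x : K, σ0 (em e x) = em e (γ x))
    {s s' : AlgebraicClosure K} (hs : s ^ 2 = algebraMap K _ b)
    (hs' : s' ^ 2 = algebraMap K _ b') {p q : Gal ℚ → Prop}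
    (hp : ∀ h, Fx e h → (p h → h (e s) = e s) ∧ (¬ p h → h (e s) = -e s))
    (hq : ∀ h, Fx e h → (q h → h (e s') = e s') ∧ (¬ q h → h (e s') = -e s'))
    (hN : ∀ h, Fx e h → Fx e (σ0⁻¹ * h * σ0))
    (hpq : ∀ h, Fx e h → (q h ↔ (p (σ0⁻¹ * h * σ0) ↔ p h))) :
    ∃ x : K, x ≠ 0 ∧ γ b * b = b' * x ^ 2 := by
  have hS : (e s) ^ 2 = em e b := by
    rw [← map_pow, hs]
    rfl
  have hS' : (e s') ^ 2 = em e b' := by
    rw [← map_pow, hs']
    rfl
  obtain ⟨x, hx⟩ := fix_mem' e (X := e s' * (e s * σ0 (e s))) (by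
    intro g hg
    have h3 : ∀ ε : Qb, (ε = 1 ∨ ε = -1) → (σ0⁻¹ * g * σ0) (e s) = ε * e s →
        g (σ0 (e s)) = ε * σ0 (e s) := by
      intro ε hε h
      have h4 : σ0 ((σ0⁻¹ * g * σ0) (e s)) = g (σ0 (e s)) := by
        show σ0 (σ0.symm (g (σ0 (e s)))) = _
        exact σ0.apply_symm_apply _
      rw [← h4, h, map_mul]
      congr 1
      rcases hε with rfl | rfl
      · exact map_one σ0
      · rw [map_neg, map_one]
    have a1 := hp g hg
    have a2 := hp _ (hN g hg)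
    have a3 := hq g hg
    have a4 := hpq g hg
    by_cases c1 : p g
    · by_cases c2 : p (σ0⁻¹ * g * σ0)
      · have c3 : q g := a4.2 ⟨fun _ => c1, fun _ => c2⟩
        rw [map_mul, map_mul, a3.1 c3, a1.1 c1,
          h3 1 (Or.inl rfl) (by rw [a2.1 c2, one_mul]), one_mul]
      · have c3 : ¬ q g := fun h => c2 ((a4.1 h).2 c1)
        rw [map_mul, map_mul, a3.2 c3, a1.1 c1,
          h3 (-1) (Or.inr rfl) (by rw [a2.2 c2, neg_one_mul])]
        ring
    · by_cases c2 : p (σ0⁻¹ * g * σ0)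
      · have c3 : ¬ q g := fun h => c1 ((a4.1 h).1 c2)
        rw [map_mul, map_mul, a3.2 c3, a1.2 c1,
          h3 1 (Or.inl rfl) (by rw [a2.1 c2, one_mul])]
        ring
      · have c3 : q g := a4.2 ⟨fun h => absurd h c2, fun h => absurd h c1⟩
        rw [map_mul, map_mul, a3.1 c3, a1.2 c1,
          h3 (-1) (Or.inr rfl) (by rw [a2.2 c2, neg_one_mul])]
        ring)
  have h1 : b' * (γ b * b) = x ^ 2 := by
    apply (em e).injective
    rw [map_pow, hx, map_mul, map_mul, ← hσ, ← hS, ← hS', map_pow]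
    ring
  have hγb : γ b ≠ 0 := (map_ne_zero_iff γ γ.injective).2 hb
  have hx0 : x ≠ 0 := by
    rintro rfl
    rw [zero_pow two_ne_zero] at h1
    exact mul_ne_zero hb' (mul_ne_zero hγb hb) h1
  refine ⟨x / b', div_ne_zero hx0 hb', ?_⟩
  rw [div_pow, ← h1]
  field_simp

variable {A B : ℤ}

lemma L1_sq {b w : K} (hw : w ≠ 0) (h : L1 A B b) : L1 A B (b * w ^ 2) := by
  have main : ∀ (L : Type) [Field L] (φ : K →+* L) (P : L → Prop),
      (∃ z m : L, z ≠ 0 ∧ φ b * z ^ 2 = m ∧ P m) →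
      ∃ z m : L, z ≠ 0 ∧ φ (b * w ^ 2) * z ^ 2 = m ∧ P m := by
    intro L _ φ P ⟨z, m, hz, hzm, hm⟩
    have hφw : φ w ≠ 0 := (map_ne_zero φ).2 hw
    refine ⟨z / φ w, m, div_ne_zero hz hφw, ?_, hm⟩
    rw [← hzm, map_mul, map_pow]
    field_simp
  refine ⟨fun v => ?_, fun v => ?_⟩
  · exact main _ (algebraMap K (v.adicCompletion K)) _ (h.1 v)
  · exact main _ (algebraMap K v.Completion) _ (h.2 v)

lemma L2_sq {b w : K} (hw : w ≠ 0) (h : L2 A B b) : L2 A B (b * w ^ 2) := by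
  have main : ∀ (L : Type) [Field L] (φ : K →+* L) (P : L → Prop),
      (∃ z m : L, z ≠ 0 ∧ φ b * z ^ 2 = m ∧ P m) →
      ∃ z m : L, z ≠ 0 ∧ φ (b * w ^ 2) * z ^ 2 = m ∧ P m := by
    intro L _ φ P ⟨z, m, hz, hzm, hm⟩
    have hφw : φ w ≠ 0 := (map_ne_zero φ).2 hw
    refine ⟨z / φ w, m, div_ne_zero hz hφw, ?_, hm⟩
    rw [← hzm, map_mul, map_pow]
    field_simp
  refine ⟨fun v => ?_, fun v => ?_⟩
  · exact main _ (algebraMap K (v.adicCompletion K)) _ (h.1 v)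
  · exact main _ (algebraMap K v.Completion) _ (h.2 v)

/-- the automorphisms in `U` act trivially on the classes, weak form -/
def Rel (A B : ℤ) (e : AlgebraicClosure K ≃+* Qb) (U : Subgroup (Gal ℚ)) : Prop :=
  ∀ σ ∈ U, ∃ γ : K ≃+* K, (∀ x, σ (em e x) = em e (γ x)) ∧
    (∀ b : Kˣ, L1 A B (b : K) → L1 A B (γ (b : K) * b) →
      ∃ y : Kˣ, γ (b : K) * b = (y : K) ^ 2) ∧
    (∀ b : Kˣ, L2 A B (b : K) → L2 A B (γ (b : K) * b) →
      ∃ y : Kˣ, γ (b : K) * b = (y : K) ^ 2)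

end kummer

section

variable {K : Type} [Field K] [NumberField K] [Algebra ℚ K] {E : WeierstrassCurve ℚ}
  {W : WeierstrassCurve K} (hW : Sc (algebraMap ℚ K) 1 E W) (e : AlgebraicClosure K ≃+* Qb)
  {A B : ℤ} (hTQ : IsT E (A : ℚ) (B : ℚ)) (hT : IsT W (A : K) (B : K))

variable {hW e}

include hT in
/-- the data of the first class -/
lemma data1 {c : Gal ℚ → Pt E Qb} (hc : SH hW e c) (h2 : ∀ h, Fx e h → c h + c h = 0) :
    ∃ b : K, b ≠ 0 ∧ L1 A B b ∧ ∃ s : AlgebraicClosure K, s ^ 2 = algebraMap K _ b ∧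
      ∀ h, Fx e h → (IsX (E.baseChange Qb) 0 (c h) → h (e s) = e s) ∧
        (¬ IsX (E.baseChange Qb) 0 (c h) → h (e s) = -e s) := by
  obtain ⟨f, hf, hcf⟩ := hc
  obtain ⟨b, hb, hbs, hbl⟩ := exists_b1 hT hf.1 (two_coc hcf h2)
  obtain ⟨s, hs⟩ := IsAlgClosed.exists_pow_nat_eq (algebraMap K (AlgebraicClosure K) b) (n := 2)
    (by norm_num)
  refine ⟨b, hb, ⟨fun v => ?_, fun v => ?_⟩, s, hs, fun h hh => ?_⟩
  · have := charZero_adic v
    have h3 := hbl _ (hf.2.1 v)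
    rwa [map_intCast, map_intCast] at h3
  · have := charZero_inf v
    have h3 := hbl v.Completion (hf.2.2 v)
    rwa [map_intCast, map_intCast] at h3
  have h3 : IsX (E.baseChange Qb) 0 (c h) ↔
      IsX (W.baseChange (AlgebraicClosure K)) 0 (f (cF e h)) := by
    rw [hcf h hh]
    exact tm_isX (sc_any hW (e : AlgebraicClosure K →+* Qb)) (f (cF e h))
  have h6 := hbs s hs (cF e h)
  constructor
  · intro h7
    rw [← e_cF e hh, h6.1 (h3.1 h7)]
  · intro h7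
    rw [← e_cF e hh, h6.2 (fun h8 => h7 (h3.2 h8)), map_neg]

include hT in
/-- the data of the second class -/
lemma data2 {c : Gal ℚ → Pt E Qb} (hc : SH hW e c) (hV : ∀ h, Fx e h → c h ∈ torsT hTQ) :
    ∃ b : K, b ≠ 0 ∧ L2 A B b ∧ ∃ s : AlgebraicClosure K, s ^ 2 = algebraMap K _ b ∧
      ∀ h, Fx e h → (c h = 0 → h (e s) = e s) ∧ (¬ c h = 0 → h (e s) = -e s) := by
  obtain ⟨f, hf, hcf⟩ := hc
  have h3 : ∀ h, Fx e h → (IsX (E.baseChange Qb) 0 (c h) ↔
      IsX (W.baseChange (AlgebraicClosure K)) 0 (f (cF e h))) := by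
    intro h hh
    rw [hcf h hh]
    exact tm_isX (sc_any hW (e : AlgebraicClosure K →+* Qb)) (f (cF e h))
  have hX : ∀ s, IsX (W.baseChange (AlgebraicClosure K)) 0 (f s) := by
    intro s
    have h4 := (h3 _ (cQ_fx e s)).1 (hV _ (cQ_fx e s)).2
    rwa [cF_cQ] at h4
  obtain ⟨b, hb, hbs, hbl⟩ := exists_b2 hT hf.1 (two_coc hcf (fun h hh => (hV h hh).1)) hX
  obtain ⟨s, hs⟩ := IsAlgClosed.exists_pow_nat_eq (algebraMap K (AlgebraicClosure K) b) (n := 2)
    (by norm_num)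
  refine ⟨b, hb, ⟨fun v => ?_, fun v => ?_⟩, s, hs, fun h hh => ?_⟩
  · have := charZero_adic v
    have h3 := hbl _ (hf.2.1 v)
    rwa [map_intCast, map_intCast] at h3
  · have := charZero_inf v
    have h3 := hbl v.Completion (hf.2.2 v)
    rwa [map_intCast, map_intCast] at h3
  have h4 : c h = 0 ↔ f (cF e h) = 0 := by
    rw [hcf h hh]
    exact tm_zero_iff (sc_any hW (e : AlgebraicClosure K →+* Qb)) (f (cF e h))
  have h6 := hbs s hs (cF e h)
  constructor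
  · intro h7
    rw [← e_cF e hh, h6.1 (h4.1 h7)]
  · intro h7
    rw [← e_cF e hh, h6.2 (fun h8 => h7 (h4.2 h8)), map_neg]

include hTQ hT in
/-- the first class is invariant -/
lemma cl1 {σ0 : Gal ℚ} {γ : K ≃+* K} (hγ : ∀ x, σ0 (em e x) = em e (γ x))
    (hg1 : ∀ b : Kˣ, L1 A B (b : K) → L1 A B (γ (b : K) * b) →
      ∃ y : Kˣ, γ (b : K) * b = (y : K) ^ 2)
    {c : Gal ℚ → Pt E Qb} (hc : SH hW e c) (h2 : ∀ h, Fx e h → c h + c h = 0)
    {h : Gal ℚ} (hh : Fx e h) :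
    IsX (E.baseChange Qb) 0 (c (σ0 * h * σ0⁻¹)) ↔ IsX (E.baseChange Qb) 0 (c h) := by
  have hN := nm_of hγ
  obtain ⟨b, hb, hL, s, hs, hp⟩ := data1 (hW := hW) hT hc h2
  have ht : SH hW e (cj σ0 c - c) := (hc.cj hN).sub hc
  have ht1 : ∀ h, Fx e h → aG E σ0 (c (σ0⁻¹ * h * σ0)) + aG E σ0 (c (σ0⁻¹ * h * σ0)) = 0 := by
    intro h hh
    rw [← map_add, h2 _ (hN h hh), map_zero]
  have hsub : ∀ h, Fx e h → (cj σ0 c - c) h = aG E σ0 (c (σ0⁻¹ * h * σ0)) + c h := by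
    intro h hh
    show aG E σ0 (c (σ0⁻¹ * h * σ0)) - c h = _
    rw [sub_eq_add_neg]
    congr 1
    exact neg_eq_of_add_eq_zero_left (h2 h hh)
  obtain ⟨b', hb', hL', s', hs', hq⟩ := data1 (hW := hW) hT ht (by
    intro h hh
    rw [hsub h hh]
    have h3 : ∀ P Q : Pt E Qb, P + Q + (P + Q) = (P + P) + (Q + Q) := fun P Q => by abel
    rw [h3, ht1 h hh, h2 h hh, add_zero])
  obtain ⟨x, hx, hxe⟩ := kum_prod e hb hb' hγ hs hs' hp hq hN (by
    intro h hh
    rw [hsub h hh, isX_add hTQ (ht1 h hh) (h2 h hh)]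
    have h3 : IsX (E.baseChange Qb) 0 (aG E σ0 (c (σ0⁻¹ * h * σ0))) ↔
        IsX (E.baseChange Qb) 0 (c (σ0⁻¹ * h * σ0)) := act_isX E σ0.toAlgHom _
    rw [h3])
  obtain ⟨y, hy⟩ := hg1 (Units.mk0 b hb) hL (by
    rw [Units.val_mk0, hxe]
    exact L1_sq hx hL')
  rw [Units.val_mk0] at hy
  exact kum_iff e hb hγ hy hs (p := fun h => IsX (E.baseChange Qb) 0 (c h)) hp hh

include hT in
/-- the second class is invariant -/
lemma cl2 {σ0 : Gal ℚ} {γ : K ≃+* K} (hγ : ∀ x, σ0 (em e x) = em e (γ x))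
    (hg2 : ∀ b : Kˣ, L2 A B (b : K) → L2 A B (γ (b : K) * b) →
      ∃ y : Kˣ, γ (b : K) * b = (y : K) ^ 2)
    {c : Gal ℚ → Pt E Qb} (hc : SH hW e c) (hV : ∀ h, Fx e h → c h ∈ torsT hTQ)
    {h : Gal ℚ} (hh : Fx e h) : c (σ0 * h * σ0⁻¹) = 0 ↔ c h = 0 := by
  have hN := nm_of hγ
  obtain ⟨b, hb, hL, s, hs, hp⟩ := data2 (hW := hW) hTQ hT hc hV
  have ht : SH hW e (cj σ0 c - c) := (hc.cj hN).sub hc
  have hsub : ∀ h, Fx e h → (cj σ0 c - c) h = c (σ0⁻¹ * h * σ0) - c h := by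
    intro h hh
    show aG E σ0 (c (σ0⁻¹ * h * σ0)) - c h = _
    rw [act_tors hTQ (hV _ (hN h hh))]
  obtain ⟨b', hb', hL', s', hs', hq⟩ := data2 (hW := hW) hTQ hT ht (by
    intro h hh
    rw [hsub h hh]
    exact sub_mem (hV _ (hN h hh)) (hV h hh))
  obtain ⟨x, hx, hxe⟩ := kum_prod e hb hb' hγ hs hs' hp hq hN (by
    intro h hh
    rw [hsub h hh, sub_eq_zero]
    constructor
    · intro h3
      rw [h3]
    · intro h3
      exact eq_tors hTQ (hV _ (hN h hh)) (hV h hh) h3)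
  obtain ⟨y, hy⟩ := hg2 (Units.mk0 b hb) hL (by
    rw [Units.val_mk0, hxe]
    exact L2_sq hx hL')
  rw [Units.val_mk0] at hy
  exact kum_iff e hb hγ hy hs (p := fun h => c h = 0) hp hh

include hTQ hT in
/-- **the cocycles with values in the points killed by two** -/
theorem triv2 {σ : Gal ℚ} {γ : K ≃+* K} (hγ : ∀ x, σ (em e x) = em e (γ x))
    (hg1 : ∀ b : Kˣ, L1 A B (b : K) → L1 A B (γ (b : K) * b) →
      ∃ y : Kˣ, γ (b : K) * b = (y : K) ^ 2)
    (hg2 : ∀ b : Kˣ, L2 A B (b : K) → L2 A B (γ (b : K) * b) →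
      ∃ y : Kˣ, γ (b : K) * b = (y : K) ^ 2)
    {n : ℕ} (hn : Odd n) (hσn : Fx e (σ ^ n))
    {c : Gal ℚ → Pt E Qb} (hc : SH hW e c) (h2 : ∀ h, Fx e h → c h + c h = 0) :
    ∃ S : Pt E Qb, S + S = 0 ∧ ∀ h, Fx e h → cj σ c h - c h = aG E h S - S := by
  have hN := nm_of hγ
  set u : Gal ℚ → Pt E Qb := cj σ c - c with hu
  have huS : SH hW e u := (hc.cj hN).sub hc
  have hui : ∀ h, Fx e h → σ * (σ⁻¹ * h * σ) * σ⁻¹ = h := fun h _ => by group
  have hut : ∀ h, Fx e h → u h ∈ torsT hTQ := by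
    intro h hh
    refine sub_tors hTQ ?_ (h2 h hh) ?_
    · show aG E σ (c (σ⁻¹ * h * σ)) + aG E σ (c (σ⁻¹ * h * σ)) = 0
      rw [← map_add, h2 _ (hN h hh), map_zero]
    · have h3 := cl1 (hW := hW) hTQ hT hγ hg1 hc h2 (hN h hh)
      rw [hui h hh] at h3
      rw [h3]
      exact act_isX E σ.toAlgHom (c (σ⁻¹ * h * σ))
  have huc : ∀ h, Fx e h → u (σ⁻¹ * h * σ) = u h := by
    intro h hh
    have h3 := cl2 (hW := hW) hTQ hT hγ hg2 huS hut (hN h hh)
    rw [hui h hh] at h3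
    exact (eq_tors hTQ (hut _ hh) (hut _ (hN h hh)) h3).symm
  have hi : ∀ (i : ℕ) (h : Gal ℚ), Fx e h → cj (σ ^ i) c h = c h + i • u h := by
    intro i
    induction i with
    | zero =>
      intro h hh
      rw [pow_zero, cj_one, zero_smul, add_zero]
    | succ i ih =>
      intro h hh
      rw [pow_succ', cj_mul]
      show aG E σ (cj (σ ^ i) c (σ⁻¹ * h * σ)) = _
      rw [ih _ (hN h hh), map_add, map_nsmul, huc h hh, act_tors hTQ (hut h hh)]
      have h3 : aG E σ (c (σ⁻¹ * h * σ)) = c h + u h := by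
        rw [hu, Pi.sub_apply]
        show _ = c h + (aG E σ (c (σ⁻¹ * h * σ)) - c h)
        abel
      rw [h3, succ_nsmul]
      abel
  refine ⟨c (σ ^ n), h2 _ hσn, fun h hh => ?_⟩
  have h3 := hi n h hh
  rw [hc.cj_mem hσn hh] at h3
  have h4 : n • u h = u h := by
    obtain ⟨m, rfl⟩ := hn
    have h5 : u h + u h = 0 := (hut h hh).1
    rw [add_smul, one_smul, mul_comm, mul_smul, two_smul, h5, smul_zero, zero_add]
  rw [h4] at h3
  exact (add_left_cancel h3).symm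

variable {U : Subgroup (Gal ℚ)}

include hTQ hT in
/-- **trivial action** -/
theorem trivm (hU : Rel A B e U) {n : ℕ} (hn : Odd n) (hUn : ∀ σ ∈ U, Fx e (σ ^ n)) (m : ℕ) :
    ∀ c : Gal ℚ → Pt E Qb, SH hW e c → CB e (2 ^ m • c) → ∀ σ ∈ U, CB e (cj σ c - c) := by
  induction m with
  | zero =>
    intro c hc h σ hσ
    obtain ⟨γ, hγ, -, -⟩ := hU σ hσ
    rw [pow_zero, one_smul] at h
    exact (h.cj (nm_of hγ)).sub h
  | succ m ih =>
    intro c hc h σ hσ
    obtain ⟨γ, hγ, hg1, hg2⟩ := hU σ hσ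
    have hN := nm_of hγ
    obtain ⟨P, hP⟩ := h
    obtain ⟨Q, hQ⟩ := exists_half hTQ P
    have hdQ : CB e (fun h => aG E h Q - Q) := ⟨Q, fun h _ => rfl⟩
    have hu : SH hW e (2 ^ m • c - fun h => aG E h Q - Q) :=
      (hc.nsmul (2 ^ m)).sub (SH.of_cb hdQ)
    obtain ⟨S, hS, hS2⟩ := triv2 hTQ hT hγ hg1 hg2 hn (hUn σ hσ) hu (by
      intro h hh
      have h3 := hP h hh
      rw [Pi.smul_apply, pow_succ, mul_smul, two_smul, smul_add, hQ, map_add] at h3
      rw [Pi.sub_apply, Pi.smul_apply]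
      have h4 : 2 ^ m • c h - (aG E h Q - Q) + (2 ^ m • c h - (aG E h Q - Q)) =
          (2 ^ m • c h + 2 ^ m • c h) - (aG E h Q + aG E h Q - (Q + Q)) := by abel
      rw [h4, h3, sub_self])
    -- the difference is killed by a smaller power
    set w : Gal ℚ → Pt E Qb := cj σ c - c with hw
    have hwS : SH hW e w := (hc.cj hN).sub hc
    have hwm : CB e (2 ^ m • w) := by
      have h3 : CB e (cj σ (2 ^ m • c - fun h => aG E h Q - Q) -
          (2 ^ m • c - fun h => aG E h Q - Q)) := ⟨S, fun h hh => hS2 h hh⟩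
      have h4 := (h3.add (hdQ.cj hN)).sub hdQ
      convert h4 using 1
      rw [cj_sub, cj_nsmul, hw, smul_sub]
      abel
    have hww := ih w hwS hwm σ hσ
    have h5 : CB e (cj σ c - (c + w)) := by
      have : cj σ c - (c + w) = 0 := by rw [hw]; abel
      rw [this]
      exact CB.zero e
    have h6 := cj_pow hN h5 hww n
    have h7 : CB e (cj (σ ^ n) c - c) := by
      refine ⟨c (σ ^ n), fun h hh => ?_⟩
      rw [Pi.sub_apply, hc.cj_mem (hUn σ hσ) hh]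
      abel
    have h8 : CB e (n • w) := by
      have h9 := h7.sub h6
      convert h9 using 1
      abel
    exact CB.of_coprime (Nat.Coprime.pow_right m (Nat.coprime_two_right.2 hn)) h8 hwm

end

end Pool.Agent.Helper891_XS.W
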