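import Mathlib
import Pool.Agent.Helper891_XS.Gd

/-!
# The classes of the pairs with opposite types at infinity and at two, relative form
-/

set_option autoImplicit false
set_option linter.unusedSectionVars false

attribute [-instance] DivisionRing.toRatAlgebra

namespace Pool.Agent.Helper891_XS.W

open WeierstrassCurve NumberField IsDedekindDomain NumberField.InfinitePlace

open Pool.Agent.TH841.NF Pool.Agent.Y682 Pool.Agent.Y702.A Pool.Agent.Y65.Sham Pool.Agent.R431.T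

open Pool.Agent.Helper891_XR

open Pool.Agent.TH841.SH.D (Pt act Gal Coch IsCoc IsCob LocTriv cob)

section rel

variable {F : Type} [Field F] [NumberField F] [Algebra ℚ F] {A B : ℤ}

/-- the types of the places with respect to an automorphism -/
def Pl (γ : F ≃+* F) (A B : ℤ) (v : HeightOneSpectrum (𝓞 F)) : Prop :=
  (∀ x, v.valuation F (γ x) = v.valuation F x) ∨
  (Tw v (A : F) (B : F) ∧ ∀ w : HeightOneSpectrum (𝓞 F),
    (∀ x, w.valuation F x = v.valuation F (γ x)) → Tw w (A : F) (B : F)) ∨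
  (v.valuation F (B : F) = 1 ∧ v.valuation F ((A ^ 2 - 4 * B : ℤ) : F) = 1)

lemma norm_rel (γ : F ≃+* F) (b : F) : ∃ q : ℚ, Algebra.norm ℚ (γ b * b) = q ^ 2 := by
  let γ' : F ≃ₐ[ℚ] F := AlgEquiv.ofRingEquiv (f := γ) (fun x => by
    have h := RingHom.congr_fun (Subsingleton.elim ((γ : F →+* F).comp (algebraMap ℚ F))
      (algebraMap ℚ F)) x
    exact h)
  have h : Algebra.norm ℚ (γ b) = Algebra.norm ℚ b := Algebra.norm_eq_of_algEquiv γ' b
  exact ⟨Algebra.norm ℚ b, by rw [map_mul, h, sq]⟩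

lemma fix_two (γ : F ≃+* F) (hp2 : (Ideal.span {(2 : 𝓞 F)}).IsPrime)
    (v : HeightOneSpectrum (𝓞 F)) (hv : (2 : 𝓞 F) ∈ v.asIdeal) (x : F) :
    v.valuation F (γ x) = v.valuation F x := by
  refine fix_of_uniq (p := 2) γ (fun w w' hw hw' => ?_) v (by rwa [Nat.cast_ofNat]) x
  rw [Nat.cast_ofNat] at hw hw'
  exact HeightOneSpectrum.ext ((two_val hp2 hw).trans (two_val hp2 hw').symm)

variable [IsTotallyReal F] [FiniteDimensional ℚ F]

/-- the first class -/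
lemma relp1 (γ : F ≃+* F) (hB : 0 < B) (hA : A < 0 ∨ A ^ 2 < 4 * B)
    (hp2 : (Ideal.span {(2 : 𝓞 F)}).IsPrime) (hcl : Odd (Nat.card (NCl F)))
    (hv : ∀ v : HeightOneSpectrum (𝓞 F), Pl γ A B v)
    (b : Fˣ) (hL : L1 A B (b : F)) : ∃ y : Fˣ, γ (b : F) * b = (y : F) ^ 2 := by
  have hγb : γ (b : F) ≠ 0 := (map_ne_zero_iff γ γ.injective).2 b.ne_zero
  have hpos : TotPos (b : F) := by
    intro φ
    have hB' : 0 < φ (B : F) := by
      rw [map_intCast]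
      exact_mod_cast hB
    refine pos_b1 (A := (A : F)) (B := (B : F)) (fun v => ?_) φ hB' ?_
    · rw [map_intCast, map_intCast]
      exact hL.2 v
    · rw [map_intCast, map_intCast]
      rcases hA with h | h
      · left; exact_mod_cast h
      · right; exact_mod_cast h
  have hpos' : TotPos (((Units.mk0 (γ (b : F)) hγb * b : Fˣ)) : F) := by
    intro φ
    rw [Units.val_mul, Units.val_mk0, map_mul]
    exact mul_pos (totpos_comp hpos γ φ) (hpos φ)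
  have hloc : ∀ v : HeightOneSpectrum (𝓞 F), ∃ z m : v.adicCompletion F, z ≠ 0 ∧
      algebraMap F (v.adicCompletion F) (b : F) * z ^ 2 = m ∧
      S1 (algebraMap F (v.adicCompletion F) (A : F))
        (algebraMap F (v.adicCompletion F) (B : F)) m := by
    intro v
    rw [map_intCast, map_intCast]
    exact hL.1 v
  obtain ⟨y, hy⟩ := elt_sq hcl (Units.mk0 (γ (b : F)) hγb * b) hpos' (by
    intro v
    rw [Units.val_mul, Units.val_mk0]
    by_cases h2 : (2 : 𝓞 F) ∈ v.asIdeal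
    · exact exp_fix (fix_two γ hp2 v h2) b.ne_zero
    have h4 := val_two h2
    obtain ⟨w, hw⟩ := exists_pull γ v
    rcases hv v with h | ⟨h, h'⟩ | ⟨h, -⟩
    · exact exp_fix h b.ne_zero
    · refine exp_mul ?_ (even_b1_tw b.ne_zero v (hloc v) h)
      have h5 := even_b1_tw b.ne_zero w (hloc w) (h' w hw)
      rwa [hw] at h5
    · refine exp_mul ?_ (even_good b.ne_zero hL h4 h)
      have h5 := even_good (v := w) b.ne_zero hL (by rw [hw, map_ofNat, h4])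
        (by rw [hw, map_intCast, h])
      rwa [hw] at h5)
  refine ⟨y, ?_⟩
  have h6 := congrArg Units.val hy
  rw [Units.val_mul, Units.val_mk0, Units.val_pow_eq_pow_val] at h6
  exact h6

/-- the second class -/
lemma relp2 (γ : F ≃+* F)
    (hA2 : A % 2 = 1 ∨ (A % 2 = 0 ∧ ((A / 2) ^ 2 - B) % 4 ≠ 0))
    (hn3 : A % 4 = 3 → (B % 4 = 2 ∨ B % 4 = 3) → ¬ 3 ∣ Module.finrank ℚ F)
    (hp2 : (Ideal.span {(2 : 𝓞 F)}).IsPrime)
    (hcl : Odd (Nat.card (NCl F))) (hodd : Odd (Module.finrank ℚ F))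
    (hv : ∀ v : HeightOneSpectrum (𝓞 F), Pl γ A B v)
    (b : Fˣ) (hL : L2 A B (b : F)) (hL2 : L2 A B (γ (b : F) * b)) :
    ∃ y : Fˣ, γ (b : F) * b = (y : F) ^ 2 := by
  have hγb : γ (b : F) ≠ 0 := (map_ne_zero_iff γ γ.injective).2 b.ne_zero
  have hloc : ∀ v : HeightOneSpectrum (𝓞 F), ∃ z m : v.adicCompletion F, z ≠ 0 ∧
      algebraMap F (v.adicCompletion F) (b : F) * z ^ 2 = m ∧
      S2 (algebraMap F (v.adicCompletion F) (A : F))
        (algebraMap F (v.adicCompletion F) (B : F)) m := by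
    intro v
    rw [map_intCast, map_intCast]
    exact hL.1 v
  obtain ⟨y, hy⟩ := fin_sq' hp2 hcl hodd (Units.mk0 (γ (b : F)) hγb * b) (by
    rw [Units.val_mul, Units.val_mk0]
    exact norm_rel γ b) (fun v h2 => by
    rw [Units.val_mul, Units.val_mk0]
    have h4 := val_two h2
    obtain ⟨w, hw⟩ := exists_pull γ v
    rcases hv v with h | ⟨h, h'⟩ | ⟨-, h⟩
    · exact unr_of_exp h4 (exp_fix h b.ne_zero)
    · refine unr_of_exp h4 (exp_mul ?_ (even_b2_tw b.ne_zero v (hloc v) h))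
      have h5 := even_b2_tw b.ne_zero w (hloc w) (h' w hw)
      rwa [hw] at h5
    · have h5 := unr_good (v := w) hL (by rw [hw, map_ofNat, h4]) (by rw [hw, map_intCast, h])
      exact (unr_pull hw h5).mul (unr_good hL h4 h)) (fun v h2 hev => by
    rw [Units.val_mul, Units.val_mk0] at hev ⊢
    refine two_bg hp2 h2 hodd hA2 hn3 hev ?_
    rw [map_intCast, map_intCast]
    exact hL2.1 v)
  refine ⟨y, ?_⟩
  have h6 := congrArg Units.val hy
  rw [Units.val_mul, Units.val_mk0, Units.val_pow_eq_pow_val] at h6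
  exact h6.symm

/-- **all the pairs** -/
theorem rel_all (hB : B ≠ 0) (hD : A ^ 2 ≠ 4 * B)
    (hred : ¬ (4 ∣ A ∧ 16 ∣ B))
    (htype : (0 < B ∧ (A < 0 ∨ A ^ 2 < 4 * B)) ↔ (¬ 2 ∣ A ∨ ¬ 4 ∣ (A / 2) ^ 2 - B))
    (h3 : 3 ∣ Module.finrank ℚ F →
      ¬ (A % 4 = 3 ∧ 2 ≤ B % 4) ∧ ¬ (A % 8 = 2 ∧ 8 ≤ ((A / 2) ^ 2 - B) % 16))
    (hp2 : (Ideal.span {(2 : 𝓞 F)}).IsPrime)
    (hcl : Odd (Nat.card (NCl F))) (hodd : Odd (Module.finrank ℚ F)) (γ : F ≃+* F)
    (hv : ∀ v : HeightOneSpectrum (𝓞 F), Pl γ A B v) :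
    (∀ b : Fˣ, L1 A B (b : F) → L1 A B (γ (b : F) * b) →
      ∃ y : Fˣ, γ (b : F) * b = (y : F) ^ 2) ∧
    (∀ b : Fˣ, L2 A B (b : F) → L2 A B (γ (b : F) * b) →
      ∃ y : Fˣ, γ (b : F) * b = (y : F) ^ 2) := by
  by_cases h2 : ¬ 2 ∣ A ∨ ¬ 4 ∣ (A / 2) ^ 2 - B
  · obtain ⟨hB0, hA⟩ := htype.2 h2
    have hA2 : A % 2 = 1 ∨ (A % 2 = 0 ∧ ((A / 2) ^ 2 - B) % 4 ≠ 0) := by
      rcases Int.emod_two_eq_zero_or_one A with h | h
      · right
        refine ⟨h, ?_⟩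
        rcases h2 with h2 | h2
        · exact absurd (Int.dvd_of_emod_eq_zero h) h2
        · intro h4
          exact h2 (Int.dvd_of_emod_eq_zero h4)
      · exact Or.inl h
    have hn3 : A % 4 = 3 → (B % 4 = 2 ∨ B % 4 = 3) → ¬ 3 ∣ Module.finrank ℚ F := by
      intro h4 h5 h6
      exact (h3 h6).1 ⟨h4, by omega⟩
    exact ⟨fun b hL _ => relp1 γ hB0 hA hp2 hcl hv b hL,
      fun b hL hL2 => relp2 γ hA2 hn3 hp2 hcl hodd hv b hL hL2⟩
  · have h1 : ¬ (0 < B ∧ (A < 0 ∨ A ^ 2 < 4 * B)) := fun h => h2 (htype.1 h)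
    push Not at h2
    obtain ⟨⟨s, hs⟩, h4⟩ := h2
    have hs2 : A / 2 = s := by omega
    rw [hs2] at h4 h3
    obtain ⟨c, hc⟩ := h4
    have hB' : B = (-s) ^ 2 - 4 * c := by linear_combination -hc
    have hA' : A = -2 * (-s) := by rw [hs]; ring
    have hc0 : c ≠ 0 := by
      rintro rfl
      apply hD
      rw [hs, hB']
      ring
    -- the real places
    have hDpos : 0 < c ∧ (-s < 0 ∨ (-s) ^ 2 < 4 * c) := by
      by_cases hBp : 0 < B
      · have h5 : ¬ (A < 0 ∨ A ^ 2 < 4 * B) := fun h => h1 ⟨hBp, h⟩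
        push Not at h5
        obtain ⟨h6, h7⟩ := h5
        have h8 : 4 * B < A ^ 2 := lt_of_le_of_ne h7 (Ne.symm hD)
        have h9 : A ≠ 0 := by
          rintro rfl
          nlinarith
        refine ⟨?_, Or.inl ?_⟩
        · rw [hs, hB'] at h8
          nlinarith
        · omega
      · have h5 : B < 0 := lt_of_le_of_ne (not_lt.1 hBp) hB
        refine ⟨?_, Or.inr ?_⟩
        · nlinarith [sq_nonneg s]
        · linarith
    have hv' : ∀ v : HeightOneSpectrum (𝓞 F), Pl γ (-s) c v := by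
      intro v
      have h5 := hv v
      rw [hA', hB'] at h5
      rcases h5 with h5 | ⟨h5, h6⟩ | ⟨h5, h6⟩
      · exact Or.inl h5
      · exact Or.inr (Or.inl ⟨h5.dual_int, fun w hw => (h6 w hw).dual_int⟩)
      · refine Or.inr (Or.inr ⟨?_, h5⟩)
        have e1 : (-2 * (-s)) ^ 2 - 4 * ((-s) ^ 2 - 4 * c) = 16 * c := by ring
        rw [e1] at h6
        exact val_one_of_mul h6
    have hA2 : (-s) % 2 = 1 ∨ ((-s) % 2 = 0 ∧ (((-s) / 2) ^ 2 - c) % 4 ≠ 0) := by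
      rcases Int.emod_two_eq_zero_or_one s with h | h
      · right
        refine ⟨by omega, ?_⟩
        intro h5
        apply hred
        obtain ⟨t, ht⟩ := Int.dvd_of_emod_eq_zero h
        have h6 : (-s) / 2 = -t := by omega
        rw [h6] at h5
        obtain ⟨q, hq⟩ := Int.dvd_of_emod_eq_zero h5
        constructor
        · exact ⟨t, by rw [hs, ht]; ring⟩
        · refine ⟨q, ?_⟩
          rw [hB', ht]
          linear_combination 4 * hq
      · left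
        omega
    have hn3 : (-s) % 4 = 3 → (c % 4 = 2 ∨ c % 4 = 3) → ¬ 3 ∣ Module.finrank ℚ F := by
      intro h5 h6 h7
      refine (h3 h7).2 ⟨by omega, ?_⟩
      rw [hc]
      omega
    rw [hA', hB']
    exact ⟨fun b hL hL2 => relp2 γ hA2 hn3 hp2 hcl hodd hv' b (L1_dual hL) (L1_dual hL2),
      fun b hL _ => relp1 γ hDpos.1 hDpos.2 hp2 hcl hv' b (L2_dual hL)⟩

end rel

/-- **the descent** -/
theorem stab_gen {A B : ℤ} (hB : B ≠ 0) (hD : A ^ 2 - 4 * B ≠ 0)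
    (F K : Type) [Field F] [NumberField F] [Field K] [NumberField K]
    [iF : Algebra ℚ F] [iK : Algebra ℚ K] (i : F →+* K)
    (hgal : @IsGalois F _ K _ i.toAlgebra) (hodd : Odd (Module.finrank ℚ K))
    (hfr : ∀ γ : K ≃+* K, (∀ x, γ (i x) = i x) →
      (∀ b : Kˣ, L1 A B (b : K) → L1 A B (γ (b : K) * b) →
        ∃ y : Kˣ, γ (b : K) * b = (y : K) ^ 2) ∧
      (∀ b : Kˣ, L2 A B (b : K) → L2 A B (γ (b : K) * b) →
        ∃ y : Kˣ, γ (b : K) * b = (y : K) ^ 2)) :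
    Module.finrank ℤ (MP (gc A B K)) = Module.finrank ℤ (MP (gc A B F)) ∧
    Nonempty (AddCommGroup.primaryComponent
      (Pool.Agent.TH841.NF.D.Sha (gc A B F)) 2 ≃+
      AddCommGroup.primaryComponent
      (Pool.Agent.TH841.NF.D.Sha (gc A B K)) 2) := by
  classical
  obtain ⟨e₀⟩ : Nonempty (K →+* AlgebraicClosure ℚ) :=
    ⟨(IsAlgClosed.lift : K →ₐ[ℚ] AlgebraicClosure ℚ).toRingHom⟩
  obtain ⟨eK, heK⟩ := Helper891_XS.exists_e K e₀
  obtain ⟨eF, heF⟩ := Helper891_XS.exists_e F (e₀.comp i)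
  have hle : ∀ h, Fx eK h → Fx eF h := by
    intro h hh x
    have h1 : h (em eK (i x)) = em eK (i x) := hh (i x)
    show h (em eF x) = em eF x
    rw [heF]
    show h (e₀ (i x)) = e₀ (i x)
    rw [← heK]
    exact h1
  have hrel : Rel A B eK (HF eF) := by
    intro σ hσ
    have hσ' : Fx eF σ := hσ
    have h1 : ∀ x : F, σ (e₀ (i x)) = e₀ (i x) := by
      intro x
      have h1 : σ (em eF x) = em eF x := hσ' x
      rw [heF] at h1
      exact h1
    let i0 : Algebra F K := i.toAlgebra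
    let i1 : Algebra K Qb := e₀.toAlgebra
    let i3 : Algebra F Qb := (e₀.comp i).toAlgebra
    have i2 : IsScalarTower F K Qb := IsScalarTower.of_algebraMap_eq (fun x => rfl)
    have hgal' : IsGalois F K := hgal
    let σ' : Qb ≃ₐ[F] Qb := AlgEquiv.ofRingEquiv (f := (σ : Qb ≃+* Qb)) (fun x => h1 x)
    set τ : K ≃ₐ[F] K := AlgEquiv.restrictNormal (F := F) σ' K with hτ
    have hcomm : ∀ x : K, e₀ (τ x) = σ (e₀ x) := fun x => AlgEquiv.restrictNormal_commutes σ' K x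
    refine ⟨(τ : K ≃+* K), fun x => ?_, hfr _ fun x => ?_⟩
    · rw [heK, heK]
      exact (hcomm x).symm
    · exact τ.commutes x
  exact ⟨rank_rel (gc_sc' A B) (gc_sc' A B) eF eK hle (gc_isT hB hD ℚ) (gc_isT hB hD K) hrel hodd,
    sha_iso (gc_sc' A B) (gc_sc' A B) eF eK hle (gc_isT hB hD ℚ) (gc_isT hB hD K) hrel hodd⟩

/-- the descent, with the algebra structures of the library -/
theorem stab_gen' {A B : ℤ} (hB : B ≠ 0) (hD : A ^ 2 ≠ 4 * B)
    (hred : ¬ (4 ∣ A ∧ 16 ∣ B))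
    (htype : (0 < B ∧ (A < 0 ∨ A ^ 2 < 4 * B)) ↔ (¬ 2 ∣ A ∨ ¬ 4 ∣ (A / 2) ^ 2 - B))
    (F K : Type) [Field F] [NumberField F] [Field K] [NumberField K]
    (i : F →+* K) (hgal : @IsGalois F _ K _ i.toAlgebra)
    (h3 : 3 ∣ (@Module.finrank ℚ K _ _ (DivisionRing.toRatAlgebra (R := K)).toModule) →
      ¬ (A % 4 = 3 ∧ 2 ≤ B % 4) ∧ ¬ (A % 8 = 2 ∧ 8 ≤ ((A / 2) ^ 2 - B) % 16))
    (htr : IsTotallyReal K)
    (hp2 : (Ideal.span {(2 : 𝓞 K)}).IsPrime)
    (hcl : Odd (Nat.card (NCl K)))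
    (hodd : Odd (@Module.finrank ℚ K _ _ (DivisionRing.toRatAlgebra (R := K)).toModule))
    (hv : ∀ γ : K ≃+* K, (∀ x, γ (i x) = i x) → ∀ v : HeightOneSpectrum (𝓞 K), Pl γ A B v) :
    Pool.Agent.TH841.NF.D.rk (gc A B K) = Pool.Agent.TH841.NF.D.rk (gc A B F) ∧
    Nonempty (AddCommGroup.primaryComponent
      (Pool.Agent.TH841.NF.D.Sha (gc A B K)) 2 ≃+
      AddCommGroup.primaryComponent
      (Pool.Agent.TH841.NF.D.Sha (gc A B F)) 2) := by
  let iF : Algebra ℚ F := DivisionRing.toRatAlgebra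
  let iK : Algebra ℚ K := DivisionRing.toRatAlgebra
  have hfin : FiniteDimensional ℚ K := by
    have h1 : Module.finrank ℚ K ≠ 0 := by
      intro h0
      rw [h0] at hodd
      exact absurd hodd (by decide)
    exact Module.finite_of_finrank_pos (Nat.pos_of_ne_zero h1)
  obtain ⟨h1, ⟨h2⟩⟩ := stab_gen hB (sub_ne_zero.2 hD) F K i hgal hodd
    (fun γ hγ => @rel_all K _ _ iK A B htr hfin hB hD hred htype h3 hp2 hcl hodd γ (hv γ hγ))
  have e1 : Pool.Agent.TH841.NF.D.rk (gc A B K) = Module.finrank ℤ (MP (gc A B K)) := by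
    unfold Pool.Agent.TH841.NF.D.rk
    congr
  have e2 : Pool.Agent.TH841.NF.D.rk (gc A B F) = Module.finrank ℤ (MP (gc A B F)) := by
    unfold Pool.Agent.TH841.NF.D.rk
    congr
  exact ⟨e1.trans (h1.trans e2.symm), ⟨h2.symm⟩⟩

/-- the second alternative at a bad prime -/
def TwK (K : Type) [Field K] [NumberField K] (A B : ℤ) (p : ℕ) : Prop :=
  p ≠ 2 ∧ ∃ d α β : ℤ, d ≠ 0 ∧ A = d * α ∧ B = d ^ 2 * β ∧
    ∀ v : HeightOneSpectrum (𝓞 K), (p : 𝓞 K) ∈ v.asIdeal → ∀ x : 𝓞 K,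
      x ^ 2 - (β : 𝓞 K) ∉ v.asIdeal ∧ x ^ 2 - ((α ^ 2 - 4 * β : ℤ) : 𝓞 K) ∉ v.asIdeal

lemma two_notMem' {K : Type} [Field K] [NumberField K] {v : HeightOneSpectrum (𝓞 K)} {p : ℕ}
    (hp : p.Prime) (hp2 : p ≠ 2) (hv : (p : 𝓞 K) ∈ v.asIdeal) : (2 : 𝓞 K) ∉ v.asIdeal := by
  intro h
  obtain ⟨k, hk⟩ : ∃ k, p = 2 * k + 1 := hp.odd_of_ne_two hp2
  apply v.isPrime.ne_top
  rw [Ideal.eq_top_iff_one]
  have e : (1 : 𝓞 K) = (p : 𝓞 K) - 2 * (k : 𝓞 K) := by
    rw [hk]; push_cast; ring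
  rw [e]
  exact sub_mem hv (v.asIdeal.mul_mem_right _ h)

/-- the places -/
lemma pl_of {K : Type} [Field K] [NumberField K] {A B : ℤ} (hB : B ≠ 0) (hD : A ^ 2 ≠ 4 * B)
    (γ : K ≃+* K)
    (hbad : ∀ p : ℕ, p.Prime → (p : ℤ) ∣ B * (A ^ 2 - 4 * B) → TwK K A B p ∨
      ∀ v : HeightOneSpectrum (𝓞 K), (p : 𝓞 K) ∈ v.asIdeal →
        ∀ x, v.valuation K (γ x) = v.valuation K x)
    (v : HeightOneSpectrum (𝓞 K)) : Pl γ A B v := by
  have main : ∀ p : ℕ, p.Prime → (p : ℤ) ∣ B * (A ^ 2 - 4 * B) → (p : 𝓞 K) ∈ v.asIdeal →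
      Pl γ A B v := by
    intro p hp hpd hpv
    rcases hbad p hp hpd with ⟨h2, d, α, β, hd, hA, hB, h⟩ | h
    · have htw : ∀ w : HeightOneSpectrum (𝓞 K), (p : 𝓞 K) ∈ w.asIdeal →
          Tw w (A : K) (B : K) := fun w hw =>
        Tw.of_int (two_notMem' hp h2 hw) hd hA hB (fun x => (h w hw x).1) fun x => (h w hw x).2
      exact Or.inr (Or.inl ⟨htw v hpv, fun w hw => htw w ((mem_of_pull hw p).2 hpv)⟩)
    · exact Or.inl (h v hpv)
  by_cases h1 : v.valuation K (B : K) = 1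
  · by_cases h2 : v.valuation K ((A ^ 2 - 4 * B : ℤ) : K) = 1
    · exact Or.inr (Or.inr ⟨h1, h2⟩)
    · obtain ⟨p, hp, hpc, hpv⟩ := exists_prime v _ (sub_ne_zero.2 hD) h2
      exact main p hp (hpc.mul_left _) hpv
  · obtain ⟨p, hp, hpc, hpv⟩ := exists_prime v _ hB h1
    exact main p hp (hpc.mul_right _) hpv

end Pool.Agent.Helper891_XS.W
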