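import Pool.Agent.Helper891_XS.Ge
import Pool.Agent.Helper891_XS.Gb

/-!
# Curves with a rational point of order two, over `F` and `K`: the theorems for all the pairs
-/

set_option autoImplicit false

open NumberField NumberField.InfinitePlace IsDedekindDomain WeierstrassCurve

namespace Pool.Agent.Helper891_XS.W

open Pool.Agent.Y682 (NCl gc)

open Pool.Agent.Y682.XD Pool.Agent.Y682.XT

open Pool.Agent.Helper891_XR

/-- opposite types at infinity and at two -/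
def PairC (A B : ℤ) : Prop := B ≠ 0 ∧ A ^ 2 ≠ 4 * B ∧ ¬ (4 ∣ A ∧ 16 ∣ B) ∧
  ((0 < B ∧ (A < 0 ∨ A ^ 2 < 4 * B)) ↔ (¬ 2 ∣ A ∨ ¬ 4 ∣ (A / 2) ^ 2 - B))

/-- the exceptional case at two -/
def ExcC (A B : ℤ) : Prop :=
  (A % 4 = 3 ∧ 2 ≤ B % 4) ∨ (A % 8 = 2 ∧ 8 ≤ ((A / 2) ^ 2 - B) % 16)

/-- general form -/
theorem gen_fix {A B : ℤ} (h : PairC A B)
    (F K : Type) [Field F] [NumberField F] [Field K] [NumberField K] (i : F →+* K)
    (hgal : @IsGalois F _ K _ i.toAlgebra) (htr : IsTotallyReal K)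
    (hodd : Odd (Module.finrank ℚ K)) (hcl : Odd (Nat.card (NCl K)))
    (hp2 : (Ideal.span {(2 : 𝓞 K)}).IsPrime)
    (h3 : 3 ∣ Module.finrank ℚ K → ¬ ExcC A B)
    (hγ : ∀ p : ℕ, p.Prime → (p : ℤ) ∣ B * (A ^ 2 - 4 * B) → TwK K A B p ∨
      ∀ γ : K ≃+* K, (∀ x, γ (i x) = i x) → ∀ v : HeightOneSpectrum (𝓞 K),
      (p : 𝓞 K) ∈ v.asIdeal → ∀ x, v.valuation K (γ x) = v.valuation K x) : StR F K A B := by
  obtain ⟨hB, hD, hred, htype⟩ := h
  obtain ⟨h1, h2⟩ := stab_gen' hB hD hred htype F K i hgal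
    (fun h => ⟨fun h' => h3 h (Or.inl h'), fun h' => h3 h (Or.inr h')⟩) htr hp2 hcl hodd
    (fun γ hγ' v => pl_of hB hD γ (fun p hp hpd => by
      rcases hγ p hp hpd with h | h
      · exact Or.inl h
      · exact Or.inr (h γ hγ')) v)
  exact ⟨h2, h1⟩

/-- **the first theorem** -/
theorem gen_one {A B : ℤ} (h : PairC A B)
    (F K : Type) [Field F] [NumberField F] [Field K] [NumberField K] [Algebra F K]
    [hgal : IsGalois F K] [htr : IsTotallyReal K]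
    (hodd : Odd (Module.finrank ℚ K)) (hcl : Odd (Nat.card (NCl K)))
    (hp2 : (Ideal.span {(2 : 𝓞 K)}).IsPrime)
    (h3 : 3 ∣ Module.finrank ℚ K → ¬ ExcC A B)
    (hbad : ∀ p : ℕ, p.Prime → (p : ℤ) ∣ B * (A ^ 2 - 4 * B) →
      (∀ v w : HeightOneSpectrum (𝓞 K), (p : 𝓞 K) ∈ v.asIdeal → (p : 𝓞 K) ∈ w.asIdeal →
      v.under (𝓞 F) = w.under (𝓞 F) → v = w) ∨ TwK K A B p) : StR F K A B := by
  refine gen_fix h F K (algebraMap F K) ?_ htr hodd hcl hp2 h3 (fun p hp hpd => ?_)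
  · convert hgal
    exact Algebra.algebra_ext _ _ fun x => rfl
  · rcases hbad p hp hpd with h | h
    · exact Or.inr fun γ hγ v hv x => fix_of_under h γ hγ v hv x
    · exact Or.inl h

/-- **the second theorem** -/
theorem gen_two {A B : ℤ} (h : PairC A B) (hE : ¬ ExcC A B) (n : ℕ)
    (M : Type) [Field M] [NumberField M] [IsCyclotomicExtension {3 ^ (n + 1)} ℚ M]
    (F K : IntermediateField ℚ M) (hFK : F ≤ K) (hodd : Odd (Module.finrank ℚ K))
    (hbad : ∀ p : ℕ, p.Prime → (p : ℤ) ∣ B * (A ^ 2 - 4 * B) →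
      p = 3 ∨ ¬ 9 * Module.finrank ℚ F ∣ p ^ 2 - 1 ∨ TwK K A B p) : StR F K A B := by
  obtain ⟨h2, -, hN⟩ := three_hyp n M K hodd
  have hz : NeZero (3 ^ (n + 1)) := ⟨pow_ne_zero _ (by norm_num)⟩
  have hreal : IsTotallyReal K := by
    obtain ⟨φ', -⟩ := Pool.Agent.Y682.XT.exists_phi (3 ^ (n + 1)) M
    have hre : Pool.Agent.Y682.XT.IsRe (3 ^ (n + 1)) M K := Pool.Agent.Y682.XT.re_of_odd hodd
    exact ⟨Pool.Agent.Y682.XT.real_place (q := 3 ^ (n + 1)) (φ := φ') hre⟩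
  have hab : IsAbelianGalois ℚ M := IsCyclotomicExtension.isAbelianGalois {3 ^ (n + 1)} ℚ M
  have hGal : IsGalois ℚ K :=
    @IsAbelianGalois.toIsGalois ℚ K _ _ (IntermediateField.algebra' K) inferInstance
  let iFK : Algebra F K := (IntermediateField.inclusion hFK).toRingHom.toAlgebra
  have iT : IsScalarTower ℚ F K := IsScalarTower.of_algebraMap_eq fun x => rfl
  have hGalFK : IsGalois F K := IsGalois.tower_top_of_isGalois ℚ F K
  have hodd' : Odd (@Module.finrank ℚ K _ _ (DivisionRing.toRatAlgebra (R := K)).toModule) := by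
    convert hodd
  refine gen_fix h F K (IntermediateField.inclusion hFK).toRingHom hGalFK hreal hodd' hN
    (by exact_mod_cast h2) (fun _ => hE) ?_
  intro p hp hpd
  rcases hbad p hp hpd with h3 | h9 | h
  · subst h3
    exact Or.inr fun γ _ v hv x => fix_of_uniq (p := 3) γ
      (fun v w hv hw => Pool.Agent.Y419.XD.s_ram 3 n Nat.prime_three M K v w hv hw) v hv x
  · by_cases h3 : p = 3
    · subst h3
      exact Or.inr fun γ _ v hv x => fix_of_uniq (p := 3) γ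
        (fun v w hv hw => Pool.Agent.Y419.XD.s_ram 3 n Nat.prime_three M K v w hv hw) v hv x
    · exact Or.inr fun γ hγ v hv x => fix_of_frob (q := 3 ^ (n + 1)) hFK hp hGal
        (fun σ hσ => frob_layer hFK hodd hp h3 h9 σ hσ) γ (fun x hx => hγ ⟨x, hx⟩) v hv x
  · exact Or.inl h

/-- **the third theorem** -/
theorem gen_three {A B : ℤ} (h : PairC A B) (hE : ¬ ExcC A B) (n : ℕ)
    (M : Type) [Field M] [NumberField M] [IsCyclotomicExtension {3 ^ (n + 1)} ℚ M]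
    (F K : IntermediateField ℚ M) (hFK : F ≤ K) (hodd : Odd (Module.finrank ℚ K))
    (hbig : (B * (A ^ 2 - 4 * B)) ^ 2 ≤ 9 * (Module.finrank ℚ F : ℤ)) : StR F K A B := by
  have hne : B * (A ^ 2 - 4 * B) ≠ 0 := by
    obtain ⟨hB, hD, -, -⟩ := h
    exact mul_ne_zero hB (sub_ne_zero.2 hD)
  refine gen_two h hE n M F K hFK hodd fun p hp hpd => Or.inr (Or.inl fun h => ?_)
  have h1 : (p : ℤ) ^ 2 ≤ (B * (A ^ 2 - 4 * B)) ^ 2 := by
    rw [sq_le_sq, Nat.abs_cast]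
    exact Int.le_of_dvd (abs_pos.2 hne) ((dvd_abs _ _).2 hpd)
  have hp2 := hp.two_le
  have h2 : 0 < p ^ 2 - 1 := by
    have : 2 ^ 2 ≤ p ^ 2 := Nat.pow_le_pow_left hp2 2
    omega
  have h3 := Nat.le_of_dvd h2 h
  have h4 : ((p ^ 2 : ℕ) : ℤ) ≤ ((9 * Module.finrank ℚ F : ℕ) : ℤ) := by
    push_cast
    linarith
  have h5 : p ^ 2 ≤ 9 * Module.finrank ℚ F := by exact_mod_cast h4
  omega

end Pool.Agent.Helper891_XS.W
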