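import Mathlib
import Pool.Agent.Helper891_XS.Gg

/-!
# Curves `y² = x³ + a x² + 16 c x`, `a = 1` modulo `4`, over `F` and `K`
-/

set_option autoImplicit false
set_option linter.unusedSectionVars false

attribute [-instance] DivisionRing.toRatAlgebra

namespace Pool.Agent.Helper891_XS.O

open WeierstrassCurve NumberField IsDedekindDomain NumberField.InfinitePlace

open Pool.Agent.TH841.NF Pool.Agent.Y682 Pool.Agent.Y702.A Pool.Agent.Y65.Sham Pool.Agent.R431.T

open Pool.Agent.Helper891_XR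

open Pool.Agent.TH841.SH.D (Pt act Gal Coch IsCoc IsCob LocTriv cob)

section rel

variable {F : Type} [Field F] [NumberField F] {k c : ℤ}

/-- the types of the places with respect to an automorphism -/
def Pl (γ : F ≃+* F) (k c : ℤ) (v : HeightOneSpectrum (𝓞 F)) : Prop :=
  (∀ x, v.valuation F (γ x) = v.valuation F x) ∨
  (Tw v ((1 + 4 * k : ℤ) : F) ((16 * c : ℤ) : F) ∧ ∀ w : HeightOneSpectrum (𝓞 F),
    (∀ x, w.valuation F x = v.valuation F (γ x)) → Tw w ((1 + 4 * k : ℤ) : F) ((16 * c : ℤ) : F)) ∨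
  (v.valuation F (c : F) = 1 ∧ v.valuation F (((1 + 4 * k) ^ 2 - 4 * (16 * c) : ℤ) : F) = 1)

lemma gd_o (k c : ℤ) (v : HeightOneSpectrum (𝓞 F)) :
    ∃ s u : F, ((1 + 4 * k : ℤ) : F) = s ^ 2 + 4 * u ∧ v.valuation F s ≤ 1 ∧
      v.valuation F u ≤ 1 ∧ ((16 * c : ℤ) : F) = 16 * (c : F) ∧ v.valuation F (c : F) ≤ 1 :=
  ⟨1, k, by push_cast; ring, (map_one _).le, val_int_le v k, by push_cast; ring,
      val_int_le v c⟩

lemma even_o {b : F} (hb : b ≠ 0) (hL : L1 (1 + 4 * k) (16 * c) b)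
    {v : HeightOneSpectrum (𝓞 F)} (hc : v.valuation F (c : F) = 1) :
    ∃ m : ℤ, v.valuation F b = WithZero.exp (2 * m) := by
  obtain ⟨s, u, hs, hs1, hu1, hC, -⟩ := gd_o (F := F) k c v
  refine even_b1 hb v (A := ((1 + 4 * k : ℤ) : F)) (B := ((16 * c : ℤ) : F)) ?_ hs hs1 hu1 hC hc
  rw [map_intCast, map_intCast]
  exact hL.1 v

lemma unr_o {b : F} (hL : L2 (1 + 4 * k) (16 * c) b) {v : HeightOneSpectrum (𝓞 F)}
    (hD : v.valuation F (((1 + 4 * k) ^ 2 - 4 * (16 * c) : ℤ) : F) = 1) :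
    UnrC (v.valuation F) b := by
  obtain ⟨s, u, hs, hs1, hu1, hC, hC1⟩ := gd_o (F := F) k c v
  have hDF : (((1 + 4 * k : ℤ) : F) ^ 2 - 4 * ((16 * c : ℤ) : F)) =
      (((1 + 4 * k) ^ 2 - 4 * (16 * c) : ℤ) : F) := by
    push_cast; ring
  refine unr_b2 v (A := ((1 + 4 * k : ℤ) : F)) (B := ((16 * c : ℤ) : F)) ?_ hs hs1 hu1 hC hC1
    (by rw [hDF, hD])
  rw [map_intCast, map_intCast]
  exact hL.1 v

variable [IsTotallyReal F]

/-- the first class -/
lemma relo1 (γ : F ≃+* F) (hc : 0 < c) (hA : 1 + 4 * k < 0 ∨ (1 + 4 * k) ^ 2 < 4 * (16 * c))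
    (hcl : Odd (Nat.card (NCl F)))
    (hv : ∀ v : HeightOneSpectrum (𝓞 F), Pl γ k c v)
    (b : Fˣ) (hL : L1 (1 + 4 * k) (16 * c) (b : F)) :
    ∃ y : Fˣ, γ (b : F) * b = (y : F) ^ 2 := by
  have hγb : γ (b : F) ≠ 0 := (map_ne_zero_iff γ γ.injective).2 b.ne_zero
  have hpos : TotPos (b : F) := by
    intro φ
    have hB' : 0 < φ ((16 * c : ℤ) : F) := by
      rw [map_intCast]
      exact_mod_cast (by positivity : (0 : ℤ) < 16 * c)
    refine pos_b1 (A := ((1 + 4 * k : ℤ) : F)) (B := ((16 * c : ℤ) : F)) (fun v => ?_) φ hB' ?_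
    · rw [map_intCast, map_intCast]
      exact hL.2 v
    · rw [map_intCast, map_intCast]
      rcases hA with h | h
      · left; exact_mod_cast h
      · right; exact_mod_cast h
  have hpos' : TotPos (((Units.mk0 (γ (b : F)) hγb * b : Fˣ)) : F) := by
    intro φ
    rw [Units.val_mul, Units.val_mk0, map_mul]
    exact mul_pos (hpos (φ.comp (γ : F →+* F))) (hpos φ)
  have hloc : ∀ v : HeightOneSpectrum (𝓞 F), ∃ z m : v.adicCompletion F, z ≠ 0 ∧
      algebraMap F (v.adicCompletion F) (b : F) * z ^ 2 = m ∧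
      S1 (algebraMap F (v.adicCompletion F) ((1 + 4 * k : ℤ) : F))
        (algebraMap F (v.adicCompletion F) ((16 * c : ℤ) : F)) m := by
    intro v
    rw [map_intCast, map_intCast]
    exact hL.1 v
  have hmul : ∀ (v : HeightOneSpectrum (𝓞 F)) (x y : F),
      (∃ m : ℤ, v.valuation F x = WithZero.exp (2 * m)) →
      (∃ m : ℤ, v.valuation F y = WithZero.exp (2 * m)) →
      ∃ m : ℤ, v.valuation F (x * y) = WithZero.exp (2 * m) := by
    rintro v x y ⟨m, hm⟩ ⟨n, hn⟩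
    exact ⟨m + n, by rw [map_mul, hm, hn, ← WithZero.exp_add, mul_add]⟩
  obtain ⟨y, hy⟩ := elt_sq hcl (Units.mk0 (γ (b : F)) hγb * b) hpos' (by
    intro v
    rw [Units.val_mul, Units.val_mk0]
    obtain ⟨w, hw⟩ := exists_pull γ v
    rcases hv v with h | ⟨h, h'⟩ | ⟨h, -⟩
    · refine ⟨WithZero.log (v.valuation F (b : F)), ?_⟩
      rw [map_mul, h, two_mul, WithZero.exp_add,
        WithZero.exp_log ((Valuation.ne_zero_iff _).2 b.ne_zero)]
    · refine hmul v _ _ ?_ (even_b1_tw b.ne_zero v (hloc v) h)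
      have h5 := even_b1_tw b.ne_zero w (hloc w) (h' w hw)
      rwa [hw] at h5
    · refine hmul v _ _ ?_ (even_o b.ne_zero hL h)
      have h5 := even_o (v := w) b.ne_zero hL (by rw [hw, map_intCast, h])
      rwa [hw] at h5)
  refine ⟨y, ?_⟩
  have h6 := congrArg Units.val hy
  rw [Units.val_mul, Units.val_mk0, Units.val_pow_eq_pow_val] at h6
  exact h6

/-- the second class -/
lemma relo2 (γ : F ≃+* F) (hcl : Odd (Nat.card (NCl F)))
    (hv : ∀ v : HeightOneSpectrum (𝓞 F), Pl γ k c v)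
    (b : Fˣ) (hL : L2 (1 + 4 * k) (16 * c) (b : F)) :
    ∃ y : Fˣ, γ (b : F) * b = (y : F) ^ 2 := by
  have hγb : γ (b : F) ≠ 0 := (map_ne_zero_iff γ γ.injective).2 b.ne_zero
  have hloc : ∀ v : HeightOneSpectrum (𝓞 F), ∃ z m : v.adicCompletion F, z ≠ 0 ∧
      algebraMap F (v.adicCompletion F) (b : F) * z ^ 2 = m ∧
      S2 (algebraMap F (v.adicCompletion F) ((1 + 4 * k : ℤ) : F))
        (algebraMap F (v.adicCompletion F) ((16 * c : ℤ) : F)) m := by
    intro v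
    rw [map_intCast, map_intCast]
    exact hL.1 v
  have hmul : ∀ (v : HeightOneSpectrum (𝓞 F)) (x y : F),
      (∃ m : ℤ, v.valuation F x = WithZero.exp (2 * m)) →
      (∃ m : ℤ, v.valuation F y = WithZero.exp (2 * m)) →
      ∃ m : ℤ, v.valuation F (x * y) = WithZero.exp (2 * m) := by
    rintro v x y ⟨m, hm⟩ ⟨n, hn⟩
    exact ⟨m + n, by rw [map_mul, hm, hn, ← WithZero.exp_add, mul_add]⟩
  have hgood : ∀ v : HeightOneSpectrum (𝓞 F),
      v.valuation F (((1 + 4 * k) ^ 2 - 4 * (16 * c) : ℤ) : F) = 1 →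
      UnrC (v.valuation F) (γ (b : F) * b) := by
    intro v h
    obtain ⟨w, hw⟩ := exists_pull γ v
    have h5 := unr_o (v := w) hL (by rw [hw, map_intCast, h])
    exact (unr_pull hw h5).mul (unr_o hL h)
  obtain ⟨y, hy⟩ := sq_of_unrC hcl (Units.mk0 (γ (b : F)) hγb * b) (by
    intro v
    rw [Units.val_mul, Units.val_mk0]
    by_cases h2 : (2 : 𝓞 F) ∈ v.asIdeal
    · apply hgood
      rw [← map_intCast (algebraMap (𝓞 F) F), HeightOneSpectrum.valuation_eq_one_iff_notMem]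
      intro h7
      apply v.isPrime.ne_top
      rw [Ideal.eq_top_iff_one]
      have e : (1 : 𝓞 F) = (((1 + 4 * k) ^ 2 - 4 * (16 * c) : ℤ) : 𝓞 F) -
          2 * ((4 * k + 8 * k ^ 2 - 32 * c : ℤ) : 𝓞 F) := by
        push_cast; ring
      rw [e]
      exact sub_mem h7 (v.asIdeal.mul_mem_right _ h2)
    have h4 := val_two h2
    obtain ⟨w, hw⟩ := exists_pull γ v
    rcases hv v with h | ⟨h, h'⟩ | ⟨-, h⟩
    · refine unr_of_exp h4 ⟨WithZero.log (v.valuation F (b : F)), ?_⟩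
      rw [map_mul, h, two_mul, WithZero.exp_add,
        WithZero.exp_log ((Valuation.ne_zero_iff _).2 b.ne_zero)]
    · refine unr_of_exp h4 (hmul v _ _ ?_ (even_b2_tw b.ne_zero v (hloc v) h))
      have h5 := even_b2_tw b.ne_zero w (hloc w) (h' w hw)
      rwa [hw] at h5
    · exact hgood v h)
  refine ⟨y, ?_⟩
  have h6 := congrArg Units.val hy
  rw [Units.val_mul, Units.val_mk0, Units.val_pow_eq_pow_val] at h6
  exact h6.symm

end rel

end Pool.Agent.Helper891_XS.O
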