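import Mathlib
import Pool.Agent.Helper891_XS.Gh

/-!
# Curves `y² = x³ + a x² + 16 c x`, `a = 1` modulo `4`, over `F` and `K`: the descent
-/

set_option autoImplicit false
set_option linter.unusedSectionVars false

attribute [-instance] DivisionRing.toRatAlgebra

namespace Pool.Agent.Helper891_XS.O

open WeierstrassCurve NumberField IsDedekindDomain NumberField.InfinitePlace

open Pool.Agent.TH841.NF Pool.Agent.Y682 Pool.Agent.Y702.A Pool.Agent.Y65.Sham Pool.Agent.R431.T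

open Pool.Agent.Helper891_XR

open Pool.Agent.TH841.SH.D (Pt act Gal Coch IsCoc IsCob LocTriv cob)

/-- **the descent** -/
theorem stab_gen {A B : ℤ} (hB : B ≠ 0) (hD : A ^ 2 - 4 * B ≠ 0)
    (F K : Type) [Field F] [NumberField F] [Field K] [NumberField K]
    [iF : Algebra ℚ F] [iK : Algebra ℚ K] (i : F →+* K)
    (hgal : @IsGalois F _ K _ i.toAlgebra)
    (hodd : Odd (@Module.finrank F K _ _ i.toAlgebra.toModule))
    (hfr : ∀ γ : K ≃+* K, (∀ x, γ (i x) = i x) →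
      (∀ b : Kˣ, L1 A B (b : K) → ∃ y : Kˣ, γ (b : K) * b = (y : K) ^ 2) ∧
      (∀ b : Kˣ, L2 A B (b : K) → ∃ y : Kˣ, γ (b : K) * b = (y : K) ^ 2)) :
    Module.finrank ℤ (MP (gc A B K)) = Module.finrank ℤ (MP (gc A B F)) ∧
    Nonempty (AddCommGroup.primaryComponent
      (Pool.Agent.TH841.NF.D.Sha (gc A B F)) 2 ≃+
      AddCommGroup.primaryComponent
      (Pool.Agent.TH841.NF.D.Sha (gc A B K)) 2) := by
  classical
  obtain ⟨e₀⟩ : Nonempty (K →+* AlgebraicClosure ℚ) :=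
    ⟨(IsAlgClosed.lift : K →ₐ[ℚ] AlgebraicClosure ℚ).toRingHom⟩
  obtain ⟨eK, heK⟩ := Helper891_XS.exists_e K e₀
  obtain ⟨eF, heF⟩ := Helper891_XS.exists_e F (e₀.comp i)
  have hle : ∀ h, Fx eK h → Fx eF h := by
    intro h hh x
    have h1 : h (em eK (i x)) = em eK (i x) := hh (i x)
    show h (em eF x) = em eF x
    rw [heF]
    show h (e₀ (i x)) = e₀ (i x)
    rw [← heK]
    exact h1
  have hrel : Helper891_XS.W.Rel A B eK (HF eF) := by
    intro σ hσ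
    have hσ' : Fx eF σ := hσ
    have h1 : ∀ x : F, σ (e₀ (i x)) = e₀ (i x) := by
      intro x
      have h1 : σ (em eF x) = em eF x := hσ' x
      rw [heF] at h1
      exact h1
    let i0 : Algebra F K := i.toAlgebra
    let i1 : Algebra K Qb := e₀.toAlgebra
    let i3 : Algebra F Qb := (e₀.comp i).toAlgebra
    have i2 : IsScalarTower F K Qb := IsScalarTower.of_algebraMap_eq (fun x => rfl)
    have hgal' : IsGalois F K := hgal
    let σ' : Qb ≃ₐ[F] Qb := AlgEquiv.ofRingEquiv (f := (σ : Qb ≃+* Qb)) (fun x => h1 x)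
    set τ : K ≃ₐ[F] K := AlgEquiv.restrictNormal (F := F) σ' K with hτ
    have hcomm : ∀ x : K, e₀ (τ x) = σ (e₀ x) := fun x => AlgEquiv.restrictNormal_commutes σ' K x
    obtain ⟨g1, g2⟩ := hfr (τ : K ≃+* K) (fun x => τ.commutes x)
    refine ⟨(τ : K ≃+* K), fun x => ?_, fun b hL _ => g1 b hL, fun b hL _ => g2 b hL⟩
    rw [heK, heK]
    exact (hcomm x).symm
  have hidx : Finite (HF eF ⧸ HH' eF eK) ∧ Odd (HH' eF eK).index := by
    have h1 := index_eq eF eK hle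
    let i0 : Algebra F K := i.toAlgebra
    have i2 : IsScalarTower ℚ F K := IsScalarTower.of_algebraMap_eq (fun x => by
      have h := RingHom.congr_fun (Subsingleton.elim (algebraMap ℚ K)
        ((algebraMap F K).comp (algebraMap ℚ F))) x
      exact h)
    have hF0 : Module.finrank ℚ F ≠ 0 := by
      rw [← card_coset eF]
      exact Fintype.card_ne_zero
    have h2 : Module.finrank ℚ F * Module.finrank F K = Module.finrank ℚ K :=
      Module.finrank_mul_finrank ℚ F K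
    have h3 : (HH' eF eK).index = Module.finrank F K := by
      apply Nat.eq_of_mul_eq_mul_left (Nat.pos_of_ne_zero hF0)
      rw [h2, ← h1, mul_comm]
    have h4 : Odd (HH' eF eK).index := by
      rw [h3]
      exact hodd
    refine ⟨?_, h4⟩
    apply Nat.finite_of_card_ne_zero
    show (HH' eF eK).index ≠ 0
    intro h0
    rw [h0] at h4
    exact absurd h4 (by decide)
  exact ⟨rank_rel (gc_sc' A B) (gc_sc' A B) eF eK hle (gc_isT hB hD ℚ) (gc_isT hB hD K) hrel hidx,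
    sha_iso (gc_sc' A B) (gc_sc' A B) eF eK hle (gc_isT hB hD ℚ) (gc_isT hB hD K) hrel hidx⟩

/-- the places -/
lemma pl_of {K : Type} [Field K] [NumberField K] {k c : ℤ} (hc : c ≠ 0)
    (hD : (1 + 4 * k) ^ 2 - 4 * (16 * c) ≠ 0) (γ : K ≃+* K)
    (hbad : ∀ p : ℕ, p.Prime → (p : ℤ) ∣ c * ((1 + 4 * k) ^ 2 - 64 * c) →
      Helper891_XS.W.TwK K (1 + 4 * k) (16 * c) p ∨
      ∀ v : HeightOneSpectrum (𝓞 K), (p : 𝓞 K) ∈ v.asIdeal →
        ∀ x, v.valuation K (γ x) = v.valuation K x)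
    (v : HeightOneSpectrum (𝓞 K)) : Pl γ k c v := by
  have main : ∀ p : ℕ, p.Prime → (p : ℤ) ∣ c * ((1 + 4 * k) ^ 2 - 64 * c) →
      (p : 𝓞 K) ∈ v.asIdeal → Pl γ k c v := by
    intro p hp hpd hpv
    rcases hbad p hp hpd with ⟨h2, d, α, β, hd, hA, hB, h⟩ | h
    · have htw : ∀ w : HeightOneSpectrum (𝓞 K), (p : 𝓞 K) ∈ w.asIdeal →
          Tw w ((1 + 4 * k : ℤ) : K) ((16 * c : ℤ) : K) := fun w hw =>
        Tw.of_int (Helper891_XS.W.two_notMem' hp h2 hw) hd hA hB (fun x => (h w hw x).1)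
          fun x => (h w hw x).2
      exact Or.inr (Or.inl ⟨htw v hpv, fun w hw => htw w ((mem_of_pull hw p).2 hpv)⟩)
    · exact Or.inl (h v hpv)
  have e : (1 + 4 * k) ^ 2 - 4 * (16 * c) = (1 + 4 * k) ^ 2 - 64 * c := by ring
  by_cases h1 : v.valuation K (c : K) = 1
  · by_cases h2 : v.valuation K (((1 + 4 * k) ^ 2 - 4 * (16 * c) : ℤ) : K) = 1
    · exact Or.inr (Or.inr ⟨h1, h2⟩)
    · obtain ⟨p, hp, hpc, hpv⟩ := exists_prime v _ hD h2
      rw [e] at hpc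
      exact main p hp (hpc.mul_left _) hpv
  · obtain ⟨p, hp, hpc, hpv⟩ := exists_prime v _ hc h1
    exact main p hp (hpc.mul_right _) hpv

/-- the classes -/
lemma rel_o {K : Type} [Field K] [NumberField K] (htr : IsTotallyReal K) {a c A B : ℤ}
    (ha : a % 4 = 1) (hc : 0 < c) (hac : a < 0 ∨ a ^ 2 < 64 * c) (hD : a ^ 2 ≠ 64 * c)
    (hAB : (A = a ∧ B = 16 * c) ∨ (A = -2 * a ∧ B = a ^ 2 - 64 * c))
    (hcl : Odd (Nat.card (NCl K))) (γ : K ≃+* K)
    (hbad : ∀ p : ℕ, p.Prime → (p : ℤ) ∣ c * (a ^ 2 - 64 * c) →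
      Helper891_XS.W.TwK K a (16 * c) p ∨
      ∀ v : HeightOneSpectrum (𝓞 K), (p : 𝓞 K) ∈ v.asIdeal →
        ∀ x, v.valuation K (γ x) = v.valuation K x) :
    (∀ b : Kˣ, L1 A B (b : K) → ∃ y : Kˣ, γ (b : K) * b = (y : K) ^ 2) ∧
    (∀ b : Kˣ, L2 A B (b : K) → ∃ y : Kˣ, γ (b : K) * b = (y : K) ^ 2) := by
  let iK : Algebra ℚ K := DivisionRing.toRatAlgebra
  have hfd : FiniteDimensional ℚ K := NumberField.to_finiteDimensional
  obtain ⟨k, rfl⟩ : ∃ k : ℤ, a = 1 + 4 * k := ⟨a / 4, by omega⟩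
  have hD1 : (1 + 4 * k) ^ 2 - 4 * (16 * c) ≠ 0 := by
    intro h
    apply hD
    linear_combination h
  have hv := pl_of hc.ne' hD1 γ hbad
  have r1 : ∀ b : Kˣ, L1 (1 + 4 * k) (16 * c) (b : K) →
      ∃ y : Kˣ, γ (b : K) * b = (y : K) ^ 2 := fun b hL => relo1 γ hc (by
      rcases hac with h | h
      · exact Or.inl h
      · right; linarith) hcl hv b hL
  have r2 : ∀ b : Kˣ, L2 (1 + 4 * k) (16 * c) (b : K) →
      ∃ y : Kˣ, γ (b : K) * b = (y : K) ^ 2 := fun b hL => relo2 γ hcl hv b hL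
  have e : (1 + 4 * k) ^ 2 - 64 * c = (1 + 4 * k) ^ 2 - 4 * (16 * c) := by ring
  rcases hAB with ⟨rfl, rfl⟩ | ⟨rfl, rfl⟩
  · exact ⟨r1, r2⟩
  · rw [e]
    exact ⟨fun b hL => r2 b (L1_dual hL), fun b hL => r1 b (L2_dual hL)⟩

/-- **the theorem**, with the algebra structures of the library -/
theorem stab_o {a c A B : ℤ}
    (ha : a % 4 = 1) (hc : 0 < c) (hac : a < 0 ∨ a ^ 2 < 64 * c) (hD : a ^ 2 ≠ 64 * c)
    (hAB : (A = a ∧ B = 16 * c) ∨ (A = -2 * a ∧ B = a ^ 2 - 64 * c))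
    (F K : Type) [Field F] [NumberField F] [Field K] [NumberField K]
    (i : F →+* K) (hgal : @IsGalois F _ K _ i.toAlgebra)
    (hodd : Odd (@Module.finrank F K _ _ i.toAlgebra.toModule))
    (htr : IsTotallyReal K) (hcl : Odd (Nat.card (NCl K)))
    (hbad : ∀ p : ℕ, p.Prime → (p : ℤ) ∣ c * (a ^ 2 - 64 * c) →
      Helper891_XS.W.TwK K a (16 * c) p ∨ ∀ γ : K ≃+* K, (∀ x, γ (i x) = i x) →
      ∀ v : HeightOneSpectrum (𝓞 K), (p : 𝓞 K) ∈ v.asIdeal →
        ∀ x, v.valuation K (γ x) = v.valuation K x) :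
    Pool.Agent.TH841.NF.D.rk (gc A B K) = Pool.Agent.TH841.NF.D.rk (gc A B F) ∧
    Nonempty (AddCommGroup.primaryComponent
      (Pool.Agent.TH841.NF.D.Sha (gc A B K)) 2 ≃+
      AddCommGroup.primaryComponent
      (Pool.Agent.TH841.NF.D.Sha (gc A B F)) 2) := by
  let iF : Algebra ℚ F := DivisionRing.toRatAlgebra
  let iK : Algebra ℚ K := DivisionRing.toRatAlgebra
  have hne : B ≠ 0 ∧ A ^ 2 - 4 * B ≠ 0 := by
    rcases hAB with ⟨rfl, rfl⟩ | ⟨rfl, rfl⟩
    · refine ⟨by omega, ?_⟩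
      intro h
      apply hD
      linear_combination h
    · refine ⟨sub_ne_zero.2 hD, ?_⟩
      have : (-2 * a) ^ 2 - 4 * (a ^ 2 - 64 * c) = 256 * c := by ring
      rw [this]
      exact mul_ne_zero (by norm_num) hc.ne'
  obtain ⟨h1, ⟨h2⟩⟩ := stab_gen hne.1 hne.2 F K i hgal hodd
    (fun γ hγ => rel_o htr ha hc hac hD hAB hcl γ (fun p hp hpd => by
      rcases hbad p hp hpd with h | h
      · exact Or.inl h
      · exact Or.inr (h γ hγ)))
  have e1 : Pool.Agent.TH841.NF.D.rk (gc A B K) = Module.finrank ℤ (MP (gc A B K)) := by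
    unfold Pool.Agent.TH841.NF.D.rk
    congr
  have e2 : Pool.Agent.TH841.NF.D.rk (gc A B F) = Module.finrank ℤ (MP (gc A B F)) := by
    unfold Pool.Agent.TH841.NF.D.rk
    congr
  exact ⟨e1.trans (h1.trans e2.symm), ⟨h2.symm⟩⟩

end Pool.Agent.Helper891_XS.O
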