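import Pool.Agent.Helper891_XS.Gi
import Pool.Agent.Helper891_XS.Gf

/-!
# Curves `y² = x³ + a x² + 16 c x`, `a = 1` modulo `4`, over `F` and `K`: the theorem
-/

set_option autoImplicit false

open NumberField NumberField.InfinitePlace IsDedekindDomain WeierstrassCurve

namespace Pool.Agent.Helper891_XS.O

open Pool.Agent.Y682 (NCl gc)

open Pool.Agent.Helper891_XR

/-- **the fourth theorem** -/
theorem gen_four {a c A B : ℤ}
    (ha : a % 4 = 1) (hc : 0 < c) (hac : a < 0 ∨ a ^ 2 < 64 * c) (hD : a ^ 2 ≠ 64 * c)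
    (hAB : (A = a ∧ B = 16 * c) ∨ (A = -2 * a ∧ B = a ^ 2 - 64 * c))
    (F K : Type) [Field F] [NumberField F] [Field K] [NumberField K] [Algebra F K]
    [hgal : IsGalois F K] [htr : IsTotallyReal K]
    (hodd : Odd (Module.finrank F K)) (hcl : Odd (Nat.card (NCl K)))
    (hbad : ∀ p : ℕ, p.Prime → (p : ℤ) ∣ c * (a ^ 2 - 64 * c) →
      (∀ v w : HeightOneSpectrum (𝓞 K), (p : 𝓞 K) ∈ v.asIdeal → (p : 𝓞 K) ∈ w.asIdeal →
      v.under (𝓞 F) = w.under (𝓞 F) → v = w) ∨ Helper891_XS.W.TwK K a (16 * c) p) :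
    StR F K A B := by
  have halg : (algebraMap F K).toAlgebra = (inferInstance : Algebra F K) :=
    Algebra.algebra_ext _ _ fun x => rfl
  obtain ⟨h1, h2⟩ := stab_o ha hc hac hD hAB F K (algebraMap F K) (by
      rw [halg]
      exact hgal) (by
      rw [halg]
      exact hodd) htr hcl (fun p hp hpd => by
      rcases hbad p hp hpd with h | h
      · exact Or.inr fun γ hγ v hv x => fix_of_under h γ hγ v hv x
      · exact Or.inl h)
  exact ⟨h2, h1⟩

end Pool.Agent.Helper891_XS.O
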