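import Pool.Agent.Helper891_XS.Se

/-!
# The descent for the twists of `X_0(14)`, over `F` and `K`: the minimal equation
-/

set_option autoImplicit false

namespace Pool.Agent.Helper891_XS

open WeierstrassCurve NumberField IsDedekindDomain NumberField.InfinitePlace

open Pool.Agent.Y682 (NCl gc)

open Pool.Agent.Y700 (WM)

open Pool.Agent.Y682.XF

/-- **the descent** -/
theorem dsc_rel {D : ℤ} (hD : D % 4 = 1) (F K : Type) [Field F] [NumberField F] [Field K]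
    [NumberField K] [hgal : IsGalois ℚ K] (i : F →+* K)
    (hre : ∀ w : InfinitePlace K, w.IsReal)
    (hcl : Odd (Nat.card (NCl K))) (hodd : Odd (Module.finrank ℚ K))
    (hp2 : (Ideal.span {((2 : ℕ) : 𝓞 K)}).IsPrime) (hp7 : (Ideal.span {((7 : ℕ) : 𝓞 K)}).IsPrime)
    (hfr : ∀ γ : K ≃+* K, (∀ x, γ (i x) = i x) →
      ∀ p : ℕ, p.Prime → (p : ℤ) ∣ D → ∀ v : HeightOneSpectrum (𝓞 K), (p : 𝓞 K) ∈ v.asIdeal →
        ∀ x, v.valuation K (γ x) = v.valuation K x) :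
    rank K (WM D) = rank F (WM D) ∧ Nonempty (Sha2 K (WM D) ≃+ Sha2 F (WM D)) := by
  have hDo : Odd D := Int.odd_iff.2 (by omega)
  obtain ⟨h1, ⟨e1⟩⟩ := stab_rel' (D := D) F K hgal i hre hcl hodd hp2 hp7 hDo hfr
  obtain ⟨h3, ⟨e3⟩⟩ := trans_D K hD
  obtain ⟨h4, ⟨e4⟩⟩ := trans_D F hD
  exact ⟨by rw [h3, h4, h1], ⟨(e3.trans e1).trans e4.symm⟩⟩

end Pool.Agent.Helper891_XS
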